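import Pool.Agent.FrontSel98.Scal

/-!
# Elementary `L²` facts
-/

open MeasureTheory Filter Topology Set

namespace Pool.Agent.FrontSel98

theorem l2_int {f : ℝ → ℂ} (hf : MemLp f 2 volume) : Integrable (fun x => ‖f x‖ ^ 2) :=
  (memLp_two_iff_integrable_sq_norm hf.1).1 hf

theorem l2_nonneg (f : ℝ → ℂ) : 0 ≤ ∫ x, ‖f x‖ ^ 2 :=
  integral_nonneg fun x => by positivity

theorem l2_norm {f : ℝ → ℂ} (hf : MemLp f 2 volume) :
    eLpNorm f 2 volume = ENNReal.ofReal (Real.sqrt (∫ x, ‖f x‖ ^ 2)) := by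
  rw [hf.eLpNorm_eq_integral_rpow_norm (by norm_num) (by norm_num), Real.sqrt_eq_rpow]
  norm_num

theorem l2_le {f g : ℝ → ℂ} (hf : MemLp f 2 volume) (hg : MemLp g 2 volume) {C : ℝ} (hC : 0 ≤ C)
    (h : ∫ x, ‖f x‖ ^ 2 ≤ C ^ 2 * ∫ x, ‖g x‖ ^ 2) :
    eLpNorm f 2 volume ≤ ENNReal.ofReal C * eLpNorm g 2 volume := by
  rw [l2_norm hf, l2_norm hg, ← ENNReal.ofReal_mul hC]
  apply ENNReal.ofReal_le_ofReal
  rw [Real.sqrt_le_left (by positivity), mul_pow, Real.sq_sqrt (l2_nonneg g)]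
  exact h

theorem l2_ge {f g : ℝ → ℂ} (hf : MemLp f 2 volume) (hg : MemLp g 2 volume) {C : ℝ} (hC : 0 ≤ C)
    (h : eLpNorm f 2 volume ≤ ENNReal.ofReal C * eLpNorm g 2 volume) :
    ∫ x, ‖f x‖ ^ 2 ≤ C ^ 2 * ∫ x, ‖g x‖ ^ 2 := by
  rw [l2_norm hf, l2_norm hg, ← ENNReal.ofReal_mul hC, ENNReal.ofReal_le_ofReal_iff (by positivity),
    Real.sqrt_le_left (by positivity), mul_pow, Real.sq_sqrt (l2_nonneg g)] at h
  exact h

theorem l2_mul_int {f g : ℝ → ℂ} (hf : MemLp f 2 volume) (hg : MemLp g 2 volume) :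
    Integrable (fun x => f x * (starRingEnd ℂ) (g x)) := by
  have hg' : MemLp (fun x => (starRingEnd ℂ) (g x)) 2 volume := by
    have := hg.star
    exact this
  exact hf.integrable_mul hg'

theorem l2_cs {f g : ℝ → ℂ} (hf : MemLp f 2 volume) (hg : MemLp g 2 volume) :
    ‖∫ x, f x * (starRingEnd ℂ) (g x)‖ ≤
      Real.sqrt (∫ x, ‖f x‖ ^ 2) * Real.sqrt (∫ x, ‖g x‖ ^ 2) := by
  have h := integral_mul_norm_le_Lp_mul_Lq (μ := volume) (f := f) (g := g) (p := 2) (q := 2)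
    (by exact Real.HolderConjugate.two_two) (by simpa using hf) (by simpa using hg)
  calc ‖∫ x, f x * (starRingEnd ℂ) (g x)‖ ≤ ∫ x, ‖f x * (starRingEnd ℂ) (g x)‖ :=
        norm_integral_le_integral_norm _
    _ = ∫ x, ‖f x‖ * ‖g x‖ := by simp [norm_mul]
    _ ≤ _ := by
        refine h.trans (le_of_eq ?_)
        rw [Real.sqrt_eq_rpow, Real.sqrt_eq_rpow]
        norm_num

end Pool.Agent.FrontSel98
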