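import Pool.Agent.FrontSel98.PrimCalc
import Pool.Agent.FrontSel98.LTwo

/-!
# A priori estimates
-/

open MeasureTheory Filter Topology Set

namespace Pool.Agent.FrontSel98

theorem apriori_mul_conj (z : ℂ) : z * (starRingEnd ℂ) z = ((‖z‖ ^ 2 : ℝ) : ℂ) := by
  rw [Complex.mul_conj, Complex.normSq_eq_norm_sq]

/-- multiplication by a bounded continuous real function -/
theorem apriori_bdd_mul {f : ℝ → ℂ} (hf : MemLp f 2 volume) {p : ℝ → ℝ} (hp : Continuous p) {B : ℝ}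
    (hB : ∀ x, |p x| ≤ B) : MemLp (fun x => (p x : ℂ) * f x) 2 volume := by
  refine (hf.const_mul (B : ℂ)).mono ((Complex.continuous_ofReal.comp hp).aestronglyMeasurable.mul
    hf.1) (ae_of_all _ fun x => ?_)
  rw [norm_mul, norm_mul, Complex.norm_real, Complex.norm_real]
  have := hB x
  exact mul_le_mul_of_nonneg_right (by
    rw [Real.norm_eq_abs, Real.norm_eq_abs]; exact this.trans (le_abs_self _)) (norm_nonneg _)

/-- `∫ W'' conj W = - ∫ |W'|²`. -/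
theorem apriori_ibp {W W1 W2 : ℝ → ℂ} (h0 : Prim W W1) (h1 : Prim W1 W2)
    (m0 : MemLp W 2 volume) (m1 : MemLp W1 2 volume) (m2 : MemLp W2 2 volume) :
    ∫ x, W2 x * (starRingEnd ℂ) (W x) = -((∫ x, ‖W1 x‖ ^ 2 : ℝ) : ℂ) := by
  have hP := (h1.mul h0.conj)
  have hI := hP.integral_eq_zero (l2_mul_int m1 m0) ((l2_mul_int m2 m0).add (l2_mul_int m1 m1))
  rw [integral_add (l2_mul_int m2 m0) (l2_mul_int m1 m1)] at hI
  have : ∫ x, W1 x * (starRingEnd ℂ) (W1 x) = ((∫ x, ‖W1 x‖ ^ 2 : ℝ) : ℂ) := by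
    rw [← integral_complex_ofReal]
    simp_rw [apriori_mul_conj]
  rw [this] at hI
  exact eq_neg_of_add_eq_zero_left hI

/-- `∫ |W' - sW|² ≥ 0`. -/
theorem FPos.of_riccati {p s s' : ℝ → ℝ} (hs : ∀ x, HasDerivAt s (s' x) x) (hs' : Continuous s')
    (hb : ∃ B, ∀ x, |s x| ≤ B ∧ |s' x| ≤ B) (hp : Continuous p) (hpb : ∃ B, ∀ x, |p x| ≤ B)
    (h : ∀ x, s' x + s x ^ 2 ≤ p x) : FPos p := by
  intro W W1 W2 hW
  obtain ⟨B, hB⟩ := hb
  obtain ⟨Bp, hBp⟩ := hpb
  have m0 : MemLp W 2 volume := by simpa using hW.m0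
  have m1 : MemLp W1 2 volume := by simpa using hW.m1
  have hsc : Continuous s := continuous_iff_continuousAt.2 fun x => (hs x).continuousAt
  have hS : Prim (fun x => (s x : ℂ)) (fun x => (s' x : ℂ)) :=
    Prim.of_hasDerivAt (fun x => (hs x).ofReal_comp) (Complex.continuous_ofReal.comp hs')
  -- `F = s W conj W`
  have hP := (hS.mul hW.p0).mul hW.p0.conj
  have msW := apriori_bdd_mul m0 hsc (fun x => (hB x).1)
  have ms'W := apriori_bdd_mul m0 hs' (fun x => (hB x).2)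
  have msW1 := apriori_bdd_mul m1 hsc (fun x => (hB x).1)
  have hG : Integrable (fun x => ((s' x : ℂ) * W x + (s x : ℂ) * W1 x) * (starRingEnd ℂ) (W x)
      + ((s x : ℂ) * W x) * (starRingEnd ℂ) (W1 x)) :=
    (l2_mul_int (ms'W.add msW1) m0).add (l2_mul_int msW m1)
  have hI := hP.integral_eq_zero (l2_mul_int msW m0) hG
  -- real part
  have hre : ∫ x, (s' x * ‖W x‖ ^ 2 + 2 * s x * (W1 x * (starRingEnd ℂ) (W x)).re) = 0 := by
    have h1 := congrArg Complex.re hI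
    rw [← RCLike.re_eq_complex_re, ← integral_re hG] at h1
    simp only [RCLike.re_eq_complex_re, Complex.zero_re] at h1
    rw [← h1]
    apply integral_congr_ae
    refine ae_of_all _ fun x => ?_
    simp only [Complex.add_re, Complex.mul_re, Complex.mul_im, Complex.add_im, Complex.conj_re,
      Complex.conj_im, Complex.ofReal_re, Complex.ofReal_im, ← Complex.normSq_eq_norm_sq,
      Complex.normSq_apply]
    ring
  have i1 : Integrable (fun x => s' x * ‖W x‖ ^ 2 + 2 * s x * (W1 x * (starRingEnd ℂ) (W x)).re) := by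
    have := hG.re
    refine this.congr (ae_of_all _ fun x => ?_)
    simp only [RCLike.re_eq_complex_re, Complex.add_re, Complex.mul_re, Complex.mul_im, Complex.add_im,
      Complex.conj_re, Complex.conj_im, Complex.ofReal_re, Complex.ofReal_im,
      ← Complex.normSq_eq_norm_sq, Complex.normSq_apply]
    ring
  have i2 : Integrable (fun x => ‖W1 x‖ ^ 2 + p x * ‖W x‖ ^ 2) := by
    refine (l2_int m1).add ?_
    refine Integrable.bdd_mul (l2_int m0) hp.aestronglyMeasurable (c := Bp) (ae_of_all _ fun x => ?_)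
    rw [Real.norm_eq_abs]; exact hBp x
  calc (0 : ℝ) ≤ ∫ x, (‖W1 x‖ ^ 2 + p x * ‖W x‖ ^ 2) -
        (s' x * ‖W x‖ ^ 2 + 2 * s x * (W1 x * (starRingEnd ℂ) (W x)).re) := by
        apply integral_nonneg
        intro x
        have e : ‖W1 x - s x * W x‖ ^ 2 = ‖W1 x‖ ^ 2 - 2 * s x * (W1 x * (starRingEnd ℂ) (W x)).re +
            s x ^ 2 * ‖W x‖ ^ 2 := by
          simp only [← Complex.normSq_eq_norm_sq, Complex.normSq_apply, Complex.sub_re,
            Complex.sub_im, Complex.mul_re, Complex.mul_im, Complex.ofReal_re, Complex.ofReal_im,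
            Complex.conj_re, Complex.conj_im]
          ring
        have h1 : 0 ≤ ‖W1 x - s x * W x‖ ^ 2 := by positivity
        have h2 : (s' x + s x ^ 2) * ‖W x‖ ^ 2 ≤ p x * ‖W x‖ ^ 2 :=
          mul_le_mul_of_nonneg_right (h x) (by positivity)
        simp only [Pi.zero_apply]
        nlinarith
    _ = _ := by rw [integral_sub i2 i1, hre, sub_zero]

theorem FPos.of_nonneg {p : ℝ → ℝ} (h : ∀ x, 0 ≤ p x) : FPos p := by
  intro W W1 W2 _
  exact integral_nonneg fun x => add_nonneg (by positivity) (mul_nonneg (h x) (by positivity))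

/-- The conjugated function. -/
theorem apriori_exp_sob {u0 u1 u2 : ℝ → ℂ} (hu : SSob Real.exp u0 u1 u2) :
    SSob (fun _ => 1) (fun x => (Real.exp x : ℂ) * u0 x) (fun x => (Real.exp x : ℂ) * (u0 x + u1 x))
      (fun x => (Real.exp x : ℂ) * (u0 x + 2 * u1 x + u2 x)) := by
  have hE : Prim (fun x => (Real.exp x : ℂ)) (fun x => (Real.exp x : ℂ)) :=
    Prim.of_hasDerivAt (fun x => (Real.hasDerivAt_exp x).ofReal_comp)
      (Complex.continuous_ofReal.comp Real.continuous_exp)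
  have p0 := hE.mul hu.p0
  have p1 := hE.mul (hu.p0.add hu.p1)
  refine ⟨p0.congr_ae (ae_of_all _ fun x => by ring), p1.congr_ae (ae_of_all _ fun x => by ring),
    ?_, ?_, ?_⟩
  · simpa using hu.m0
  · refine (hu.m0.add hu.m1).ae_eq (ae_of_all _ fun x => ?_)
    simp only [Pi.add_apply, Complex.ofReal_one]
    ring
  · refine ((hu.m0.add (hu.m1.const_mul 2)).add hu.m2).ae_eq (ae_of_all _ fun x => ?_)
    simp only [Pi.add_apply, Complex.ofReal_one]
    ring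

/-- The elementary inequality behind both estimates: `E + λ A + I = 0`. -/
theorem apriori_alg {E A : ℝ} {lam I : ℂ} (hE : 0 ≤ E) (hA : 0 ≤ A) (hlam : 0 ≤ lam.re)
    (h : I = -(E : ℂ) - lam * A) : ‖lam‖ * A ≤ ‖I‖ := by
  have h1 : ‖lam‖ * A = ‖lam * A‖ := by
    rw [norm_mul, Complex.norm_real, Real.norm_of_nonneg hA]
  rw [h1, h]
  rw [← sq_le_sq₀ (norm_nonneg _) (norm_nonneg _), ← Complex.normSq_eq_norm_sq,
    ← Complex.normSq_eq_norm_sq, Complex.normSq_apply, Complex.normSq_apply]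
  simp only [Complex.mul_re, Complex.ofReal_re, Complex.ofReal_im, mul_zero, sub_zero,
    Complex.mul_im, Complex.sub_re, Complex.neg_re, Complex.sub_im, Complex.neg_im,
    zero_add, neg_zero, zero_sub]
  have : 0 ≤ E * (lam.re * A) := by positivity
  nlinarith [sq_nonneg E]

theorem apriori_ell_mem {ω q : ℝ → ℝ} (hq : Continuous q) (hb : ∃ B, ∀ x, |q x| ≤ B) {lam : ℂ}
    {u0 u1 u2 : ℝ → ℂ} (hu : SSob ω u0 u1 u2) :
    MemLp (fun x => (ω x : ℂ) * ell q lam u0 u1 u2 x) 2 volume := by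
  obtain ⟨B, hB⟩ := hb
  have := ((hu.m2.add (hu.m1.const_mul 2)).add (apriori_bdd_mul hu.m0 hq hB)).sub
    (hu.m0.const_mul lam)
  refine this.ae_eq (ae_of_all _ fun x => ?_)
  simp only [Pi.add_apply, Pi.sub_apply, ell]
  ring

/-- The estimate in `L²_{exp,1}` in terms of integrals. -/
theorem apriori_exp_int {q : ℝ → ℝ} (hq : Continuous q) (hb : ∃ B, ∀ x, |q x| ≤ B)
    (hF : FPos (fun x => 1 - q x)) {lam : ℂ} (hlam : 0 ≤ lam.re)
    {u0 u1 u2 : ℝ → ℂ} (hu : SSob Real.exp u0 u1 u2) :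
    ‖lam‖ ^ 2 * ∫ x, ‖(Real.exp x : ℂ) * u0 x‖ ^ 2 ≤
      ∫ x, ‖(Real.exp x : ℂ) * ell q lam u0 u1 u2 x‖ ^ 2 := by
  have hW := apriori_exp_sob hu
  have hg := apriori_ell_mem hq hb (lam := lam) hu
  set W := fun x => (Real.exp x : ℂ) * u0 x with hWdef
  set W1 := fun x => (Real.exp x : ℂ) * (u0 x + u1 x) with hW1def
  set W2 := fun x => (Real.exp x : ℂ) * (u0 x + 2 * u1 x + u2 x) with hW2def
  have hE := hF W W1 W2 hW
  have m0 : MemLp W 2 volume := by simpa using hW.m0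
  have m1 : MemLp W1 2 volume := by simpa using hW.m1
  have m2 : MemLp W2 2 volume := by simpa using hW.m2
  obtain ⟨B, hB⟩ := hb
  have mq : MemLp (fun x => ((1 - q x : ℝ) : ℂ) * W x) 2 volume :=
    apriori_bdd_mul m0 (continuous_const.sub hq) (B := 1 + B) (fun x => by
      have := hB x
      calc |1 - q x| ≤ |1| + |q x| := abs_sub _ _
        _ ≤ 1 + B := by rw [abs_one]; linarith)
  set g := fun x => (Real.exp x : ℂ) * ell q lam u0 u1 u2 x with hgdef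
  have hgW : ∀ x, g x = W2 x - ((1 - q x : ℝ) : ℂ) * W x - lam * W x := by
    intro x
    simp only [hgdef, hWdef, hW2def, ell]
    push_cast
    ring
  have hibp := apriori_ibp hW.p0 hW.p1 m0 m1 m2
  have i1 := l2_mul_int m2 m0
  have i2 := l2_mul_int mq m0
  have i3 := l2_mul_int (m0.const_mul lam) m0
  have hq2 : ∫ x, ((1 - q x : ℝ) : ℂ) * W x * (starRingEnd ℂ) (W x) =
      ((∫ x, (1 - q x) * ‖W x‖ ^ 2 : ℝ) : ℂ) := by
    rw [← integral_complex_ofReal]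
    apply integral_congr_ae
    refine ae_of_all _ fun x => ?_
    simp only
    rw [mul_assoc, apriori_mul_conj]
    push_cast
    ring
  have hA : ∫ x, lam * W x * (starRingEnd ℂ) (W x) = lam * ((∫ x, ‖W x‖ ^ 2 : ℝ) : ℂ) := by
    rw [← integral_complex_ofReal, ← integral_const_mul]
    apply integral_congr_ae
    refine ae_of_all _ fun x => ?_
    simp only
    rw [mul_assoc, apriori_mul_conj]
  have iq : Integrable (fun x => (1 - q x) * ‖W x‖ ^ 2) := by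
    refine Integrable.bdd_mul (l2_int m0) (continuous_const.sub hq).aestronglyMeasurable
      (c := 1 + B) (ae_of_all _ fun x => ?_)
    have := hB x
    rw [Real.norm_eq_abs]
    calc |1 - q x| ≤ |1| + |q x| := abs_sub _ _
      _ ≤ 1 + B := by rw [abs_one]; linarith
  have hid : ∫ x, g x * (starRingEnd ℂ) (W x) =
      -((∫ x, (‖W1 x‖ ^ 2 + (1 - q x) * ‖W x‖ ^ 2) : ℝ) : ℂ) -
        lam * ((∫ x, ‖W x‖ ^ 2 : ℝ) : ℂ) := by
    have e : ∀ x, g x * (starRingEnd ℂ) (W x) = W2 x * (starRingEnd ℂ) (W x) -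
        ((1 - q x : ℝ) : ℂ) * W x * (starRingEnd ℂ) (W x) -
        lam * W x * (starRingEnd ℂ) (W x) := by
      intro x; rw [hgW x]; ring
    simp_rw [e]
    have e2 := integral_sub (i1.sub i2) i3
    simp only [Pi.sub_apply] at e2
    rw [e2, integral_sub i1 i2, hibp, hq2, hA, integral_add (l2_int m1) iq]
    push_cast
    ring
  have h1 := apriori_alg hE (l2_nonneg W) hlam hid
  have h2 := l2_cs hg m0
  have h3 : ‖lam‖ * ∫ x, ‖W x‖ ^ 2 ≤ Real.sqrt (∫ x, ‖g x‖ ^ 2) * Real.sqrt (∫ x, ‖W x‖ ^ 2) :=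
    h1.trans h2
  -- conclude
  rcases (l2_nonneg W).eq_or_lt with h0 | h0
  · rw [← h0, mul_zero]; exact l2_nonneg g
  · have hs : 0 < Real.sqrt (∫ x, ‖W x‖ ^ 2) := Real.sqrt_pos.2 h0
    have h4 : ‖lam‖ * Real.sqrt (∫ x, ‖W x‖ ^ 2) ≤ Real.sqrt (∫ x, ‖g x‖ ^ 2) := by
      have e : ‖lam‖ * ∫ x, ‖W x‖ ^ 2 =
          (‖lam‖ * Real.sqrt (∫ x, ‖W x‖ ^ 2)) * Real.sqrt (∫ x, ‖W x‖ ^ 2) := by
        rw [mul_assoc, Real.mul_self_sqrt (l2_nonneg W)]
      rw [e] at h3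
      exact le_of_mul_le_mul_right h3 hs
    have h5 := mul_self_le_mul_self (by positivity) h4
    rw [Real.mul_self_sqrt (l2_nonneg g)] at h5
    calc ‖lam‖ ^ 2 * ∫ x, ‖W x‖ ^ 2 = ‖lam‖ * Real.sqrt (∫ x, ‖W x‖ ^ 2) *
          (‖lam‖ * Real.sqrt (∫ x, ‖W x‖ ^ 2)) := by
          rw [mul_mul_mul_comm, Real.mul_self_sqrt (l2_nonneg W)]; ring
      _ ≤ _ := h5

/-- The estimate in `L²_{exp,1}`: multiply `W'' - (1-q)W - λW = e^x g`, `W = e^x u`, by `conj W`. -/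
theorem apriori_exp {q : ℝ → ℝ} (hq : Continuous q) (hb : ∃ B, ∀ x, |q x| ≤ B)
    (hF : FPos (fun x => 1 - q x)) {lam : ℂ} (hlam : 0 ≤ lam.re) (hlam0 : lam ≠ 0)
    {u0 u1 u2 : ℝ → ℂ} (hu : SSob Real.exp u0 u1 u2) :
    eLpNorm (fun x => (Real.exp x : ℂ) * u0 x) 2 volume ≤
      ENNReal.ofReal (1 / ‖lam‖) *
        eLpNorm (fun x => (Real.exp x : ℂ) * ell q lam u0 u1 u2 x) 2 volume := by
  have hpos : 0 < ‖lam‖ := norm_pos_iff.2 hlam0
  apply l2_le hu.m0 (apriori_ell_mem hq hb hu) (by positivity)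
  have h := apriori_exp_int hq hb hF hlam hu
  rw [div_pow, one_pow, one_div, inv_mul_eq_div, le_div_iff₀ (by positivity), mul_comm]
  exact h

/-- membership in the unweighted and in the exponentially weighted space -/
theorem apriori_weight_mem {ω : ℝ → ℝ} (hω : Continuous ω) {K : ℝ} (hK0 : 0 < K)
    (hK : ∀ x, 1 + Real.exp x ≤ K * ω x ∧ ω x ≤ K * (1 + Real.exp x)) {f : ℝ → ℂ}
    (hf : MemLp (fun x => (ω x : ℂ) * f x) 2 volume) :
    MemLp f 2 volume ∧ MemLp (fun x => (Real.exp x : ℂ) * f x) 2 volume := by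
  have hpos : ∀ x, 0 < ω x := fun x => by
    have h1 := (hK x).1
    have h2 := Real.exp_pos x
    by_contra h
    push Not at h
    have : K * ω x ≤ 0 := mul_nonpos_of_nonneg_of_nonpos hK0.le h
    linarith
  have hinv : Continuous (fun x => ((ω x : ℂ))⁻¹) :=
    (Complex.continuous_ofReal.comp hω).inv₀ (fun x => by
      simpa using (hpos x).ne')
  have hfe : ∀ x, f x = ((ω x : ℂ))⁻¹ * ((ω x : ℂ) * f x) := fun x => by
    have : (ω x : ℂ) ≠ 0 := by simpa using (hpos x).ne'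
    field_simp
  have hfm : AEStronglyMeasurable f volume := by
    have := hinv.aestronglyMeasurable (μ := volume) |>.mul hf.1
    exact this.congr (ae_of_all _ fun x => (hfe x).symm)
  constructor
  · refine (hf.const_mul (K : ℂ)).mono hfm (ae_of_all _ fun x => ?_)
    simp only [norm_mul, Complex.norm_real, Real.norm_eq_abs, abs_of_pos hK0, abs_of_pos (hpos x)]
    rw [← mul_assoc]
    have := (hK x).1
    have h2 := Real.exp_pos x
    calc ‖f x‖ = 1 * ‖f x‖ := (one_mul _).symm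
      _ ≤ K * ω x * ‖f x‖ := mul_le_mul_of_nonneg_right (by linarith) (norm_nonneg _)
  · refine (hf.const_mul (K : ℂ)).mono ((Complex.continuous_ofReal.comp
      Real.continuous_exp).aestronglyMeasurable.mul hfm) (ae_of_all _ fun x => ?_)
    simp only [norm_mul, Complex.norm_real, Real.norm_eq_abs, abs_of_pos hK0, abs_of_pos (hpos x),
      abs_of_pos (Real.exp_pos x)]
    rw [← mul_assoc]
    have := (hK x).1
    exact mul_le_mul_of_nonneg_right (by linarith) (norm_nonneg _)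

/-- `Re ∫ W' conj W = 0`. -/
theorem apriori_re_zero {W W1 : ℝ → ℂ} (h0 : Prim W W1)
    (m0 : MemLp W 2 volume) (m1 : MemLp W1 2 volume) :
    (∫ x, W1 x * (starRingEnd ℂ) (W x)).re = 0 := by
  have hP := (h0.mul h0.conj)
  have hI := hP.integral_eq_zero (l2_mul_int m0 m0) ((l2_mul_int m1 m0).add (l2_mul_int m0 m1))
  rw [integral_add (l2_mul_int m1 m0) (l2_mul_int m0 m1)] at hI
  have : ∫ x, W x * (starRingEnd ℂ) (W1 x) =
      (starRingEnd ℂ) (∫ x, W1 x * (starRingEnd ℂ) (W x)) := by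
    rw [← integral_conj]
    apply integral_congr_ae
    refine ae_of_all _ fun x => ?_
    simp [mul_comm]
  rw [this, Complex.add_conj] at hI
  have := congrArg Complex.re hI
  simp only [Complex.ofReal_re, Complex.zero_re] at this
  linarith

/-- The estimate in the unweighted space. -/
theorem apriori_flat {q : ℝ → ℝ} (hq : Continuous q) (hb : ∃ B, ∀ x, |q x| ≤ B)
    {δ B : ℝ} (hδ : 0 < δ) (hqδ : ∀ x, q x ≤ -δ + B * Real.exp (2 * x)) {lam : ℂ}
    (hlam : 0 ≤ lam.re) {u0 u1 u2 : ℝ → ℂ} (h0 : Prim u0 u1) (h1 : Prim u1 u2)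
    (m0 : MemLp u0 2 volume) (m1 : MemLp u1 2 volume) (m2 : MemLp u2 2 volume)
    (me : MemLp (fun x => (Real.exp x : ℂ) * u0 x) 2 volume) :
    ∫ x, ‖u0 x‖ ^ 2 ≤ 1 / δ ^ 2 * (∫ x, ‖ell q lam u0 u1 u2 x‖ ^ 2) +
      2 * |B| / δ * ∫ x, ‖(Real.exp x : ℂ) * u0 x‖ ^ 2 := by
  obtain ⟨B', hB'⟩ := hb
  have mq : MemLp (fun x => (q x : ℂ) * u0 x) 2 volume := apriori_bdd_mul m0 hq hB'
  have mg : MemLp (fun x => ell q lam u0 u1 u2 x) 2 volume := by
    refine (((m2.add (m1.const_mul 2)).add mq).sub (m0.const_mul lam)).ae_eq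
      (ae_of_all _ fun x => ?_)
    simp only [Pi.add_apply, Pi.sub_apply, ell]
    ring
  have hibp := apriori_ibp h0 h1 m0 m1 m2
  have hre := apriori_re_zero h0 m0 m1
  have i1 := l2_mul_int m2 m0
  have i2 := l2_mul_int m1 m0
  have i3 := l2_mul_int mq m0
  have i4 := l2_mul_int (m0.const_mul lam) m0
  have hq2 : ∫ x, (q x : ℂ) * u0 x * (starRingEnd ℂ) (u0 x) =
      ((∫ x, q x * ‖u0 x‖ ^ 2 : ℝ) : ℂ) := by
    rw [← integral_complex_ofReal]
    apply integral_congr_ae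
    refine ae_of_all _ fun x => ?_
    simp only
    rw [mul_assoc, apriori_mul_conj]
    push_cast
    ring
  have hA : ∫ x, lam * u0 x * (starRingEnd ℂ) (u0 x) = lam * ((∫ x, ‖u0 x‖ ^ 2 : ℝ) : ℂ) := by
    rw [← integral_complex_ofReal, ← integral_const_mul]
    apply integral_congr_ae
    refine ae_of_all _ fun x => ?_
    simp only
    rw [mul_assoc, apriori_mul_conj]
  have hid : ∫ x, ell q lam u0 u1 u2 x * (starRingEnd ℂ) (u0 x) =
      -((∫ x, ‖u1 x‖ ^ 2 : ℝ) : ℂ) + 2 * (∫ x, u1 x * (starRingEnd ℂ) (u0 x)) +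
      ((∫ x, q x * ‖u0 x‖ ^ 2 : ℝ) : ℂ) - lam * ((∫ x, ‖u0 x‖ ^ 2 : ℝ) : ℂ) := by
    have e : ∀ x, ell q lam u0 u1 u2 x * (starRingEnd ℂ) (u0 x) = u2 x * (starRingEnd ℂ) (u0 x) +
        2 * (u1 x * (starRingEnd ℂ) (u0 x)) + (q x : ℂ) * u0 x * (starRingEnd ℂ) (u0 x) -
        lam * u0 x * (starRingEnd ℂ) (u0 x) := by
      intro x; simp only [ell]; ring
    simp_rw [e]
    have e2 := integral_sub ((i1.add (i2.const_mul 2)).add i3) i4
    simp only [Pi.add_apply] at e2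
    have e3 := integral_add (i1.add (i2.const_mul 2)) i3
    simp only [Pi.add_apply] at e3
    rw [e2, e3, integral_add i1 (i2.const_mul 2), integral_const_mul, hibp, hq2, hA]
  have hrid : (∫ x, ell q lam u0 u1 u2 x * (starRingEnd ℂ) (u0 x)).re =
      -(∫ x, ‖u1 x‖ ^ 2) + (∫ x, q x * ‖u0 x‖ ^ 2) - lam.re * ∫ x, ‖u0 x‖ ^ 2 := by
    rw [hid]
    simp only [Complex.add_re, Complex.sub_re, Complex.neg_re, Complex.ofReal_re, Complex.mul_re,
      Complex.ofReal_im, mul_zero, sub_zero, hre]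
    simp
  have hcs := (neg_le_of_abs_le ((Complex.abs_re_le_norm _).trans (l2_cs mg m0)))
  have iq : Integrable (fun x => q x * ‖u0 x‖ ^ 2) := by
    refine Integrable.bdd_mul (l2_int m0) hq.aestronglyMeasurable (c := B')
      (ae_of_all _ fun x => ?_)
    rw [Real.norm_eq_abs]; exact hB' x
  have hqint : ∫ x, q x * ‖u0 x‖ ^ 2 ≤ -δ * (∫ x, ‖u0 x‖ ^ 2) +
      |B| * ∫ x, ‖(Real.exp x : ℂ) * u0 x‖ ^ 2 := by
    rw [← integral_const_mul, ← integral_const_mul, ← integral_add ((l2_int m0).const_mul _)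
      ((l2_int me).const_mul _)]
    refine integral_mono iq (((l2_int m0).const_mul _).add ((l2_int me).const_mul _)) fun x => ?_
    have h1 := hqδ x
    have e : ‖(Real.exp x : ℂ) * u0 x‖ ^ 2 = Real.exp (2 * x) * ‖u0 x‖ ^ 2 := by
      rw [norm_mul, Complex.norm_real, Real.norm_of_nonneg (Real.exp_pos x).le, mul_pow,
        two_mul, Real.exp_add]
      ring
    simp only [Pi.add_apply]
    rw [e]
    have h2 : B * Real.exp (2 * x) ≤ |B| * Real.exp (2 * x) :=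
      mul_le_mul_of_nonneg_right (le_abs_self B) (Real.exp_pos _).le
    have h3 : q x * ‖u0 x‖ ^ 2 ≤ (-δ + |B| * Real.exp (2 * x)) * ‖u0 x‖ ^ 2 :=
      mul_le_mul_of_nonneg_right (by linarith) (by positivity)
    linarith
  have hn1 := l2_nonneg u1
  have hn0 := l2_nonneg u0
  have hln : 0 ≤ lam.re * ∫ x, ‖u0 x‖ ^ 2 := mul_nonneg hlam hn0
  set A := ∫ x, ‖u0 x‖ ^ 2 with hAdef
  set G := ∫ x, ‖ell q lam u0 u1 u2 x‖ ^ 2 with hGdef
  set Y := ∫ x, ‖(Real.exp x : ℂ) * u0 x‖ ^ 2 with hYdef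
  have hG0 : 0 ≤ G := l2_nonneg _
  have key : δ * A ≤ Real.sqrt G * Real.sqrt A + |B| * Y := by
    linarith
  have hyoung : Real.sqrt G * Real.sqrt A ≤ δ / 2 * A + 1 / (2 * δ) * G := by
    have h5 := sq_nonneg (Real.sqrt G - δ * Real.sqrt A)
    have h6 : Real.sqrt G ^ 2 = G := Real.sq_sqrt hG0
    have h7 : Real.sqrt A ^ 2 = A := Real.sq_sqrt hn0
    have h8 : 2 * δ * (Real.sqrt G * Real.sqrt A) ≤ δ ^ 2 * A + G := by nlinarith
    rw [div_mul_eq_mul_div, div_mul_eq_mul_div, div_add_div _ _ (by norm_num) (by positivity),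
      le_div_iff₀ (by positivity)]
    nlinarith
  have h9 : δ / 2 * A ≤ 1 / (2 * δ) * G + |B| * Y := by linarith
  have h10 : A ≤ 2 / δ * (1 / (2 * δ) * G + |B| * Y) := by
    rw [div_mul_eq_mul_div, le_div_iff₀ hδ]
    nlinarith
  calc A ≤ 2 / δ * (1 / (2 * δ) * G + |B| * Y) := h10
    _ = 1 / δ ^ 2 * G + 2 * |B| / δ * Y := by field_simp

/-- The estimate in `L²_{exp,0,1}`: multiply the equation by `conj u` and combine with
`apriori_exp`. -/
theorem apriori_w {ω : ℝ → ℝ} (hω : Continuous ω) {K : ℝ} (hK0 : 0 < K)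
    (hK : ∀ x, 1 + Real.exp x ≤ K * ω x ∧ ω x ≤ K * (1 + Real.exp x))
    {δ B : ℝ} (hδ : 0 < δ) {lam : ℂ} (hlam : 0 ≤ lam.re) (hlam0 : lam ≠ 0) :
    ∃ C : NNReal, ∀ q : ℝ → ℝ, Continuous q → (∃ B', ∀ x, |q x| ≤ B') →
      FPos (fun x => 1 - q x) → (∀ x, q x ≤ -δ + B * Real.exp (2 * x)) →
      ∀ u0 u1 u2, SSob ω u0 u1 u2 →
        eLpNorm (fun x => (ω x : ℂ) * u0 x) 2 volume ≤
          C * eLpNorm (fun x => (ω x : ℂ) * ell q lam u0 u1 u2 x) 2 volume := by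
  have hpos : 0 < ‖lam‖ := norm_pos_iff.2 hlam0
  set M : ℝ := 1 / δ ^ 2 + 2 * |B| / δ / ‖lam‖ ^ 2 + 1 / ‖lam‖ ^ 2 with hM
  have hM0 : 0 ≤ M := by positivity
  refine ⟨Real.toNNReal (Real.sqrt (2 * M) * K ^ 2), fun q hq hb hF hqδ u0 u1 u2 hu => ?_⟩
  have hmg := apriori_ell_mem hq hb (lam := lam) hu
  refine l2_le hu.m0 hmg (by positivity) ?_
  obtain ⟨m0, e0⟩ := apriori_weight_mem hω hK0 hK hu.m0
  obtain ⟨m1, e1⟩ := apriori_weight_mem hω hK0 hK hu.m1
  obtain ⟨m2, e2⟩ := apriori_weight_mem hω hK0 hK hu.m2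
  obtain ⟨mg, eg⟩ := apriori_weight_mem hω hK0 hK hmg
  have hexp := apriori_exp_int hq hb hF hlam (u0 := u0) (u1 := u1) (u2 := u2)
    ⟨hu.p0, hu.p1, e0, e1, e2⟩
  have hflat := apriori_flat hq hb hδ hqδ hlam hu.p0 hu.p1 m0 m1 m2 e0
  set A := ∫ x, ‖u0 x‖ ^ 2 with hAdef
  set Y := ∫ x, ‖(Real.exp x : ℂ) * u0 x‖ ^ 2 with hYdef
  set G := ∫ x, ‖ell q lam u0 u1 u2 x‖ ^ 2 with hGdef
  set E := ∫ x, ‖(Real.exp x : ℂ) * ell q lam u0 u1 u2 x‖ ^ 2 with hEdef
  have hG0 : 0 ≤ G := l2_nonneg _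
  have hE0 : 0 ≤ E := l2_nonneg _
  have hY0 : 0 ≤ Y := l2_nonneg _
  have hY : Y ≤ 1 / ‖lam‖ ^ 2 * E := by
    rw [div_mul_eq_mul_div, one_mul, le_div_iff₀ (by positivity)]
    linarith
  have hsum : A + Y ≤ M * (G + E) := by
    have h1 : 2 * |B| / δ * Y ≤ 2 * |B| / δ * (1 / ‖lam‖ ^ 2 * E) :=
      mul_le_mul_of_nonneg_left hY (by positivity)
    have h2 : 0 ≤ 2 * |B| / δ / ‖lam‖ ^ 2 * G := by positivity
    have h3 : 0 ≤ 1 / ‖lam‖ ^ 2 * G := by positivity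
    have h4 : 0 ≤ 1 / δ ^ 2 * E := by positivity
    calc A + Y ≤ 1 / δ ^ 2 * G + 2 * |B| / δ * (1 / ‖lam‖ ^ 2 * E) + 1 / ‖lam‖ ^ 2 * E := by
          linarith
      _ ≤ 1 / δ ^ 2 * G + 2 * |B| / δ * (1 / ‖lam‖ ^ 2 * E) + 1 / ‖lam‖ ^ 2 * E +
          (2 * |B| / δ / ‖lam‖ ^ 2 * G + 1 / ‖lam‖ ^ 2 * G + 1 / δ ^ 2 * E) := by linarith
      _ = M * (G + E) := by rw [hM]; ring
  -- lower comparison
  have hleft : ∫ x, ‖(ω x : ℂ) * u0 x‖ ^ 2 ≤ 2 * K ^ 2 * (A + Y) := by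
    rw [hAdef, hYdef, ← integral_add (l2_int m0) (l2_int e0), ← integral_const_mul]
    refine integral_mono (l2_int hu.m0) (((l2_int m0).add (l2_int e0)).const_mul _) fun x => ?_
    have h1 := hK x
    have h2 := Real.exp_pos x
    have h3 : 0 < ω x := by
      by_contra h
      push Not at h
      have : K * ω x ≤ 0 := mul_nonpos_of_nonneg_of_nonpos hK0.le h
      linarith [h1.1]
    simp only [norm_mul, Complex.norm_real, Real.norm_of_nonneg h2.le, Real.norm_of_nonneg h3.le,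
      mul_pow, Pi.add_apply]
    have h4 : ω x ^ 2 ≤ (K * (1 + Real.exp x)) ^ 2 := pow_le_pow_left₀ h3.le h1.2 2
    have h5 : (K * (1 + Real.exp x)) ^ 2 ≤ 2 * K ^ 2 * (1 + Real.exp x ^ 2) := by
      have : (1 + Real.exp x) ^ 2 ≤ 2 * (1 + Real.exp x ^ 2) := by
        nlinarith [sq_nonneg (1 - Real.exp x)]
      calc (K * (1 + Real.exp x)) ^ 2 = K ^ 2 * (1 + Real.exp x) ^ 2 := by ring
        _ ≤ K ^ 2 * (2 * (1 + Real.exp x ^ 2)) := mul_le_mul_of_nonneg_left this (by positivity)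
        _ = _ := by ring
    calc ω x ^ 2 * ‖u0 x‖ ^ 2 ≤ (2 * K ^ 2 * (1 + Real.exp x ^ 2)) * ‖u0 x‖ ^ 2 :=
          mul_le_mul_of_nonneg_right (h4.trans h5) (by positivity)
      _ = _ := by ring
  have hright : G + E ≤ K ^ 2 * ∫ x, ‖(ω x : ℂ) * ell q lam u0 u1 u2 x‖ ^ 2 := by
    rw [hGdef, hEdef, ← integral_add (l2_int mg) (l2_int eg), ← integral_const_mul]
    refine integral_mono ((l2_int mg).add (l2_int eg)) ((l2_int hmg).const_mul _) fun x => ?_
    have h1 := hK x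
    have h2 := Real.exp_pos x
    have h3 : 0 < ω x := by
      by_contra h
      push Not at h
      have : K * ω x ≤ 0 := mul_nonpos_of_nonneg_of_nonpos hK0.le h
      linarith [h1.1]
    simp only [norm_mul, Complex.norm_real, Real.norm_of_nonneg h2.le, Real.norm_of_nonneg h3.le,
      mul_pow, Pi.add_apply]
    have h4 : 1 + Real.exp x ^ 2 ≤ (K * ω x) ^ 2 := by
      have : (1 + Real.exp x) ^ 2 ≤ (K * ω x) ^ 2 := pow_le_pow_left₀ (by linarith) h1.1 2
      nlinarith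
    calc ‖ell q lam u0 u1 u2 x‖ ^ 2 + Real.exp x ^ 2 * ‖ell q lam u0 u1 u2 x‖ ^ 2 =
          (1 + Real.exp x ^ 2) * ‖ell q lam u0 u1 u2 x‖ ^ 2 := by ring
      _ ≤ (K * ω x) ^ 2 * ‖ell q lam u0 u1 u2 x‖ ^ 2 :=
          mul_le_mul_of_nonneg_right h4 (by positivity)
      _ = _ := by ring
  rw [mul_pow, Real.sq_sqrt (by positivity)]
  calc ∫ x, ‖(ω x : ℂ) * u0 x‖ ^ 2 ≤ 2 * K ^ 2 * (A + Y) := hleft
    _ ≤ 2 * K ^ 2 * (M * (G + E)) := mul_le_mul_of_nonneg_left hsum (by positivity)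
    _ ≤ 2 * K ^ 2 * (M * (K ^ 2 * ∫ x, ‖(ω x : ℂ) * ell q lam u0 u1 u2 x‖ ^ 2)) := by
        gcongr
    _ = _ := by ring

end Pool.Agent.FrontSel98
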