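import Pool.Agent.FrontSel98.Front

/-!
# No drift: the first component pins the position of the front

Paper proof. `V(t,x)` = first component, `V_t = V_xx + F(V)`, `F(v) = 3v(1-v)(6v-1)`, and
`v_*'' + 2v_*' + F(v_*) = 0`. Suppose `|V(t, x+2t+h(t)) - v_*(x)| ≤ 1/50` for all `x` and all
`t ≥ t₁ > 0`. Put `q₀ = 1/50`, `q(t) = q₀ e^{-(t-t₁)}`, `ζ(t) = 14 q₀ (1 - e^{-(t-t₁)})`, `h₁ = h(t₁)`.
* `V_-(t,x) = v_*(x - 2t - h₁ + ζ(t)) - q(t)` satisfies `∂_t V_- ≤ ∂_x² V_- + F(V_-)`: with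
  `v = v_*(..)`, `∂_t V_- - ∂_x² V_- - F(V_-) = ζ' v_*' - q' + F(v) - F(v-q)
   = q [1 + (-54v² + 42v - 3 + 54vq - 21q - 18q²) - 42 v(1-v)] ≤ q [-2 + 33 q] ≤ 0`.
* `V_+(t,x) = v_*(x - 2t - h₁ - ζ(t)) + q(t)` satisfies `∂_t V_+ ≥ ∂_x² V_+ + F(V_+)`:
  `∂_t V_+ - ∂_x² V_+ - F(V_+) = q [-1 + 42v(1-v) + 54v² - 42v + 3 + 54vq - 21q + 18q²] ≥ q[2 - 21q] ≥ 0`.
* comparison principle (`cmp`): hence `V_- ≤ V ≤ V_+` for `t ≥ t₁`. At `x = 2t + h₁ - ζ(∞)` this gives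
  `v_*(h₁ - ζ(∞) - h(t)) ≥ 1/2 - q₀ - 1/50` so `h(t) ≥ h₁ - C`; similarly `h(t) ≤ h₁ + C`.
* proof of `cmp`: if `z = V₂ - V₁` is negative somewhere on `[t₁,T] × ℝ`, look at
  `φ = e^{-K(t-t₁)} z + ε e^{3(t-t₁)} (1+x²)` for small `ε > 0`; `φ → ∞` as `|x| → ∞`, so `φ` has a negative
  minimum at some `(t₀,x₀)` with `t₀ > t₁`; there `φ_t ≤ 0`, `φ_xx ≥ 0`, but
  `φ_t - φ_xx ≥ e^{-K(t-t₁)} (k z - K z) + ε(3(1+x²) - 2) e^{3(t-t₁)} > 0` (`|k| ≤ K` Lipschitz constant of `F`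
  on the range, `z < 0`).
-/

open MeasureTheory Filter Topology Set Matrix

namespace Pool.Agent.FrontSel98

/-- The bistable nonlinearity. -/
noncomputable def FF (v : ℝ) : ℝ := 3 * v * (1 - v) * (6 * v - 1)

theorem Barrier_FF_sub (a b : ℝ) :
    FF a - FF b = (a - b) * (-18 * (a ^ 2 + a * b + b ^ 2) + 21 * (a + b) - 3) := by
  unfold FF
  ring

theorem Barrier_lip {M a b : ℝ} (ha : |a| ≤ M) (hb : |b| ≤ M) :
    |FF a - FF b| ≤ (54 * M ^ 2 + 42 * M + 3) * |a - b| := by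
  rw [Barrier_FF_sub, abs_mul, mul_comm]
  apply mul_le_mul_of_nonneg_right _ (abs_nonneg _)
  obtain ⟨a1, a2⟩ := abs_le.1 ha
  obtain ⟨b1, b2⟩ := abs_le.1 hb
  have hM : 0 ≤ M := (abs_nonneg a).trans ha
  have h1 : a ^ 2 ≤ M ^ 2 := sq_le_sq' a1 a2
  have h2 : b ^ 2 ≤ M ^ 2 := sq_le_sq' b1 b2
  have h3 : a * b ≤ M ^ 2 := by nlinarith [sq_nonneg (a - b)]
  have h4 : -M ^ 2 ≤ a * b := by nlinarith [sq_nonneg (a + b)]
  rw [abs_le]
  constructor
  · nlinarith [sq_nonneg a, sq_nonneg b]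
  · nlinarith [sq_nonneg (a + b), sq_nonneg a, sq_nonneg b]

/-- Second derivative at a global minimum. -/
theorem Barrier_second {f f' : ℝ → ℝ} {c x₀ : ℝ} (hf : ∀ x, HasDerivAt f (f' x) x)
    (hf' : HasDerivAt f' c x₀) (hmin : ∀ x, f x₀ ≤ f x) : 0 ≤ c := by
  by_contra hc
  push Not at hc
  have h0 : f' x₀ = 0 := by
    have hl : IsLocalMin f x₀ := Eventually.of_forall hmin
    exact hl.hasDerivAt_eq_zero (hf x₀)
  have hs := hf'.tendsto_slope
  have hev : ∀ᶠ x in 𝓝[≠] x₀, slope f' x₀ x < 0 := hs.eventually (gt_mem_nhds hc)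
  have hev2 : ∀ᶠ x in 𝓝[>] x₀, slope f' x₀ x < 0 :=
    hev.filter_mono (nhdsWithin_mono _ fun x hx => ne_of_gt hx)
  rw [eventually_nhdsWithin_iff, Metric.eventually_nhds_iff] at hev2
  obtain ⟨δ, hδ, hh⟩ := hev2
  have hneg : ∀ x, x₀ < x → x < x₀ + δ → f' x < 0 := by
    intro x h1 h2
    have h3 := hh (y := x) (by rw [Real.dist_eq, abs_lt]; constructor <;> linarith) h1
    rw [slope_def_field, h0, sub_zero, div_lt_iff₀ (by linarith), zero_mul] at h3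
    exact h3
  obtain ⟨ξ, ⟨h1, h2⟩, h3⟩ := exists_hasDerivAt_eq_slope f f' (show x₀ < x₀ + δ / 2 by linarith)
    (fun x _ => (hf x).continuousAt.continuousWithinAt) (fun x _ => hf x)
  have h4 := hneg ξ h1 (by linarith)
  rw [h3, div_lt_iff₀ (by linarith), zero_mul] at h4
  have h5 := hmin (x₀ + δ / 2)
  linarith

/-- Time derivative at a minimum over the past. -/
theorem Barrier_first {f : ℝ → ℝ} {c t₀ t₁ : ℝ} (ht : t₁ < t₀) (hf : HasDerivAt f c t₀)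
    (hmin : ∀ s, t₁ ≤ s → s ≤ t₀ → f t₀ ≤ f s) : c ≤ 0 := by
  by_contra hc
  push Not at hc
  have hs := hf.tendsto_slope
  have hev : ∀ᶠ x in 𝓝[≠] t₀, 0 < slope f t₀ x := hs.eventually (lt_mem_nhds hc)
  have hev2 : ∀ᶠ x in 𝓝[<] t₀, 0 < slope f t₀ x :=
    hev.filter_mono (nhdsWithin_mono _ fun x hx => ne_of_lt hx)
  have hev3 : ∀ᶠ x in 𝓝[<] t₀, t₁ < x := eventually_nhdsWithin_of_eventually_nhds (lt_mem_nhds ht)
  have hev4 : ∀ᶠ x in 𝓝[<] t₀, x < t₀ := self_mem_nhdsWithin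
  obtain ⟨x, h1, h2, h3⟩ := (hev2.and (hev3.and hev4)).exists
  have h4 := hmin x h2.le h3.le
  rw [slope_def_field] at h1
  have h5 : (f x - f t₀) / (x - t₀) ≤ 0 :=
    div_nonpos_of_nonneg_of_nonpos (by linarith) (by linarith)
  linarith

/-- Comparison principle for `V_t = V_xx + F(V)` on `[t₁, ∞) × ℝ`. -/
theorem cmp {V₁ V₂ T₁ T₂ X₁ X₂ Y₁ Y₂ : ℝ → ℝ → ℝ} {t₁ : ℝ}
    (hV₁ : ContinuousOn (fun p : ℝ × ℝ => V₁ p.1 p.2) (Ici t₁ ×ˢ univ))
    (hV₂ : ContinuousOn (fun p : ℝ × ℝ => V₂ p.1 p.2) (Ici t₁ ×ˢ univ))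
    (hb₁ : ∀ T, ∃ M, ∀ t, t₁ ≤ t → t ≤ T → ∀ x, |V₁ t x| ≤ M)
    (hb₂ : ∀ T, ∃ M, ∀ t, t₁ ≤ t → t ≤ T → ∀ x, |V₂ t x| ≤ M)
    (ht₁ : ∀ t > t₁, ∀ x, HasDerivAt (fun s => V₁ s x) (T₁ t x) t)
    (ht₂ : ∀ t > t₁, ∀ x, HasDerivAt (fun s => V₂ s x) (T₂ t x) t)
    (hx₁ : ∀ t > t₁, ∀ x, HasDerivAt (V₁ t) (X₁ t x) x ∧ HasDerivAt (X₁ t) (Y₁ t x) x)
    (hx₂ : ∀ t > t₁, ∀ x, HasDerivAt (V₂ t) (X₂ t x) x ∧ HasDerivAt (X₂ t) (Y₂ t x) x)
    (hsub : ∀ t > t₁, ∀ x, T₁ t x ≤ Y₁ t x + FF (V₁ t x))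
    (hsup : ∀ t > t₁, ∀ x, Y₂ t x + FF (V₂ t x) ≤ T₂ t x)
    (hinit : ∀ x, V₁ t₁ x ≤ V₂ t₁ x) :
    ∀ t ≥ t₁, ∀ x, V₁ t x ≤ V₂ t x := by
  intro T hT xx
  obtain ⟨M₁, hM₁⟩ := hb₁ T
  obtain ⟨M₂, hM₂⟩ := hb₂ T
  obtain ⟨M, hM⟩ : ∃ M, M = max M₁ M₂ := ⟨_, rfl⟩
  have hMa : ∀ t, t₁ ≤ t → t ≤ T → ∀ x, |V₁ t x| ≤ M := fun t h1 h2 x =>
    (hM₁ t h1 h2 x).trans (by rw [hM]; exact le_max_left _ _)
  have hMb : ∀ t, t₁ ≤ t → t ≤ T → ∀ x, |V₂ t x| ≤ M := fun t h1 h2 x =>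
    (hM₂ t h1 h2 x).trans (by rw [hM]; exact le_max_right _ _)
  have hM0 : 0 ≤ M := (abs_nonneg _).trans (hMa T hT le_rfl xx)
  obtain ⟨K, hK⟩ : ∃ K, K = 54 * M ^ 2 + 42 * M + 3 := ⟨_, rfl⟩
  have hK0 : 0 ≤ K := by rw [hK]; positivity
  -- the main claim
  have key : ∀ ε > 0, ∀ t, t₁ ≤ t → t ≤ T → ∀ x,
      0 ≤ Real.exp (-K * (t - t₁)) * (V₂ t x - V₁ t x) +
        ε * (Real.exp (3 * (t - t₁)) * (1 + x ^ 2)) := by
    intro ε hε t' ht' htT' x'
    by_contra hneg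
    push Not at hneg
    obtain ⟨φ, hφ⟩ : ∃ φ : ℝ × ℝ → ℝ, φ = fun p =>
      Real.exp (-K * (p.1 - t₁)) * (V₂ p.1 p.2 - V₁ p.1 p.2) +
        ε * (Real.exp (3 * (p.1 - t₁)) * (1 + p.2 ^ 2)) := ⟨_, rfl⟩
    have hlow : ∀ t, t₁ ≤ t → t ≤ T → ∀ x, -(2 * M) + ε * (1 + x ^ 2) ≤ φ (t, x) := by
      intro t h1 h2 x
      rw [hφ]
      simp only
      have e1 : Real.exp (-K * (t - t₁)) ≤ 1 := by
        rw [Real.exp_le_one_iff]
        nlinarith
      have e2 : 1 ≤ Real.exp (3 * (t - t₁)) := by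
        rw [Real.one_le_exp_iff]
        linarith
      have e3 := Real.exp_pos (-K * (t - t₁))
      have e4 : -(2 * M) ≤ V₂ t x - V₁ t x := by
        have := abs_le.1 (hMa t h1 h2 x)
        have := abs_le.1 (hMb t h1 h2 x)
        linarith
      have e5 : -(2 * M) ≤ Real.exp (-K * (t - t₁)) * (V₂ t x - V₁ t x) := by
        have : Real.exp (-K * (t - t₁)) * (-(2 * M)) ≤
            Real.exp (-K * (t - t₁)) * (V₂ t x - V₁ t x) := mul_le_mul_of_nonneg_left e4 e3.le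
        nlinarith
      have e6 : 1 * (1 + x ^ 2) ≤ Real.exp (3 * (t - t₁)) * (1 + x ^ 2) :=
        mul_le_mul_of_nonneg_right e2 (by positivity)
      have e7 := mul_le_mul_of_nonneg_left e6 hε.le
      linarith
    obtain ⟨R, hR⟩ : ∃ R, R = |x'| + 2 * M / ε + 1 := ⟨_, rfl⟩
    have hq0 : 0 ≤ 2 * M / ε := by positivity
    have hR1 : 1 ≤ R := by rw [hR]; have := abs_nonneg x'; linarith
    have hout : ∀ t, t₁ ≤ t → t ≤ T → ∀ x, R ≤ |x| → 0 < φ (t, x) := by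
      intro t h1 h2 x hx
      refine lt_of_lt_of_le ?_ (hlow t h1 h2 x)
      have e1 : 2 * M / ε ≤ |x| := by
        have := abs_nonneg x'
        linarith
      have e2 : |x| ≤ x ^ 2 := by
        rw [← sq_abs]
        nlinarith
      have e3 : 2 * M ≤ ε * x ^ 2 := by
        rw [div_le_iff₀ hε] at e1
        nlinarith
      linarith
    have hcomp : IsCompact (Icc t₁ T ×ˢ Icc (-R) R) := isCompact_Icc.prod isCompact_Icc
    have hne : (Icc t₁ T ×ˢ Icc (-R) R).Nonempty := ⟨(t₁, 0), ⟨⟨le_rfl, hT⟩, by linarith, by linarith⟩⟩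
    have hcont : ContinuousOn φ (Icc t₁ T ×ˢ Icc (-R) R) := by
      have c1 : ContinuousOn (fun p : ℝ × ℝ => V₁ p.1 p.2) (Icc t₁ T ×ˢ Icc (-R) R) :=
        hV₁.mono (prod_mono Icc_subset_Ici_self (subset_univ _))
      have c2 : ContinuousOn (fun p : ℝ × ℝ => V₂ p.1 p.2) (Icc t₁ T ×ˢ Icc (-R) R) :=
        hV₂.mono (prod_mono Icc_subset_Ici_self (subset_univ _))
      have c3 : Continuous (fun p : ℝ × ℝ => Real.exp (-K * (p.1 - t₁))) := by fun_prop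
      have c4 : Continuous (fun p : ℝ × ℝ => ε * (Real.exp (3 * (p.1 - t₁)) * (1 + p.2 ^ 2))) := by
        fun_prop
      rw [hφ]
      exact (c3.continuousOn.mul (c2.sub c1)).add c4.continuousOn
    obtain ⟨⟨t₀, x₀⟩, ⟨⟨ht₀a, ht₀b⟩, hx₀a, hx₀b⟩, hmin⟩ := hcomp.exists_isMinOn hne hcont
    have hx'R : |x'| ≤ R := by rw [hR]; linarith
    have hφneg : φ (t₀, x₀) < 0 := by
      have h1 := hmin (show (t', x') ∈ Icc t₁ T ×ˢ Icc (-R) R from
        ⟨⟨ht', htT'⟩, abs_le.1 hx'R⟩)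
      simp only [mem_ofPred_eq] at h1
      refine lt_of_le_of_lt h1 ?_
      rw [hφ]
      exact hneg
    have hglob : ∀ t, t₁ ≤ t → t ≤ T → ∀ x, φ (t₀, x₀) ≤ φ (t, x) := by
      intro t h1 h2 x
      rcases le_or_gt R |x| with h | h
      · exact (hφneg.trans (hout t h1 h2 x h)).le
      · exact hmin (show (t, x) ∈ Icc t₁ T ×ˢ Icc (-R) R from ⟨⟨h1, h2⟩, abs_le.1 h.le⟩)
    have ht₀ : t₁ < t₀ := by
      rcases lt_or_eq_of_le ht₀a with h | h
      · exact h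
      · exfalso
        simp only at h
        rw [← h, hφ] at hφneg
        simp only [sub_self, mul_zero, Real.exp_zero, one_mul] at hφneg
        have := hinit x₀
        nlinarith [sq_nonneg x₀]
    simp only at ht₀b
    -- `z < 0` at the minimum
    have hexp : 0 < Real.exp (-K * (t₀ - t₁)) := Real.exp_pos _
    have hexp3 : 0 < Real.exp (3 * (t₀ - t₁)) := Real.exp_pos _
    have hz : V₂ t₀ x₀ - V₁ t₀ x₀ < 0 := by
      by_contra hz
      push Not at hz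
      rw [hφ] at hφneg
      simp only at hφneg
      have h1 := mul_nonneg hexp.le hz
      have h2 : 0 ≤ ε * (Real.exp (3 * (t₀ - t₁)) * (1 + x₀ ^ 2)) := by positivity
      linarith
    -- time derivative
    have hlin : ∀ k : ℝ, HasDerivAt (fun s : ℝ => Real.exp (k * (s - t₁)))
        (Real.exp (k * (t₀ - t₁)) * k) t₀ := by
      intro k
      have h1 : HasDerivAt (fun s : ℝ => k * (s - t₁)) k t₀ := by
        have := ((hasDerivAt_id t₀).sub_const t₁).const_mul k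
        simpa using this
      exact h1.exp
    have hdt : HasDerivAt (fun s => φ (s, x₀))
        (Real.exp (-K * (t₀ - t₁)) * -K * (V₂ t₀ x₀ - V₁ t₀ x₀) +
          Real.exp (-K * (t₀ - t₁)) * (T₂ t₀ x₀ - T₁ t₀ x₀) +
          ε * (Real.exp (3 * (t₀ - t₁)) * 3 * (1 + x₀ ^ 2))) t₀ := by
      rw [hφ]
      exact ((hlin (-K)).mul ((ht₂ t₀ ht₀ x₀).sub (ht₁ t₀ ht₀ x₀))).add
        (((hlin 3).mul_const (1 + x₀ ^ 2)).const_mul ε)
    have hA := Barrier_first ht₀ hdt (fun s h1 h2 => hglob s h1 (h2.trans ht₀b) x₀)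
    -- space derivatives
    have hdx : ∀ x, HasDerivAt (fun y => φ (t₀, y))
        (Real.exp (-K * (t₀ - t₁)) * (X₂ t₀ x - X₁ t₀ x) +
          ε * (Real.exp (3 * (t₀ - t₁)) * (2 * x))) x := by
      intro x
      have h1 : HasDerivAt (fun y : ℝ => 1 + y ^ 2) (2 * x) x := by
        have := (hasDerivAt_pow 2 x).const_add 1
        simpa using this
      rw [hφ]
      exact (((hx₂ t₀ ht₀ x).1.sub (hx₁ t₀ ht₀ x).1).const_mul (Real.exp (-K * (t₀ - t₁)))).add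
        ((h1.const_mul (Real.exp (3 * (t₀ - t₁)))).const_mul ε)
    have hdxx : HasDerivAt (fun x => Real.exp (-K * (t₀ - t₁)) * (X₂ t₀ x - X₁ t₀ x) +
          ε * (Real.exp (3 * (t₀ - t₁)) * (2 * x)))
        (Real.exp (-K * (t₀ - t₁)) * (Y₂ t₀ x₀ - Y₁ t₀ x₀) +
          ε * (Real.exp (3 * (t₀ - t₁)) * 2)) x₀ := by
      have h1 : HasDerivAt (fun y : ℝ => 2 * y) 2 x₀ := by
        have := (hasDerivAt_id x₀).const_mul 2
        simpa using this
      exact (((hx₂ t₀ ht₀ x₀).2.sub (hx₁ t₀ ht₀ x₀).2).const_mul _).add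
        ((h1.const_mul _).const_mul ε)
    have hB := Barrier_second hdx hdxx (fun x => hglob t₀ ht₀a ht₀b x)
    -- contradiction
    have h1 := hsub t₀ ht₀ x₀
    have h2 := hsup t₀ ht₀ x₀
    have h3 := Barrier_lip (hMb t₀ ht₀a ht₀b x₀) (hMa t₀ ht₀a ht₀b x₀)
    rw [← hK, abs_of_neg hz] at h3
    have h4 := (abs_le.1 h3).1
    have h5 : 0 ≤ -K * (V₂ t₀ x₀ - V₁ t₀ x₀) + (T₂ t₀ x₀ - T₁ t₀ x₀) -
        (Y₂ t₀ x₀ - Y₁ t₀ x₀) := by linarith
    have h6 := mul_nonneg hexp.le h5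
    have h7 : 0 < ε * Real.exp (3 * (t₀ - t₁)) := by positivity
    have h8 : 0 ≤ ε * Real.exp (3 * (t₀ - t₁)) * x₀ ^ 2 := by positivity
    nlinarith
  by_contra hcon
  push Not at hcon
  have hexp : 0 < Real.exp (-K * (T - t₁)) := Real.exp_pos _
  have hd : 0 < Real.exp (-K * (T - t₁)) * (V₁ T xx - V₂ T xx) := mul_pos hexp (by linarith)
  have hB : 0 < Real.exp (3 * (T - t₁)) * (1 + xx ^ 2) := by positivity
  obtain ⟨D, hD⟩ : ∃ D, D = Real.exp (-K * (T - t₁)) * (V₁ T xx - V₂ T xx) := ⟨_, rfl⟩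
  obtain ⟨B, hB'⟩ : ∃ B, B = Real.exp (3 * (T - t₁)) * (1 + xx ^ 2) := ⟨_, rfl⟩
  rw [← hD] at hd
  rw [← hB'] at hB
  have h1 := key (D / (2 * B)) (by positivity) T hT le_rfl xx
  rw [← hB'] at h1
  have h2 : D / (2 * B) * B = D / 2 := by field_simp
  have h3 : Real.exp (-K * (T - t₁)) * (V₂ T xx - V₁ T xx) = -D := by rw [hD]; ring
  rw [h2, h3] at h1
  linarith

theorem Barrier_vs_second (x : ℝ) :
    HasDerivAt (fun y => -3 * vs y * (1 - vs y)) (9 * vs x * (1 - vs x) * (1 - 2 * vs x)) x := by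
  have h := vs_hasDerivAt x
  have h1 := (h.const_mul (-3)).mul (h.const_sub 1)
  refine h1.congr_deriv ?_
  ring

theorem Barrier_vs_cont : Continuous vs :=
  continuous_iff_continuousAt.2 fun x => (vs_hasDerivAt x).continuousAt

/-- `vs (l t x)` where `l t x = x - 2 t - h₁ + σ ζ(t)`. -/
theorem Barrier_main {V : ℝ → ℝ → ℝ} {T X Y : ℝ → ℝ → ℝ} {t₁ h₁ : ℝ}
    (hV : ContinuousOn (fun p : ℝ × ℝ => V p.1 p.2) (Ici t₁ ×ˢ univ))
    (hb : ∀ T, ∃ M, ∀ t, t₁ ≤ t → t ≤ T → ∀ x, |V t x| ≤ M)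
    (hT : ∀ t > t₁, ∀ x, HasDerivAt (fun s => V s x) (T t x) t)
    (hX : ∀ t > t₁, ∀ x, HasDerivAt (V t) (X t x) x ∧ HasDerivAt (X t) (Y t x) x)
    (heq : ∀ t > t₁, ∀ x, T t x = Y t x + FF (V t x))
    (hinit : ∀ x, |V t₁ x - vs (x - 2 * t₁ - h₁)| ≤ 1 / 50) :
    ∀ t ≥ t₁, ∀ x,
      vs (x - 2 * t - h₁ + 14 / 50 * (1 - Real.exp (-(t - t₁)))) -
        1 / 50 * Real.exp (-(t - t₁)) ≤ V t x ∧
      V t x ≤ vs (x - 2 * t - h₁ - 14 / 50 * (1 - Real.exp (-(t - t₁)))) +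
        1 / 50 * Real.exp (-(t - t₁)) := by
  have hvc := Barrier_vs_cont
  have hE : ∀ t, HasDerivAt (fun s : ℝ => Real.exp (-(s - t₁))) (-Real.exp (-(t - t₁))) t := by
    intro t
    have h1 : HasDerivAt (fun s : ℝ => -(s - t₁)) (-1) t :=
      ((hasDerivAt_id t).sub_const t₁).neg
    have := h1.exp
    refine this.congr_deriv ?_
    ring
  have hq0 : ∀ t, 0 < Real.exp (-(t - t₁)) := fun t => Real.exp_pos _
  have hq1 : ∀ t ≥ t₁, Real.exp (-(t - t₁)) ≤ 1 := by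
    intro t ht
    rw [Real.exp_le_one_iff]
    linarith
  -- general barrier
  have harg : ∀ σ t x : ℝ, HasDerivAt
      (fun s : ℝ => x - 2 * s - h₁ + σ * (14 / 50 * (1 - Real.exp (-(s - t₁)))))
      (-2 + σ * (14 / 50 * Real.exp (-(t - t₁)))) t := by
    intro σ t x
    have h1 := ((hE t).const_sub 1).const_mul (14 / 50 : ℝ)
    have h2 := h1.const_mul σ
    have h3 : HasDerivAt (fun s : ℝ => x - 2 * s - h₁) (-2) t := by
      have := (((hasDerivAt_id t).const_mul 2).const_sub x).sub_const h₁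
      simpa using this
    refine (h3.add h2).congr_deriv ?_
    ring
  have hbar : ∀ σ τ : ℝ, ∀ t x : ℝ, HasDerivAt
      (fun s : ℝ => vs (x - 2 * s - h₁ + σ * (14 / 50 * (1 - Real.exp (-(s - t₁))))) +
        τ * (1 / 50 * Real.exp (-(s - t₁))))
      (-3 * vs (x - 2 * t - h₁ + σ * (14 / 50 * (1 - Real.exp (-(t - t₁))))) *
        (1 - vs (x - 2 * t - h₁ + σ * (14 / 50 * (1 - Real.exp (-(t - t₁)))))) *
        (-2 + σ * (14 / 50 * Real.exp (-(t - t₁)))) - τ * (1 / 50 * Real.exp (-(t - t₁)))) t := by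
    intro σ τ t x
    have h1 := (vs_hasDerivAt (x - 2 * t - h₁ + σ * (14 / 50 * (1 - Real.exp (-(t - t₁)))))).comp t
      (harg σ t x)
    have h2 := ((hE t).const_mul (1 / 50 : ℝ)).const_mul τ
    refine (h1.add h2).congr_deriv ?_
    ring
  have hbx : ∀ σ τ : ℝ, ∀ t x : ℝ, HasDerivAt
      (fun y : ℝ => vs (y - 2 * t - h₁ + σ * (14 / 50 * (1 - Real.exp (-(t - t₁))))) +
        τ * (1 / 50 * Real.exp (-(t - t₁))))
      (-3 * vs (x - 2 * t - h₁ + σ * (14 / 50 * (1 - Real.exp (-(t - t₁))))) *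
        (1 - vs (x - 2 * t - h₁ + σ * (14 / 50 * (1 - Real.exp (-(t - t₁))))))) x := by
    intro σ τ t x
    have h0 : HasDerivAt
        (fun y : ℝ => y - 2 * t - h₁ + σ * (14 / 50 * (1 - Real.exp (-(t - t₁))))) 1 x :=
      (((hasDerivAt_id x).sub_const _).sub_const _).add_const _
    have h1 := (vs_hasDerivAt (x - 2 * t - h₁ + σ * (14 / 50 * (1 - Real.exp (-(t - t₁)))))).comp x
      h0
    refine (h1.add_const _).congr_deriv ?_
    ring
  have hbxx : ∀ σ : ℝ, ∀ t x : ℝ, HasDerivAt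
      (fun y : ℝ => -3 * vs (y - 2 * t - h₁ + σ * (14 / 50 * (1 - Real.exp (-(t - t₁))))) *
        (1 - vs (y - 2 * t - h₁ + σ * (14 / 50 * (1 - Real.exp (-(t - t₁)))))))
      (9 * vs (x - 2 * t - h₁ + σ * (14 / 50 * (1 - Real.exp (-(t - t₁))))) *
        (1 - vs (x - 2 * t - h₁ + σ * (14 / 50 * (1 - Real.exp (-(t - t₁)))))) *
        (1 - 2 * vs (x - 2 * t - h₁ + σ * (14 / 50 * (1 - Real.exp (-(t - t₁))))))) x := by
    intro σ t x
    have h0 : HasDerivAt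
        (fun y : ℝ => y - 2 * t - h₁ + σ * (14 / 50 * (1 - Real.exp (-(t - t₁))))) 1 x :=
      (((hasDerivAt_id x).sub_const _).sub_const _).add_const _
    have h1 := (Barrier_vs_second
      (x - 2 * t - h₁ + σ * (14 / 50 * (1 - Real.exp (-(t - t₁)))))).comp x h0
    refine h1.congr_deriv ?_
    ring
  have hcont : ∀ σ τ : ℝ, ContinuousOn (fun p : ℝ × ℝ =>
      vs (p.2 - 2 * p.1 - h₁ + σ * (14 / 50 * (1 - Real.exp (-(p.1 - t₁))))) +
        τ * (1 / 50 * Real.exp (-(p.1 - t₁)))) (Ici t₁ ×ˢ univ) := by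
    intro σ τ
    apply Continuous.continuousOn
    apply Continuous.add
    · exact hvc.comp (by fun_prop)
    · fun_prop
  have hbd : ∀ σ τ : ℝ, |τ| ≤ 1 → ∀ T, ∃ M, ∀ t, t₁ ≤ t → t ≤ T → ∀ x,
      |vs (x - 2 * t - h₁ + σ * (14 / 50 * (1 - Real.exp (-(t - t₁))))) +
        τ * (1 / 50 * Real.exp (-(t - t₁)))| ≤ M := by
    intro σ τ hτ T
    refine ⟨2, fun t h1 _ x => ?_⟩
    have a1 := vs_pos (x - 2 * t - h₁ + σ * (14 / 50 * (1 - Real.exp (-(t - t₁)))))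
    have a2 := vs_lt_one (x - 2 * t - h₁ + σ * (14 / 50 * (1 - Real.exp (-(t - t₁)))))
    have a3 := hq0 t
    have a4 := hq1 t h1
    have a5 : |τ * (1 / 50 * Real.exp (-(t - t₁)))| ≤ 1 := by
      rw [abs_mul]
      have : |1 / 50 * Real.exp (-(t - t₁))| ≤ 1 := by
        rw [abs_le]
        constructor <;> linarith
      calc |τ| * |1 / 50 * Real.exp (-(t - t₁))| ≤ 1 * 1 :=
            mul_le_mul hτ this (abs_nonneg _) (by norm_num)
        _ = 1 := by norm_num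
    have a6 := abs_le.1 a5
    rw [abs_le]
    constructor <;> linarith
  intro t ht x
  constructor
  · -- lower barrier
    have := cmp (hcont 1 (-1)) hV (hbd 1 (-1) (by norm_num)) hb
      (fun t _ x => hbar 1 (-1) t x) hT
      (fun t _ x => ⟨hbx 1 (-1) t x, hbxx 1 t x⟩) hX ?_ (fun t ht x => (heq t ht x).ge) ?_ t ht x
    · simp only [one_mul, neg_mul] at this
      linarith
    · intro t ht x
      have a1 := vs_pos (x - 2 * t - h₁ + 1 * (14 / 50 * (1 - Real.exp (-(t - t₁)))))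
      have a2 := vs_lt_one (x - 2 * t - h₁ + 1 * (14 / 50 * (1 - Real.exp (-(t - t₁)))))
      have a3 := hq0 t
      have a4 := hq1 t (le_of_lt ht)
      obtain ⟨v, hv⟩ : ∃ v, v = vs (x - 2 * t - h₁ + 1 * (14 / 50 * (1 - Real.exp (-(t - t₁))))) :=
        ⟨_, rfl⟩
      obtain ⟨e, he⟩ : ∃ e, e = Real.exp (-(t - t₁)) := ⟨_, rfl⟩
      rw [← hv] at a1 a2 ⊢
      rw [← he] at a3 a4 ⊢
      have key : 9 * v * (1 - v) * (1 - 2 * v) + FF (v + -1 * (1 / 50 * e)) -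
          (-3 * v * (1 - v) * (-2 + 1 * (14 / 50 * e)) - -1 * (1 / 50 * e)) =
          1 / 50 * e * (12 * v ^ 2 + 2 - 54 * v * (1 / 50 * e) + 18 * (1 / 50 * e) ^ 2 +
            21 * (1 / 50 * e)) := by
        unfold FF
        ring
      have h1 : 0 ≤ 12 * v ^ 2 + 2 - 54 * v * (1 / 50 * e) + 18 * (1 / 50 * e) ^ 2 +
            21 * (1 / 50 * e) := by
        have : v * e ≤ 1 := by nlinarith
        nlinarith [sq_nonneg v, sq_nonneg e]
      have h2 : 0 ≤ 1 / 50 * e * (12 * v ^ 2 + 2 - 54 * v * (1 / 50 * e) + 18 * (1 / 50 * e) ^ 2 +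
            21 * (1 / 50 * e)) := mul_nonneg (by positivity) h1
      linarith
    · intro x
      have h1 := abs_le.1 (hinit x)
      simp only [sub_self, neg_zero, Real.exp_zero, mul_zero, add_zero, mul_one, neg_mul, one_mul]
      linarith [h1.1]
  · -- upper barrier
    have := cmp hV (hcont (-1) 1) hb (hbd (-1) 1 (by norm_num)) hT
      (fun t _ x => hbar (-1) 1 t x) hX
      (fun t _ x => ⟨hbx (-1) 1 t x, hbxx (-1) t x⟩) (fun t ht x => (heq t ht x).le) ?_ ?_ t ht x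
    · simp only [one_mul, neg_mul, ← sub_eq_add_neg] at this
      linarith
    · intro t ht x
      have a1 := vs_pos (x - 2 * t - h₁ + -1 * (14 / 50 * (1 - Real.exp (-(t - t₁)))))
      have a2 := vs_lt_one (x - 2 * t - h₁ + -1 * (14 / 50 * (1 - Real.exp (-(t - t₁)))))
      have a3 := hq0 t
      have a4 := hq1 t (le_of_lt ht)
      obtain ⟨v, hv⟩ : ∃ v, v = vs (x - 2 * t - h₁ + -1 * (14 / 50 * (1 - Real.exp (-(t - t₁))))) :=
        ⟨_, rfl⟩
      obtain ⟨e, he⟩ : ∃ e, e = Real.exp (-(t - t₁)) := ⟨_, rfl⟩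
      rw [← hv] at a1 a2 ⊢
      rw [← he] at a3 a4 ⊢
      have key : (-3 * v * (1 - v) * (-2 + -1 * (14 / 50 * e)) - 1 * (1 / 50 * e)) -
          (9 * v * (1 - v) * (1 - 2 * v) + FF (v + 1 * (1 / 50 * e))) =
          1 / 50 * e * (12 * v ^ 2 + 2 + 54 * v * (1 / 50 * e) + 18 * (1 / 50 * e) ^ 2 -
            21 * (1 / 50 * e)) := by
        unfold FF
        ring
      have h1 : 0 ≤ 12 * v ^ 2 + 2 + 54 * v * (1 / 50 * e) + 18 * (1 / 50 * e) ^ 2 -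
            21 * (1 / 50 * e) := by
        have : 0 ≤ v * e := by positivity
        nlinarith [sq_nonneg v, sq_nonneg e]
      have h2 : 0 ≤ 1 / 50 * e * (12 * v ^ 2 + 2 + 54 * v * (1 / 50 * e) + 18 * (1 / 50 * e) ^ 2 -
            21 * (1 / 50 * e)) := mul_nonneg (by positivity) h1
      linarith
    · intro x
      have h1 := abs_le.1 (hinit x)
      simp only [sub_self, neg_zero, Real.exp_zero, mul_zero, add_zero, mul_one, one_mul]
      linarith [h1.2]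

theorem Barrier_vs_anti : StrictAnti vs := by
  apply strictAnti_of_deriv_neg
  intro x
  rw [(vs_hasDerivAt x).deriv]
  have h1 := vs_pos x
  have h2 := vs_lt_one x
  have : 0 < vs x * (1 - vs x) := mul_pos h1 (by linarith)
  linarith

theorem Barrier_exp_three : 7 ≤ Real.exp 3 := by
  have h := Real.add_one_le_exp (1 : ℝ)
  have : Real.exp 3 = Real.exp 1 ^ 3 := by
    rw [← Real.exp_nat_mul]
    norm_num
  rw [this]
  nlinarith [sq_nonneg (Real.exp 1 - 2)]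

theorem Barrier_vs_zero : vs 0 = 1 / 2 := by
  unfold vs
  norm_num

theorem Barrier_vs_one : vs 1 ≤ 1 / 8 := by
  unfold vs
  have := Barrier_exp_three
  rw [mul_one]
  apply one_div_le_one_div_of_le
  · norm_num
  · linarith

theorem Barrier_vs_neg_one : 7 / 8 ≤ vs (-1) := by
  unfold vs
  have h := Barrier_exp_three
  rw [show (3 * -1 : ℝ) = -3 by norm_num]
  have h1 : Real.exp (-3) ≤ 1 / 7 := by
    rw [Real.exp_neg, ← one_div]
    exact one_div_le_one_div_of_le (by norm_num) h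
  have h2 : 0 < 1 + Real.exp (-3) := by positivity
  rw [div_le_div_iff₀ (by norm_num) h2]
  linarith

/-- The position correction is bounded. -/
theorem no_drift {u₀ : ℝ → RV 2} {u : ℝ → ℝ → RV 2} (hu : exSys.IsSol u₀ u) {h : ℝ → ℝ}
    (hclose : ∀ᶠ t in atTop, ∀ x, ‖u t (x + 2 * t + h t) - exFront x‖ ≤ 1 / 50) :
    ∃ C, ∀ᶠ t in atTop, |h t| ≤ C := by
  obtain ⟨t₀, ht₀⟩ := eventually_atTop.1 hclose
  obtain ⟨t₁, ht₁⟩ : ∃ t₁, t₁ = max t₀ 1 := ⟨_, rfl⟩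
  have ht₁0 : 0 < t₁ := by rw [ht₁]; exact lt_of_lt_of_le one_pos (le_max_right _ _)
  have hcl : ∀ t ≥ t₁, ∀ y, |u t y 0 - vs (y - 2 * t - h t)| ≤ 1 / 50 := by
    intro t ht y
    have h1 := ht₀ t (le_trans (by rw [ht₁]; exact le_max_left _ _) ht) (y - 2 * t - h t)
    have e : y - 2 * t - h t + 2 * t + h t = y := by ring
    rw [e] at h1
    have h2 := (norm_le_pi_norm (u t y - exFront (y - 2 * t - h t)) 0).trans h1
    rw [Real.norm_eq_abs] at h2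
    exact h2
  have hsm : ∀ t > 0, ContDiff ℝ 2 (u t) := by
    intro t ht
    have := hu.smooth t ht
    simpa using this
  have main := Barrier_main (V := fun t x => u t x 0)
    (T := fun t x => iteratedDeriv 2 (u t) x 0 + FF (u t x 0))
    (X := fun t x => iteratedDeriv 1 (u t) x 0) (Y := fun t x => iteratedDeriv 2 (u t) x 0)
    (t₁ := t₁) (h₁ := h t₁) ?_ ?_ ?_ ?_ (fun _ _ _ => rfl) (fun x => hcl t₁ le_rfl x)
  · refine ⟨|h t₁| + 2, ?_⟩
    filter_upwards [eventually_ge_atTop t₁] with t ht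
    obtain ⟨m1, m2⟩ := main t ht (2 * t + h t)
    have h1 := abs_le.1 (hcl t ht (2 * t + h t))
    have e0 : 2 * t + h t - 2 * t - h t = 0 := by ring
    rw [e0, Barrier_vs_zero] at h1
    have hq0 : 0 < Real.exp (-(t - t₁)) := Real.exp_pos _
    have hq1 : Real.exp (-(t - t₁)) ≤ 1 := by
      rw [Real.exp_le_one_iff]
      linarith
    have e1 : 2 * t + h t - 2 * t - h t₁ = h t - h t₁ := by ring
    rw [e1] at m1 m2
    have b1 : -1 < h t - h t₁ + 14 / 50 * (1 - Real.exp (-(t - t₁))) := by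
      by_contra hc
      push Not at hc
      have := Barrier_vs_anti.antitone hc
      have := Barrier_vs_neg_one
      linarith [h1.2]
    have b2 : h t - h t₁ - 14 / 50 * (1 - Real.exp (-(t - t₁))) < 1 := by
      by_contra hc
      push Not at hc
      have := Barrier_vs_anti.antitone hc
      have := Barrier_vs_one
      linarith [h1.1]
    have b3 := abs_nonneg (h t₁)
    have b4 := le_abs_self (h t₁)
    have b5 := neg_abs_le (h t₁)
    rw [abs_le]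
    constructor <;> linarith
  · have h1 := hu.cont.mono (prod_mono (fun t ht => lt_of_lt_of_le ht₁0 ht : Ici t₁ ⊆ Ioi 0)
      (subset_univ (univ : Set ℝ)))
    exact (continuousOn_pi.1 h1) 0
  · intro T
    obtain ⟨M, hM⟩ := hu.bdd (max T 1) (lt_of_lt_of_le one_pos (le_max_right _ _))
    refine ⟨M, fun t h1 h2 x => ?_⟩
    have h3 := (norm_le_pi_norm (u t x) 0).trans (hM t (lt_of_lt_of_le ht₁0 h1)
      (h2.trans (le_max_left _ _)) x)
    rwa [Real.norm_eq_abs] at h3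
  · intro t ht x
    have h1 := hu.pde t (ht₁0.trans ht) x
    have h2 := (hasDerivAt_pi.1 h1) 0
    rw [exSys_opR] at h2
    exact h2
  · intro t ht x
    have hc := hsm t (ht₁0.trans ht)
    have d0 : HasDerivAt (u t) (iteratedDeriv 1 (u t) x) x := by
      have := (hc.differentiable (by norm_num)) x
      rw [iteratedDeriv_one]
      exact this.hasDerivAt
    have d1 : HasDerivAt (iteratedDeriv 1 (u t)) (iteratedDeriv 2 (u t) x) x := by
      have h1 : Differentiable ℝ (iteratedDeriv 1 (u t)) :=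
        hc.differentiable_iteratedDeriv 1 (by norm_num)
      have h2 := (h1 x).hasDerivAt
      rwa [← iteratedDeriv_succ] at h2
    exact ⟨(hasDerivAt_pi.1 d0) 0, (hasDerivAt_pi.1 d1) 0⟩

end Pool.Agent.FrontSel98
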