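import Pool.Agent.FrontSel98.Block

/-!
# Solvability for the constant coefficient `q = -3`

`(∂ - a)(∂ + b) u = g` with `b = σ + 1`, `a = σ - 1`, `σ² = 4 + λ`, `Re σ > 1`:
first `v' - a v = g` (`block_left`), then `u' + b u = v` (`block_right`).
-/

open MeasureTheory Filter Topology Set

namespace Pool.Agent.FrontSel98

theorem Base_sqrt (lam : ℂ) (hlam : 0 ≤ lam.re) : ∃ σ : ℂ, σ ^ 2 = 4 + lam ∧ 1 < σ.re := by
  obtain ⟨z, hz⟩ := IsAlgClosed.exists_pow_nat_eq (4 + lam) (n := 2) (by norm_num)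
  have h1 : z.re ^ 2 - z.im ^ 2 = 4 + lam.re := by
    have := congrArg Complex.re hz
    simp [sq] at this
    nlinarith [this]
  have h2 : 1 < z.re ^ 2 := by nlinarith [sq_nonneg z.im]
  rcases le_total 0 z.re with h | h
  · exact ⟨z, hz, by nlinarith⟩
  · exact ⟨-z, by rw [neg_sq, hz], by rw [Complex.neg_re]; nlinarith⟩

theorem base_solve {ω : ℝ → ℝ} (hω : WW ω) (lam : ℂ) (hlam : 0 ≤ lam.re) (g : ℝ → ℂ)
    (hg : MemLp (fun x => (ω x : ℂ) * g x) 2 volume) :
    ∃ u0 u1 u2, SSob ω u0 u1 u2 ∧ ∀ᵐ x, ell (fun _ => -3) lam u0 u1 u2 x = g x := by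
  obtain ⟨σ, hσ, hσ1⟩ := Base_sqrt lam hlam
  obtain ⟨v, hv, hvm⟩ := block_left hω (σ - 1) (by simp; linarith) g hg
  obtain ⟨u, hu, hum⟩ := block_right hω (σ + 1) (by simp; linarith) v hvm
  have m1 : MemLp (fun x => (ω x : ℂ) * (v x - (σ + 1) * u x)) 2 volume := by
    have := hvm.sub (hum.const_mul (σ + 1))
    refine (memLp_congr_ae (Eventually.of_forall fun x => ?_)).1 this
    simp only [Pi.sub_apply]; ring
  have m2 : MemLp (fun x => (ω x : ℂ) * (g x + (σ - 1) * v x -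
      (σ + 1) * (v x - (σ + 1) * u x))) 2 volume := by
    have := (hg.add (hvm.const_mul (σ - 1))).sub (m1.const_mul (σ + 1))
    refine (memLp_congr_ae (Eventually.of_forall fun x => ?_)).1 this
    simp only [Pi.sub_apply, Pi.add_apply]; ring
  refine ⟨u, fun x => v x - (σ + 1) * u x, fun x => g x + (σ - 1) * v x -
    (σ + 1) * (v x - (σ + 1) * u x), ⟨hu, hv.sub (hu.const_mul (σ + 1)), hum, m1, m2⟩,
    Eventually.of_forall fun x => ?_⟩
  simp only [ell]
  push_cast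
  linear_combination (u x) * hσ

end Pool.Agent.FrontSel98
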