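import Pool.Agent.FrontSel98.PrimCalc

/-!
# Solving first order equations in weighted `L²`

`block_right`: `u' + b u = h`, `Re b > 1`: `u(x) = ∫_{-∞}^x e^{-b(x-y)} h(y) dy`.
`block_left`: `u' - a u = h`, `Re a > 0`: `u(x) = -∫_x^∞ e^{a(x-y)} h(y) dy`.

Proof that `ω u ∈ L²`: with `β = Re b - 1 > 0` one has
`ω(x)|u(x)| ≤ K ∫_{-∞}^x e^{-β(x-y)} ω(y)|h(y)| dy`, and by Cauchy-Schwarz
`(∫_{-∞}^x e^{-β(x-y)} k(y) dy)² ≤ (1/β) ∫_{-∞}^x e^{-β(x-y)} k(y)² dy`; integrate in `x` (Tonelli).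
That `Prim u (h - b u)`: `u(x) = e^{-bx} H(x)`, `H(x) = ∫_{-∞}^x e^{by} h(y) dy`, and `Prim.mul`.
-/

open MeasureTheory Filter Topology Set
open scoped ENNReal

namespace Pool.Agent.FrontSel98

theorem Block_young (κ k : ℝ → ℝ≥0∞) (hκ : Measurable κ) (hk : Measurable k) :
    ∫⁻ x, (∫⁻ y, κ (x - y) * k y) ^ (2 : ℝ) ≤ (∫⁻ s, κ s) ^ (2 : ℝ) * ∫⁻ y, k y ^ (2 : ℝ) := by
  have h1 : ∀ x, (∫⁻ y, κ (x - y) * k y) ^ (2 : ℝ) ≤
      (∫⁻ s, κ s) * ∫⁻ y, κ (x - y) * k y ^ (2 : ℝ) := by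
    intro x
    have hm1 : Measurable fun y => κ (x - y) ^ (1 / 2 : ℝ) :=
      (hκ.comp (measurable_const.sub measurable_id)).pow_const _
    have h := ENNReal.lintegral_mul_le_Lp_mul_Lq (volume : Measure ℝ)
      (Real.HolderConjugate.two_two) (f := fun y => κ (x - y) ^ (1 / 2 : ℝ))
      (g := fun y => κ (x - y) ^ (1 / 2 : ℝ) * k y) hm1.aemeasurable (hm1.mul hk).aemeasurable
    have e1 : ∀ y, ((fun y => κ (x - y) ^ (1 / 2 : ℝ)) * fun y => κ (x - y) ^ (1 / 2 : ℝ) * k y) y =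
        κ (x - y) * k y := by
      intro y
      simp only [Pi.mul_apply]
      rw [← mul_assoc, ← ENNReal.rpow_add_of_nonneg _ _ (by norm_num) (by norm_num)]
      norm_num
    have e2 : ∀ y, (κ (x - y) ^ (1 / 2 : ℝ)) ^ (2 : ℝ) = κ (x - y) := by
      intro y
      rw [← ENNReal.rpow_mul]
      norm_num
    have e3 : ∀ y, (κ (x - y) ^ (1 / 2 : ℝ) * k y) ^ (2 : ℝ) = κ (x - y) * k y ^ (2 : ℝ) := by
      intro y
      rw [ENNReal.mul_rpow_of_nonneg _ _ (by norm_num), e2]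
    simp only [e1, e2, e3] at h
    have e4 : ∫⁻ y, κ (x - y) = ∫⁻ s, κ s := lintegral_sub_left_eq_self κ x
    rw [e4] at h
    calc (∫⁻ y, κ (x - y) * k y) ^ (2 : ℝ) ≤
        ((∫⁻ s, κ s) ^ (1 / 2 : ℝ) * (∫⁻ y, κ (x - y) * k y ^ (2 : ℝ)) ^ (1 / 2 : ℝ)) ^ (2 : ℝ) :=
          ENNReal.rpow_le_rpow h (by norm_num)
      _ = _ := by
          rw [ENNReal.mul_rpow_of_nonneg _ _ (by norm_num), ← ENNReal.rpow_mul, ← ENNReal.rpow_mul]
          norm_num
  have hm : Measurable (fun p : ℝ × ℝ => κ (p.1 - p.2) * k p.2 ^ (2 : ℝ)) :=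
    (hκ.comp (measurable_fst.sub measurable_snd)).mul ((hk.comp measurable_snd).pow_const _)
  calc ∫⁻ x, (∫⁻ y, κ (x - y) * k y) ^ (2 : ℝ) ≤
      ∫⁻ x, (∫⁻ s, κ s) * ∫⁻ y, κ (x - y) * k y ^ (2 : ℝ) := lintegral_mono h1
    _ = (∫⁻ s, κ s) * ∫⁻ x, ∫⁻ y, κ (x - y) * k y ^ (2 : ℝ) :=
        lintegral_const_mul _ hm.lintegral_prod_right'
    _ = (∫⁻ s, κ s) * ∫⁻ y, ∫⁻ x, κ (x - y) * k y ^ (2 : ℝ) := by
        rw [lintegral_lintegral_swap hm.aemeasurable]
    _ = (∫⁻ s, κ s) * ∫⁻ y, (∫⁻ s, κ s) * k y ^ (2 : ℝ) := by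
        congr 1
        refine lintegral_congr fun y => ?_
        rw [lintegral_mul_const _ (show Measurable (fun x => κ (x - y)) from
          hκ.comp (measurable_id.sub measurable_const))]
        congr 1
        exact lintegral_sub_right_eq_self κ y
    _ = (∫⁻ s, κ s) ^ (2 : ℝ) * ∫⁻ y, k y ^ (2 : ℝ) := by
        rw [lintegral_const_mul _ (hk.pow_const _), ← mul_assoc]
        congr 1
        rw [← sq]
        norm_cast

theorem Block_mem {ω : ℝ → ℝ} (hω : WW ω) (h : ℝ → ℂ)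
    (hh : MemLp (fun x => (ω x : ℂ) * h x) 2 volume) (κ : ℝ → ℝ≥0∞) (hκm : Measurable κ)
    (hκ : ∫⁻ s, κ s ≠ ⊤) (u : ℝ → ℂ) (hu : Continuous u)
    (hb : ∀ x, ‖(ω x : ℂ) * u x‖ₑ ≤ ∫⁻ y, κ (x - y) * ‖(ω y : ℂ) * h y‖ₑ) :
    MemLp (fun x => (ω x : ℂ) * u x) 2 volume := by
  have hc : Continuous fun x => (ω x : ℂ) * u x :=
    (Complex.continuous_ofReal.comp hω.cont).mul hu
  refine ⟨hc.aestronglyMeasurable, ?_⟩
  rw [eLpNorm_lt_top_iff_lintegral_rpow_enorm_lt_top (by norm_num) (by norm_num)]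
  have hh2 := hh.2
  rw [eLpNorm_lt_top_iff_lintegral_rpow_enorm_lt_top (by norm_num) (by norm_num)] at hh2
  have h2 : (2 : ℝ≥0∞).toReal = (2 : ℝ) := by norm_num
  rw [h2] at hh2 ⊢
  set f := hh.1.mk _ with hf
  have hfm : Measurable fun y => ‖f y‖ₑ := hh.1.stronglyMeasurable_mk.measurable.enorm
  have hfe : (fun x => (ω x : ℂ) * h x) =ᵐ[volume] f := hh.1.ae_eq_mk
  have e1 : ∫⁻ y, ‖(ω y : ℂ) * h y‖ₑ ^ (2 : ℝ) = ∫⁻ y, ‖f y‖ₑ ^ (2 : ℝ) := by
    refine lintegral_congr_ae ?_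
    filter_upwards [hfe] with y hy
    rw [← hy]
  calc ∫⁻ x, ‖(ω x : ℂ) * u x‖ₑ ^ (2 : ℝ) ≤
      ∫⁻ x, (∫⁻ y, κ (x - y) * ‖(ω y : ℂ) * h y‖ₑ) ^ (2 : ℝ) :=
        lintegral_mono fun x => ENNReal.rpow_le_rpow (hb x) (by norm_num)
    _ = ∫⁻ x, (∫⁻ y, κ (x - y) * ‖f y‖ₑ) ^ (2 : ℝ) := by
        refine lintegral_congr fun x => ?_
        congr 1
        refine lintegral_congr_ae ?_
        filter_upwards [hfe] with y hy
        rw [← hy]
    _ ≤ (∫⁻ s, κ s) ^ (2 : ℝ) * ∫⁻ y, ‖f y‖ₑ ^ (2 : ℝ) := Block_young κ _ hκm hfm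
    _ < ⊤ := by
        rw [← e1]
        exact ENNReal.mul_lt_top (ENNReal.rpow_lt_top_of_nonneg (by norm_num) hκ) hh2


theorem Block_h {ω : ℝ → ℝ} (hω : WW ω) (h : ℝ → ℂ)
    (hh : MemLp (fun x => (ω x : ℂ) * h x) 2 volume) : AEStronglyMeasurable h volume := by
  have h1 : Continuous fun x => ((ω x : ℂ))⁻¹ :=
    (Complex.continuous_ofReal.comp hω.cont).inv₀ fun x => by
      have := (hω.pos x).ne'
      simpa using this
  have h2 := h1.aestronglyMeasurable.mul hh.1 (μ := volume)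
  refine h2.congr (Eventually.of_forall fun x => ?_)
  have := hω.pos x
  have h3 : (ω x : ℂ) ≠ 0 := by exact_mod_cast this.ne'
  simp only [Pi.mul_apply]
  field_simp

theorem Block_sq {ω : ℝ → ℝ} (h : ℝ → ℂ)
    (hh : MemLp (fun x => (ω x : ℂ) * h x) 2 volume) :
    Integrable (fun x => ‖(ω x : ℂ) * h x‖ ^ 2) volume :=
  (memLp_two_iff_integrable_sq_norm hh.1).1 hh

theorem Block_intR {ω : ℝ → ℝ} (hω : WW ω) (b : ℂ) (hb : 1 < b.re) (h : ℝ → ℂ)
    (hh : MemLp (fun x => (ω x : ℂ) * h x) 2 volume) (x : ℝ) :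
    IntegrableOn (fun y : ℝ => Complex.exp (b * y) * h y) (Iic x) := by
  obtain ⟨K, hK, hg⟩ := hω.grow
  have hmeas : AEStronglyMeasurable (fun y : ℝ => Complex.exp (b * y) * h y)
      (volume.restrict (Iic x)) := by
    refine AEStronglyMeasurable.mul ?_ (Block_h hω h hh).restrict
    exact (by fun_prop : Continuous fun y : ℝ => Complex.exp (b * y)).aestronglyMeasurable
  have i1 : IntegrableOn (fun y : ℝ => Real.exp ((2 * (b.re - 1)) * y)) (Iic x) :=
    integrableOn_exp_mul_Iic (by linarith) x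
  have i2 : IntegrableOn (fun y => ‖(ω y : ℂ) * h y‖ ^ 2) (Iic x) := (Block_sq h hh).integrableOn
  have i3 := (i1.add i2).const_mul (K * Real.exp x / ω x)
  refine Integrable.mono' i3 hmeas ?_
  filter_upwards [ae_restrict_mem measurableSet_Iic] with y hy
  have hy' : y ≤ x := hy
  have hwx := hω.pos x
  have hwy := hω.pos y
  have e1 : ‖Complex.exp (b * y) * h y‖ = Real.exp (b.re * y) * ‖h y‖ := by
    rw [norm_mul, Complex.norm_exp]
    simp
  have e2 : ‖(ω y : ℂ) * h y‖ = ω y * ‖h y‖ := by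
    rw [norm_mul, Complex.norm_real, Real.norm_of_nonneg hwy.le]
  rw [e1]
  simp only [Pi.add_apply, e2]
  have h1 := (hg x y hy').1
  have h2 : 1 ≤ K * Real.exp x / ω x * (Real.exp (-y) * ω y) := by
    rw [div_mul_eq_mul_div, le_div_iff₀ hwx, one_mul]
    calc ω x ≤ K * Real.exp (x - y) * ω y := h1
      _ = _ := by
        rw [sub_eq_add_neg, Real.exp_add]; ring
  have h3 : Real.exp (b.re * y) * ‖h y‖ ≤ K * Real.exp x / ω x *
      (Real.exp ((b.re - 1) * y) * (ω y * ‖h y‖)) := by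
    have h4 : 0 ≤ Real.exp (b.re * y) * ‖h y‖ := by positivity
    calc Real.exp (b.re * y) * ‖h y‖ = 1 * (Real.exp (b.re * y) * ‖h y‖) := (one_mul _).symm
      _ ≤ (K * Real.exp x / ω x * (Real.exp (-y) * ω y)) * (Real.exp (b.re * y) * ‖h y‖) :=
        mul_le_mul_of_nonneg_right h2 h4
      _ = _ := by
        have : Real.exp ((b.re - 1) * y) = Real.exp (-y) * Real.exp (b.re * y) := by
          rw [← Real.exp_add]; ring_nf
        rw [this]; ring
  refine h3.trans (mul_le_mul_of_nonneg_left ?_ (by positivity))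
  have h5 : Real.exp ((2 * (b.re - 1)) * y) = Real.exp ((b.re - 1) * y) ^ 2 := by
    rw [← Real.exp_nat_mul]; push_cast; ring_nf
  rw [h5]
  nlinarith [sq_nonneg (Real.exp ((b.re - 1) * y) - ω y * ‖h y‖),
    sq_nonneg (Real.exp ((b.re - 1) * y) + ω y * ‖h y‖), sq_nonneg (Real.exp ((b.re - 1) * y)),
    sq_nonneg (ω y * ‖h y‖)]

theorem block_right {ω : ℝ → ℝ} (hω : WW ω) (b : ℂ) (hb : 1 < b.re) (h : ℝ → ℂ)
    (hh : MemLp (fun x => (ω x : ℂ) * h x) 2 volume) :
    ∃ u : ℝ → ℂ, Prim u (fun x => h x - b * u x) ∧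
      MemLp (fun x => (ω x : ℂ) * u x) 2 volume := by
  obtain ⟨K, hK, hg⟩ := hω.grow
  have hint := Block_intR hω b hb h hh
  set F : ℝ → ℂ := fun y => Complex.exp (b * y) * h y with hF
  set H : ℝ → ℂ := fun x => ∫ y in Iic x, F y with hH
  have p1 : Prim H F := by
    refine ⟨fun s t => ?_, fun s t => ?_⟩
    · have := hint (max s t)
      rw [intervalIntegrable_iff]
      refine this.mono_set fun y hy => ?_
      rw [uIoc, mem_Ioc] at hy
      exact hy.2
    · exact intervalIntegral.integral_Iic_sub_Iic (hint s) (hint t)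
  have p2 : Prim (fun x : ℝ => Complex.exp (-(b * x))) (fun x : ℝ => -b * Complex.exp (-(b * x))) := by
    refine Prim.of_hasDerivAt (fun x => ?_) (by fun_prop)
    have h1 : HasDerivAt (fun x : ℝ => -(b * (x : ℂ))) (-b) x := by
      have := (Complex.ofRealCLM.hasDerivAt (x := x)).const_mul (-b)
      simpa using this
    have := h1.cexp
    rw [mul_comm] at this
    exact this
  have p3 := Prim.mul p2 p1
  have hu : Prim (fun x : ℝ => Complex.exp (-(b * x)) * H x)
      (fun x : ℝ => h x - b * (Complex.exp (-(b * x)) * H x)) := by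
    have e : (fun x : ℝ => h x - b * (Complex.exp (-(b * x)) * H x)) =
        (fun x : ℝ => -b * Complex.exp (-(b * x)) * H x + Complex.exp (-(b * x)) * F x) := by
      funext x
      have h1 : Complex.exp (-(b * x)) * F x = h x := by
        rw [hF]
        simp only
        rw [← mul_assoc, ← Complex.exp_add]
        simp
      rw [h1]; ring
    rw [e]
    exact p3
  refine ⟨_, hu, ?_⟩
  set κ : ℝ → ℝ≥0∞ := (Ici (0 : ℝ)).indicator
    (fun s => ENNReal.ofReal (K * Real.exp (-(b.re - 1) * s))) with hκ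
  have hκm : Measurable κ := by
    refine Measurable.indicator ?_ measurableSet_Ici
    fun_prop
  have hκi : ∫⁻ s, κ s ≠ ⊤ := by
    rw [hκ, lintegral_indicator measurableSet_Ici]
    have i1 : IntegrableOn (fun s : ℝ => K * Real.exp (-(b.re - 1) * s)) (Ici 0) := by
      refine Integrable.const_mul ?_ _
      exact (integrableOn_Ici_iff_integrableOn_Ioi).2 (integrableOn_exp_mul_Ioi (by linarith) 0)
    exact (Integrable.lintegral_lt_top i1).ne
  refine Block_mem hω h hh κ hκm hκi _ hu.continuous fun x => ?_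
  have h1 : ‖(ω x : ℂ) * (Complex.exp (-(b * x)) * H x)‖ₑ ≤
      ∫⁻ y in Iic x, ‖(ω x : ℂ) * Complex.exp (-(b * x))‖ₑ * ‖F y‖ₑ := by
    rw [← mul_assoc, enorm_mul, lintegral_const_mul' _ _ enorm_ne_top]
    gcongr
    exact enorm_integral_le_lintegral_enorm _
  refine h1.trans ?_
  rw [← lintegral_indicator measurableSet_Iic]
  refine lintegral_mono fun y => ?_
  by_cases hy : y ∈ Iic x
  · have hy' : y ≤ x := hy
    rw [indicator_of_mem hy, hκ, indicator_of_mem (by simpa using hy')]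
    have hwx := hω.pos x
    have hwy := hω.pos y
    rw [← enorm_mul, ← ofReal_norm, ← ofReal_norm,
      ← ENNReal.ofReal_mul (by positivity)]
    refine ENNReal.ofReal_le_ofReal ?_
    rw [hF]
    simp only [norm_mul, Complex.norm_real, Complex.norm_exp, Real.norm_of_nonneg hwx.le,
      Real.norm_of_nonneg hwy.le]
    have e1 : (-(b * (x : ℂ))).re = -(b.re * x) := by simp
    have e2 : (b * (y : ℂ)).re = b.re * y := by simp
    rw [e1, e2]
    have h2 := (hg x y hy').1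
    calc ω x * Real.exp (-(b.re * x)) * (Real.exp (b.re * y) * ‖h y‖) ≤
        (K * Real.exp (x - y) * ω y) * Real.exp (-(b.re * x)) * (Real.exp (b.re * y) * ‖h y‖) := by
          gcongr
      _ = K * (Real.exp (x - y) * Real.exp (-(b.re * x)) * Real.exp (b.re * y)) * (ω y * ‖h y‖) := by
          ring
      _ = K * Real.exp (-(b.re - 1) * (x - y)) * (ω y * ‖h y‖) := by
          rw [← Real.exp_add, ← Real.exp_add]; ring_nf
  · rw [indicator_of_notMem hy]; exact zero_le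

theorem Block_intL {ω : ℝ → ℝ} (hω : WW ω) (a : ℂ) (ha : 0 < a.re) (h : ℝ → ℂ)
    (hh : MemLp (fun x => (ω x : ℂ) * h x) 2 volume) (x : ℝ) :
    IntegrableOn (fun y : ℝ => Complex.exp (-(a * y)) * h y) (Ioi x) := by
  obtain ⟨K, hK, hg⟩ := hω.grow
  have hmeas : AEStronglyMeasurable (fun y : ℝ => Complex.exp (-(a * y)) * h y)
      (volume.restrict (Ioi x)) := by
    refine AEStronglyMeasurable.mul ?_ (Block_h hω h hh).restrict
    exact (by fun_prop : Continuous fun y : ℝ => Complex.exp (-(a * y))).aestronglyMeasurable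
  have i1 : IntegrableOn (fun y : ℝ => Real.exp (-(2 * a.re) * y)) (Ioi x) :=
    integrableOn_exp_mul_Ioi (by linarith) x
  have i2 : IntegrableOn (fun y => ‖(ω y : ℂ) * h y‖ ^ 2) (Ioi x) := (Block_sq h hh).integrableOn
  have i3 := (i1.add i2).const_mul (K / ω x)
  refine Integrable.mono' i3 hmeas ?_
  filter_upwards [ae_restrict_mem measurableSet_Ioi] with y hy
  have hy' : x ≤ y := (mem_Ioi.1 hy).le
  have hwx := hω.pos x
  have hwy := hω.pos y
  have e1 : ‖Complex.exp (-(a * y)) * h y‖ = Real.exp (-(a.re * y)) * ‖h y‖ := by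
    rw [norm_mul, Complex.norm_exp]
    simp
  have e2 : ‖(ω y : ℂ) * h y‖ = ω y * ‖h y‖ := by
    rw [norm_mul, Complex.norm_real, Real.norm_of_nonneg hwy.le]
  rw [e1]
  simp only [Pi.add_apply, e2]
  have h1 := (hg y x hy').2
  have h2 : 1 ≤ K / ω x * ω y := by
    rw [div_mul_eq_mul_div, le_div_iff₀ hwx, one_mul]
    exact h1
  have h3 : Real.exp (-(a.re * y)) * ‖h y‖ ≤ K / ω x *
      (Real.exp (-(a.re * y)) * (ω y * ‖h y‖)) := by
    have h4 : 0 ≤ Real.exp (-(a.re * y)) * ‖h y‖ := by positivity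
    calc Real.exp (-(a.re * y)) * ‖h y‖ = 1 * (Real.exp (-(a.re * y)) * ‖h y‖) := (one_mul _).symm
      _ ≤ (K / ω x * ω y) * (Real.exp (-(a.re * y)) * ‖h y‖) :=
        mul_le_mul_of_nonneg_right h2 h4
      _ = _ := by ring
  refine h3.trans (mul_le_mul_of_nonneg_left ?_ (by positivity))
  have h5 : Real.exp (-(2 * a.re) * y) = Real.exp (-(a.re * y)) ^ 2 := by
    rw [← Real.exp_nat_mul]; push_cast; ring_nf
  rw [h5]
  nlinarith [sq_nonneg (Real.exp (-(a.re * y)) - ω y * ‖h y‖),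
    sq_nonneg (Real.exp (-(a.re * y)) + ω y * ‖h y‖), sq_nonneg (Real.exp (-(a.re * y))),
    sq_nonneg (ω y * ‖h y‖)]

theorem block_left {ω : ℝ → ℝ} (hω : WW ω) (a : ℂ) (ha : 0 < a.re) (h : ℝ → ℂ)
    (hh : MemLp (fun x => (ω x : ℂ) * h x) 2 volume) :
    ∃ u : ℝ → ℂ, Prim u (fun x => h x + a * u x) ∧
      MemLp (fun x => (ω x : ℂ) * u x) 2 volume := by
  obtain ⟨K, hK, hg⟩ := hω.grow
  have hint := Block_intL hω a ha h hh
  set F : ℝ → ℂ := fun y => Complex.exp (-(a * y)) * h y with hF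
  set H : ℝ → ℂ := fun x => ∫ y in Ioi x, F y with hH
  have p1 : Prim (fun x => -1 * H x) F := by
    refine ⟨fun s t => ?_, fun s t => ?_⟩
    · have := hint (min s t)
      rw [intervalIntegrable_iff]
      refine this.mono_set fun y hy => ?_
      rw [uIoc, mem_Ioc] at hy
      exact hy.1
    · rw [← intervalIntegral.integral_Ioi_sub_Ioi' (hint s) (hint t)]
      simp only [hH]; ring
  have p2 : Prim (fun x : ℝ => Complex.exp (a * x)) (fun x : ℝ => a * Complex.exp (a * x)) := by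
    refine Prim.of_hasDerivAt (fun x => ?_) (by fun_prop)
    have h1 : HasDerivAt (fun x : ℝ => a * (x : ℂ)) a x := by
      have := (Complex.ofRealCLM.hasDerivAt (x := x)).const_mul a
      simpa using this
    have := h1.cexp
    rw [mul_comm] at this
    exact this
  have p3 := Prim.mul p2 p1
  have hu : Prim (fun x : ℝ => Complex.exp (a * x) * (-1 * H x))
      (fun x : ℝ => h x + a * (Complex.exp (a * x) * (-1 * H x))) := by
    have e : (fun x : ℝ => h x + a * (Complex.exp (a * x) * (-1 * H x))) =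
        (fun x : ℝ => a * Complex.exp (a * x) * (-1 * H x) + Complex.exp (a * x) * F x) := by
      funext x
      have h1 : Complex.exp (a * x) * F x = h x := by
        rw [hF]
        simp only
        rw [← mul_assoc, ← Complex.exp_add]
        simp
      rw [h1]; ring
    rw [e]
    exact p3
  refine ⟨_, hu, ?_⟩
  set κ : ℝ → ℝ≥0∞ := (Iic (0 : ℝ)).indicator
    (fun s => ENNReal.ofReal (K * Real.exp (a.re * s))) with hκ
  have hκm : Measurable κ := by
    refine Measurable.indicator ?_ measurableSet_Iic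
    fun_prop
  have hκi : ∫⁻ s, κ s ≠ ⊤ := by
    rw [hκ, lintegral_indicator measurableSet_Iic]
    have i1 : IntegrableOn (fun s : ℝ => K * Real.exp (a.re * s)) (Iic 0) := by
      refine Integrable.const_mul ?_ _
      exact integrableOn_exp_mul_Iic ha 0
    exact (Integrable.lintegral_lt_top i1).ne
  refine Block_mem hω h hh κ hκm hκi _ hu.continuous fun x => ?_
  have h1 : ‖(ω x : ℂ) * (Complex.exp (a * x) * (-1 * H x))‖ₑ ≤
      ∫⁻ y in Ioi x, ‖(ω x : ℂ) * Complex.exp (a * x)‖ₑ * ‖F y‖ₑ := by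
    rw [← mul_assoc, enorm_mul, lintegral_const_mul' _ _ enorm_ne_top]
    gcongr
    rw [neg_one_mul, enorm_neg]
    exact enorm_integral_le_lintegral_enorm _
  refine h1.trans ?_
  rw [← lintegral_indicator measurableSet_Ioi]
  refine lintegral_mono fun y => ?_
  by_cases hy : y ∈ Ioi x
  · have hy' : x ≤ y := (mem_Ioi.1 hy).le
    rw [indicator_of_mem hy, hκ, indicator_of_mem (by simpa using hy')]
    have hwx := hω.pos x
    have hwy := hω.pos y
    rw [← enorm_mul, ← ofReal_norm, ← ofReal_norm,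
      ← ENNReal.ofReal_mul (by positivity)]
    refine ENNReal.ofReal_le_ofReal ?_
    rw [hF]
    simp only [norm_mul, Complex.norm_real, Complex.norm_exp, Real.norm_of_nonneg hwx.le,
      Real.norm_of_nonneg hwy.le]
    have e1 : (-(a * (y : ℂ))).re = -(a.re * y) := by simp
    have e2 : (a * (x : ℂ)).re = a.re * x := by simp
    rw [e1, e2]
    have h2 := (hg y x hy').2
    calc ω x * Real.exp (a.re * x) * (Real.exp (-(a.re * y)) * ‖h y‖) ≤
        (K * ω y) * Real.exp (a.re * x) * (Real.exp (-(a.re * y)) * ‖h y‖) := by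
          gcongr
      _ = K * (Real.exp (a.re * x) * Real.exp (-(a.re * y))) * (ω y * ‖h y‖) := by
          ring
      _ = K * Real.exp (a.re * (x - y)) * (ω y * ‖h y‖) := by
          rw [← Real.exp_add]; ring_nf
  · rw [indicator_of_notMem hy]; exact zero_le

end Pool.Agent.FrontSel98
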