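import Pool.Agent.FrontSel98.Base
import Pool.Agent.FrontSel98.Apriori

/-!
# The continuity method
-/

open MeasureTheory Filter Topology Set

namespace Pool.Agent.FrontSel98

theorem SSob.sub {ω : ℝ → ℝ} {u0 u1 u2 v0 v1 v2 : ℝ → ℂ} (hu : SSob ω u0 u1 u2)
    (hv : SSob ω v0 v1 v2) :
    SSob ω (fun x => u0 x - v0 x) (fun x => u1 x - v1 x) (fun x => u2 x - v2 x) := by
  refine ⟨hu.p0.sub hv.p0, hu.p1.sub hv.p1, ?_, ?_, ?_⟩
  · exact (hu.m0.sub hv.m0).ae_eq (ae_of_all _ fun x => by simp only [Pi.sub_apply]; ring)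
  · exact (hu.m1.sub hv.m1).ae_eq (ae_of_all _ fun x => by simp only [Pi.sub_apply]; ring)
  · exact (hu.m2.sub hv.m2).ae_eq (ae_of_all _ fun x => by simp only [Pi.sub_apply]; ring)

theorem ell_sub (q : ℝ → ℝ) (lam : ℂ) (u0 u1 u2 v0 v1 v2 : ℝ → ℂ) (x : ℝ) :
    ell q lam (fun x => u0 x - v0 x) (fun x => u1 x - v1 x) (fun x => u2 x - v2 x) x =
      ell q lam u0 u1 u2 x - ell q lam v0 v1 v2 x := by
  simp only [ell]; ring

/-- Solvability for all right-hand sides. -/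
def Solv (ω : ℝ → ℝ) (q : ℝ → ℝ) (lam : ℂ) : Prop :=
  ∀ g : ℝ → ℂ, MemLp (fun x => (ω x : ℂ) * g x) 2 volume →
    ∃ u0 u1 u2, SSob ω u0 u1 u2 ∧ ∀ᵐ x, ell q lam u0 u1 u2 x = g x

/-- One step of the continuity method. -/
theorem solv_step {ω : ℝ → ℝ} (hω : WW ω) {lam : ℂ} {q p : ℝ → ℝ} (hp : Continuous p) {D : ℝ}
    (hD : ∀ x, |p x| ≤ D) {C : NNReal} (hCD : (C : ℝ) * D ≤ 1 / 2)
    (hap : ∀ u0 u1 u2, SSob ω u0 u1 u2 →
      eLpNorm (fun x => (ω x : ℂ) * u0 x) 2 volume ≤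
        C * eLpNorm (fun x => (ω x : ℂ) * ell q lam u0 u1 u2 x) 2 volume)
    (hs : Solv ω q lam) : Solv ω (fun x => q x + p x) lam := by
  intro g hg
  have hωne : ∀ x, (ω x : ℂ) ≠ 0 := fun x => by simpa using (hω.pos x).ne'
  have hD0 : 0 ≤ D := (abs_nonneg _).trans (hD 0)
  -- the right-hand side
  let gz : Lp ℂ 2 (volume : Measure ℝ) → ℝ → ℂ := fun z x => g x - (p x : ℂ) * (z x / (ω x : ℂ))
  have hgz : ∀ z, MemLp (fun x => (ω x : ℂ) * gz z x) 2 volume := fun z => by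
    refine (hg.sub (apriori_bdd_mul (Lp.memLp z) hp hD)).ae_eq (ae_of_all _ fun x => ?_)
    have := hωne x
    simp only [Pi.sub_apply, gz]
    field_simp
  choose u0 u1 u2 hu heq using fun z => hs (gz z) (hgz z)
  let Φ : Lp ℂ 2 (volume : Measure ℝ) → Lp ℂ 2 (volume : Measure ℝ) := fun z => (hu z).m0.toLp _
  have hΦ : ContractingWith (1 / 2 : NNReal) Φ := by
    refine ⟨by
      rw [← NNReal.coe_lt_coe]
      norm_num, ?_⟩
    intro z z'
    have hsub := (hu z).sub (hu z')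
    have h1 := hap _ _ _ hsub
    have h2 : edist (Φ z) (Φ z') = eLpNorm (fun x => (ω x : ℂ) * (u0 z x - u0 z' x)) 2 volume := by
      simp only [Φ]
      rw [Lp.edist_toLp_toLp]
      apply congrArg (fun f => eLpNorm f 2 volume)
      funext x
      simp only [Pi.sub_apply]
      ring
    have h3 : eLpNorm (fun x => (ω x : ℂ) * ell q lam (fun x => u0 z x - u0 z' x)
        (fun x => u1 z x - u1 z' x) (fun x => u2 z x - u2 z' x) x) 2 volume =
        eLpNorm (fun x => (p x : ℂ) * ((z' : ℝ → ℂ) x - (z : ℝ → ℂ) x)) 2 volume := by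
      apply eLpNorm_congr_ae
      filter_upwards [heq z, heq z'] with x hx hx'
      rw [ell_sub, hx, hx']
      have := hωne x
      simp only [gz]
      field_simp
      ring
    have h4 : eLpNorm (fun x => (p x : ℂ) * ((z' : ℝ → ℂ) x - (z : ℝ → ℂ) x)) 2 volume ≤
        ENNReal.ofReal D * edist z z' := by
      have h5 : edist z z' = eLpNorm (fun x => (z' : ℝ → ℂ) x - (z : ℝ → ℂ) x) 2 volume := by
        rw [edist_comm, Lp.edist_def]
        rfl
      rw [h5]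
      have := eLpNorm_le_mul_eLpNorm_of_ae_le_mul (μ := (volume : Measure ℝ)) (p := 2)
        (f := fun x => (p x : ℂ) * ((z' : ℝ → ℂ) x - (z : ℝ → ℂ) x))
        (g := fun x => (z' : ℝ → ℂ) x - (z : ℝ → ℂ) x) (c := D)
        (ae_of_all _ fun x => by
          rw [norm_mul, Complex.norm_real, Real.norm_eq_abs]
          exact mul_le_mul_of_nonneg_right (hD x) (norm_nonneg _))
      exact this
    rw [h2]
    refine h1.trans ?_
    rw [h3]
    calc (C : ENNReal) * eLpNorm (fun x => (p x : ℂ) * ((z' : ℝ → ℂ) x - (z : ℝ → ℂ) x)) 2 volume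
        ≤ C * (ENNReal.ofReal D * edist z z') := by gcongr
      _ = (C * ENNReal.ofReal D) * edist z z' := by rw [mul_assoc]
      _ ≤ ((1 / 2 : NNReal) : ENNReal) * edist z z' := by
          gcongr
          have e1 : (C : ENNReal) = ENNReal.ofReal (C : ℝ) := (ENNReal.ofReal_coe_nnreal).symm
          have e2 : ((1 / 2 : NNReal) : ENNReal) = ENNReal.ofReal (1 / 2 : ℝ) := by
            rw [← ENNReal.ofReal_coe_nnreal]
            norm_num
          rw [e1, e2, ← ENNReal.ofReal_mul C.coe_nonneg]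
          exact ENNReal.ofReal_le_ofReal hCD
  let z := ContractingWith.fixedPoint Φ hΦ
  have hz : Φ z = z := hΦ.fixedPoint_isFixedPt
  have hz' : ∀ᵐ x, (z : ℝ → ℂ) x = (ω x : ℂ) * u0 z x := by
    have h1 : (Φ z : ℝ → ℂ) =ᵐ[volume] fun x => (ω x : ℂ) * u0 z x := MemLp.coeFn_toLp _
    rw [hz] at h1
    exact h1
  refine ⟨u0 z, u1 z, u2 z, hu z, ?_⟩
  filter_upwards [heq z, hz'] with x hx hzx
  have hne := hωne x
  have : ell (fun x => q x + p x) lam (u0 z) (u1 z) (u2 z) x =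
      ell q lam (u0 z) (u1 z) (u2 z) x + (p x : ℂ) * u0 z x := by
    simp only [ell]; push_cast; ring
  rw [this, hx]
  simp only [gz]
  rw [hzx]
  field_simp
  ring

/-- If the a priori estimate holds with one constant along the segment from `-3` to `q`, then the
equation is solvable at the endpoint `q`. -/
theorem cont_method {ω : ℝ → ℝ} (hω : WW ω) {lam : ℂ} (hlam : 0 ≤ lam.re) {q : ℝ → ℝ}
    (hq : Continuous q) (hb : ∃ B, ∀ x, |q x| ≤ B) {C : NNReal}
    (hap : ∀ τ ∈ Icc (0 : ℝ) 1, ∀ u0 u1 u2, SSob ω u0 u1 u2 →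
      eLpNorm (fun x => (ω x : ℂ) * u0 x) 2 volume ≤
        C * eLpNorm (fun x => (ω x : ℂ) *
          ell (fun x => (1 - τ) * (-3) + τ * q x) lam u0 u1 u2 x) 2 volume) :
    SRes ω q lam := by
  obtain ⟨B, hB⟩ := hb
  have hB0 : 0 ≤ B := (abs_nonneg _).trans (hB 0)
  -- number of steps
  obtain ⟨n, hn⟩ := exists_nat_gt (2 * (C : ℝ) * (B + 3))
  have hn0 : (0 : ℝ) < n := lt_of_le_of_lt (by positivity) hn
  have key : ∀ k : ℕ, k ≤ n → Solv ω (fun x => (1 - (k / n : ℝ)) * (-3) + (k / n : ℝ) * q x) lam := by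
    intro k
    induction k with
    | zero =>
      intro _ g hg
      obtain ⟨u0, u1, u2, hu, he⟩ := base_solve hω lam hlam g hg
      refine ⟨u0, u1, u2, hu, ?_⟩
      filter_upwards [he] with x hx
      rw [← hx]
      simp [ell]
    | succ k ih =>
      intro hk
      have hk' : k ≤ n := by omega
      have hτ : (k / n : ℝ) ∈ Icc (0 : ℝ) 1 :=
        ⟨by positivity, by rw [div_le_one hn0]; exact_mod_cast hk'⟩
      have hD : ∀ x, |(1 / n : ℝ) * (3 + q x)| ≤ (B + 3) / n := fun x => by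
        rw [abs_mul, abs_of_pos (by positivity : (0 : ℝ) < 1 / n), div_mul_eq_mul_div, one_mul]
        apply div_le_div_of_nonneg_right _ hn0.le
        calc |3 + q x| ≤ |3| + |q x| := abs_add_le _ _
          _ ≤ B + 3 := by
            have := hB x
            rw [abs_of_pos (by norm_num : (0 : ℝ) < 3)]
            linarith
      have hstep := solv_step hω (lam := lam)
        (q := fun x => (1 - (k / n : ℝ)) * (-3) + (k / n : ℝ) * q x)
        (p := fun x => (1 / n : ℝ) * (3 + q x)) (by fun_prop) hD (C := C) (by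
          rw [mul_div_assoc', div_le_iff₀ hn0]
          linarith) (hap _ hτ) (ih hk')
      convert hstep using 2
      push_cast
      field_simp
      ring
  have hfin := key n le_rfl
  have e : (fun x => (1 - (n / n : ℝ)) * (-3) + (n / n : ℝ) * q x) = q := by
    funext x
    rw [div_self hn0.ne']
    ring
  rw [e] at hfin
  refine ⟨C, hfin, fun u0 u1 u2 hu => ?_⟩
  have := hap 1 ⟨zero_le_one, le_rfl⟩ u0 u1 u2 hu
  have e1 : (fun x => (1 - (1 : ℝ)) * (-3) + 1 * q x) = q := by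
    funext x; ring
  rw [e1] at this
  exact this

theorem fpos_convex {q : ℝ → ℝ} (hq : Continuous q) (hb : ∃ B, ∀ x, |q x| ≤ B)
    (hF : FPos (fun x => 1 - q x)) {τ : ℝ} (hτ : τ ∈ Icc (0 : ℝ) 1) :
    FPos (fun x => 1 - ((1 - τ) * (-3) + τ * q x)) := by
  intro W W1 W2 hW
  obtain ⟨B, hB⟩ := hb
  have m0 : MemLp W 2 volume := by simpa using hW.m0
  have m1 : MemLp W1 2 volume := by simpa using hW.m1
  have h1 := hF W W1 W2 hW
  have iq : Integrable (fun x => (1 - q x) * ‖W x‖ ^ 2) := by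
    refine Integrable.bdd_mul (l2_int m0) (continuous_const.sub hq).aestronglyMeasurable
      (c := 1 + B) (ae_of_all _ fun x => ?_)
    have := hB x
    rw [Real.norm_eq_abs]
    calc |1 - q x| ≤ |1| + |q x| := abs_sub _ _
      _ ≤ 1 + B := by rw [abs_one]; linarith
  have e : ∫ x, (‖W1 x‖ ^ 2 + (1 - ((1 - τ) * (-3) + τ * q x)) * ‖W x‖ ^ 2) =
      τ * (∫ x, (‖W1 x‖ ^ 2 + (1 - q x) * ‖W x‖ ^ 2)) +
        (1 - τ) * ∫ x, (‖W1 x‖ ^ 2 + 4 * ‖W x‖ ^ 2) := by
    have e2 := integral_add (((l2_int m1).add iq).const_mul τ)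
        (((l2_int m1).add ((l2_int m0).const_mul 4)).const_mul (1 - τ))
    simp only [Pi.add_apply] at e2
    rw [← integral_const_mul, ← integral_const_mul, ← e2]
    apply integral_congr_ae
    refine ae_of_all _ fun x => ?_
    simp only
    ring
  rw [e]
  have h2 : 0 ≤ ∫ x, (‖W1 x‖ ^ 2 + 4 * ‖W x‖ ^ 2) := integral_nonneg fun x => by positivity
  exact add_nonneg (mul_nonneg hτ.1 h1) (mul_nonneg (by linarith [hτ.2]) h2)

theorem cont_bdd {q : ℝ → ℝ} (hb : ∃ B, ∀ x, |q x| ≤ B) {τ : ℝ} (hτ : τ ∈ Icc (0 : ℝ) 1) :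
    ∃ B, ∀ x, |(1 - τ) * (-3) + τ * q x| ≤ B := by
  obtain ⟨B, hB⟩ := hb
  refine ⟨3 + B, fun x => ?_⟩
  have h1 := hB x
  have h2 := hτ.1
  have h3 := hτ.2
  have hB0 : 0 ≤ B := (abs_nonneg _).trans h1
  calc |(1 - τ) * (-3) + τ * q x| ≤ |(1 - τ) * (-3)| + |τ * q x| := abs_add_le _ _
    _ = (1 - τ) * 3 + τ * |q x| := by
      rw [abs_mul, abs_mul, abs_of_nonneg h2, abs_of_nonneg (by linarith : 0 ≤ 1 - τ)]
      norm_num
    _ ≤ 3 + B := by nlinarith

theorem ww_exp : WW Real.exp := by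
  refine ⟨Real.continuous_exp, Real.exp_pos, 1, one_pos, fun x y hxy => ⟨?_, ?_⟩⟩
  · rw [one_mul, ← Real.exp_add]
    exact le_of_eq (by ring_nf)
  · rw [one_mul]
    exact Real.exp_le_exp.2 hxy

/-- The resolvent set in `L²_{exp,1}`. -/
theorem sres_exp {q : ℝ → ℝ} (hq : Continuous q) (hb : ∃ B, ∀ x, |q x| ≤ B)
    (hF : FPos (fun x => 1 - q x)) {lam : ℂ} (hlam : 0 ≤ lam.re) (hlam0 : lam ≠ 0) :
    SRes Real.exp q lam := by
  refine cont_method ww_exp hlam hq hb (C := Real.toNNReal (1 / ‖lam‖)) ?_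
  intro τ hτ u0 u1 u2 hu
  exact apriori_exp (by fun_prop) (cont_bdd hb hτ) (fpos_convex hq hb hF hτ) hlam hlam0 hu

/-- The resolvent set in `L²_{exp,0,1}`. -/
theorem sres_w {ω : ℝ → ℝ} (hω : WW ω) {K : ℝ} (hK0 : 0 < K)
    (hK : ∀ x, 1 + Real.exp x ≤ K * ω x ∧ ω x ≤ K * (1 + Real.exp x))
    {q : ℝ → ℝ} (hq : Continuous q) (hb : ∃ B, ∀ x, |q x| ≤ B)
    (hF : FPos (fun x => 1 - q x)) {δ B : ℝ} (hδ : 0 < δ) (hδ3 : δ ≤ 3) (hB : 0 ≤ B)
    (hqδ : ∀ x, q x ≤ -δ + B * Real.exp (2 * x))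
    {lam : ℂ} (hlam : 0 ≤ lam.re) (hlam0 : lam ≠ 0) :
    SRes ω q lam := by
  obtain ⟨C, hC⟩ := apriori_w hω.cont hK0 hK (B := B) hδ hlam hlam0
  refine cont_method hω hlam hq hb (C := C) ?_
  intro τ hτ u0 u1 u2 hu
  refine hC _ (by fun_prop) (cont_bdd hb hτ) (fpos_convex hq hb hF hτ) (fun x => ?_) u0 u1 u2 hu
  have h1 := hqδ x
  have h2 := hτ.1
  have h3 := hτ.2
  have h4 : 0 ≤ B * Real.exp (2 * x) := mul_nonneg hB (Real.exp_pos _).le
  have h5 : τ * q x ≤ τ * (-δ + B * Real.exp (2 * x)) := mul_le_mul_of_nonneg_left h1 h2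
  nlinarith

end Pool.Agent.FrontSel98
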