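import Mathlib

/-!
# Front selection at the pushed-to-pulled transition: general definitions

Everything in this file follows the text of the problem `MP_ef8f21_an` for a general system
`u_t = P(∂_x) u + f(u)`, `u(t,x) ∈ ℝ^N`, `x ∈ ℝ`.
-/

open MeasureTheory Filter Topology Set Matrix

namespace Pool.Agent.FrontSel98

/-- The state space `ℝ^N`. -/
abbrev RV (N : ℕ) := Fin N → ℝ

/-- Its complexification `ℂ^N`. -/
abbrev CV (N : ℕ) := Fin N → ℂ

/-- Complexification of a real matrix. -/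
def cMat {N : ℕ} (A : Matrix (Fin N) (Fin N) ℝ) : Matrix (Fin N) (Fin N) ℂ :=
  A.map (fun x => (x : ℂ))

/-- The data of an equation `u_t = P(∂_x) u + f(u)`: the coefficients `P_0, ..., P_{2m}` of the real
matrix polynomial `P(ν) = ∑_{j ≤ 2m} P_j ν^j` (values `P_j`, `j > 2m`, are never used) and the
nonlinearity `f : ℝ^N → ℝ^N`. -/
structure Sys (N m : ℕ) where
  P : ℕ → Matrix (Fin N) (Fin N) ℝ
  f : RV N → RV N

namespace Sys

variable {N m : ℕ}

/-- The Jacobian matrix `f'(y)`; its `(i,j)` entry is the `i`-th component of `f'(y) e_j`. -/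
noncomputable def jac (S : Sys N m) (y : RV N) : Matrix (Fin N) (Fin N) ℝ :=
  Matrix.of fun i j => fderiv ℝ S.f y (Pi.single j 1) i

/-- The symbol `P(ν) = ∑_{j ≤ 2m} P_j ν^j` for complex `ν`. -/
noncomputable def symb (S : Sys N m) (ν : ℂ) : Matrix (Fin N) (Fin N) ℂ :=
  ∑ j ∈ Finset.range (2 * m + 1), (ν ^ j) • cMat (S.P j)

/-- The dispersion function `d_c(λ,ν) = det (P(ν) + c ν + f'(0) - λ)`. -/
noncomputable def disp (S : Sys N m) (c : ℝ) (lam ν : ℂ) : ℂ :=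
  (S.symb ν + ((c : ℂ) * ν) • 1 + cMat (S.jac 0) - lam • 1).det

/-- Standing assumptions: `P(∂_x)` is elliptic of order `2m` (in the well-posed, parabolic sense:
the eigenvalues of the leading symbol `P_{2m} (ik)^{2m}` have negative real part for `k ≠ 0`), `f`
is smooth, `f(0) = 0`, and the linearization at `0` is unstable in a translation-invariant norm. -/
structure Admissible (S : Sys N m) : Prop where
  m_pos : 0 < m
  elliptic : ∀ μ : ℂ, (cMat (S.P (2 * m)) - μ • 1).det = 0 → ((-1) ^ m * μ).re < 0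
  smooth : ContDiff ℝ (⊤ : ℕ∞) S.f
  f_zero : S.f 0 = 0
  unstable : ∃ (k : ℝ) (lam : ℂ), 0 < lam.re ∧
    (S.symb (k * Complex.I) + cMat (S.jac 0) - lam • 1).det = 0

/-- `P(∂_x) u` for a (sufficiently smooth) real vector-valued function `u`. -/
noncomputable def opR (S : Sys N m) (u : ℝ → RV N) (x : ℝ) : RV N :=
  ∑ j ∈ Finset.range (2 * m + 1), (S.P j).mulVec (iteratedDeriv j u x)

/-- `um` is an exponentially stable equilibrium: `P_0 um + f(um) = 0` and the spectrum of the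
linearization `P(∂_x) + f'(um)` (in translation-invariant norms) lies in `{Re λ ≤ -δ}`. -/
def StableEq (S : Sys N m) (um : RV N) : Prop :=
  (S.P 0).mulVec um + S.f um = 0 ∧
  ∃ δ > 0, ∀ (k : ℝ) (lam : ℂ),
    (S.symb (k * Complex.I) + cMat (S.jac um) - lam • 1).det = 0 → lam.re ≤ -δ

/-! ### Double roots of the dispersion relation -/

/-- `(λ, ν)` is a pinched double root of `d_c`: `d_c = ∂_ν d_c = 0` at `(λ, ν)` and there are two
continuous branches of roots starting at `ν` and following `λ + s`, `s ≥ 0`, whose real parts tend to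
`+∞` and `-∞` as `s → ∞`. -/
def PinchedDoubleRoot (S : Sys N m) (c : ℝ) (lam ν : ℂ) : Prop :=
  S.disp c lam ν = 0 ∧ deriv (fun z => S.disp c lam z) ν = 0 ∧
  ∃ ν₁ ν₂ : ℝ → ℂ, ContinuousOn ν₁ (Ici 0) ∧ ContinuousOn ν₂ (Ici 0) ∧ ν₁ 0 = ν ∧ ν₂ 0 = ν ∧
    (∀ s : ℝ, 0 ≤ s → S.disp c (lam + s) (ν₁ s) = 0 ∧ S.disp c (lam + s) (ν₂ s) = 0) ∧
    Tendsto (fun s => (ν₁ s).re) atTop atTop ∧ Tendsto (fun s => (ν₂ s).re) atTop atBot

/-- `c` is the linear spreading speed: the supremum of the speeds `c'` for which `d_{c'}` has an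
unstable (`Re λ > 0`) pinched double root. -/
def IsLinSpeed (S : Sys N m) (c : ℝ) : Prop :=
  IsLUB {c' : ℝ | ∃ lam ν : ℂ, 0 < lam.re ∧ S.PinchedDoubleRoot c' lam ν} c

end Sys

/-! ### Weighted spaces, unbounded operators and their resolvent sets -/

/-- The weights `ω` of the spaces `L^p_{exp,a,b}`. -/
structure IsWeight (a b : ℝ) (ω : ℝ → ℝ) : Prop where
  smooth : ContDiff ℝ (⊤ : ℕ∞) ω
  pos : ∀ x, 0 < ω x
  left : ∀ x ≤ -1, ω x = Real.exp (a * x)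
  right : ∀ x, 1 ≤ x → ω x = Real.exp (b * x)

/-- `U 0` belongs to the weighted Sobolev space `H^k_ω`, with `U j` its `j`-th derivative:
`U 0, ..., U (k-1)` are absolutely continuous with almost everywhere derivatives `U 1, ..., U k`, and
`ω U j ∈ L²` for all `j ≤ k`. -/
structure IsSob {N : ℕ} (ω : ℝ → ℝ) (k : ℕ) (U : ℕ → ℝ → CV N) : Prop where
  int : ∀ j < k, ∀ a b : ℝ, IntervalIntegrable (U (j + 1)) volume a b
  ftc : ∀ j < k, ∀ a b : ℝ, U j b - U j a = ∫ t in a..b, U (j + 1) t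
  mem : ∀ j ≤ k, MemLp (fun x => ω x • U j x) 2 volume

namespace Sys

variable {N m : ℕ}

/-- `(P(∂) + c ∂ + A(x)) U 0` where `U j` is the `j`-th derivative of `U 0`. -/
noncomputable def opC (S : Sys N m) (c : ℝ) (A : ℝ → Matrix (Fin N) (Fin N) ℝ)
    (U : ℕ → ℝ → CV N) (x : ℝ) : CV N :=
  (∑ j ∈ Finset.range (2 * m + 1), (cMat (S.P j)).mulVec (U j x)) + (c : ℂ) • U 1 x
    + (cMat (A x)).mulVec (U 0 x)

/-- `λ` is in the resolvent set of the operator `L = P(∂) + c ∂ + A(x)` on `L²_ω` with domain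
`H^{2m}_ω`: `L - λ` maps the domain onto `L²_ω` and has a bounded inverse. -/
def InResolvent (S : Sys N m) (c : ℝ) (A : ℝ → Matrix (Fin N) (Fin N) ℝ) (ω : ℝ → ℝ)
    (lam : ℂ) : Prop :=
  ∃ C : NNReal,
    (∀ g : ℝ → CV N, MemLp (fun x => ω x • g x) 2 volume →
      ∃ U : ℕ → ℝ → CV N, IsSob ω (2 * m) U ∧
        ∀ᵐ x : ℝ, S.opC c A U x - lam • U 0 x = g x) ∧
    (∀ U : ℕ → ℝ → CV N, IsSob ω (2 * m) U →
      eLpNorm (fun x => ω x • U 0 x) 2 volume ≤
        C * eLpNorm (fun x => ω x • (S.opC c A U x - lam • U 0 x)) 2 volume)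

/-! ### Pushed-to-pulled transition fronts -/

/-- `u` is a pushed-to-pulled transition front with speed `c = c_lin` and rate `η = η_lin`. -/
structure IsTransitionFront (S : Sys N m) (c η : ℝ) (u : ℝ → RV N) : Prop where
  /-- the standing assumptions on the equation -/
  adm : S.Admissible
  /-- `u` is a smooth stationary solution in the frame moving with speed `c` -/
  smooth : ContDiff ℝ (⊤ : ℕ∞) u
  wave : ∀ x, S.opR u x + c • deriv u x + S.f (u x) = 0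
  /-- item 1: `c` is the linear spreading speed, determined by a simple pinched double root at
  `(0, -η)`, and the spectrum of `L_0` on `L²_{exp,η}` is stable up to one curve touching `0` -/
  eta_pos : 0 < η
  speed : S.IsLinSpeed c
  root : S.PinchedDoubleRoot c 0 (-(η : ℂ))
  simple : ∃ a b : ℝ, 0 < a * b ∧ deriv (fun z => S.disp c z (-(η : ℂ))) 0 = a ∧
    iteratedDeriv 2 (fun z => S.disp c 0 z) (-(η : ℂ)) = -(b : ℂ)
  spec0 : ∀ lam : ℂ, 0 ≤ lam.re → lam ≠ 0 →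
    S.InResolvent c (fun _ => S.jac 0) (fun x => Real.exp (η * x)) lam
  /-- items 2 and 3: exponentially stable equilibrium in the wake and asymptotics of the front,
  with `b = 0` and, moreover, `a ≠ 0`, `u_+^0 ≠ 0` -/
  ends : ∃ (um u0 u1 : RV N) (κ C a b : ℝ), S.StableEq um ∧ 0 < κ ∧ b = 0 ∧ a ≠ 0 ∧ u0 ≠ 0 ∧
    (∀ x ≤ 0, ‖u x - um‖ ≤ C * Real.exp (κ * x)) ∧
    (∀ x, 0 ≤ x → ‖u x - Real.exp (-η * x) • (b • (x • u0 + u1) + a • u0)‖ ≤
      C * Real.exp (-(η + κ) * x))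
  /-- item 4: the spectrum of the linearization `L_tr` on `L²_{exp,0,η}` is stable except for the
  curve at `0` -/
  spec : ∀ ω, IsWeight 0 η ω → ∀ lam : ℂ, 0 ≤ lam.re → lam ≠ 0 →
    S.InResolvent c (fun x => S.jac (u x)) ω lam
  /-- item 5: the solutions of `L_tr U = 0` in `L^∞_{exp,0,η}` form the line spanned by `∂ u` -/
  ker_mem : deriv u ≠ 0 ∧
    (∀ x, S.opR (deriv u) x + c • deriv (deriv u) x + (S.jac (u x)).mulVec (deriv u x) = 0) ∧
    ∀ ω, IsWeight 0 η ω → ∃ C, ∀ x, ‖ω x • deriv u x‖ ≤ C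
  ker : ∀ ω, IsWeight 0 η ω → ∀ U : ℝ → RV N, ContDiff ℝ (2 * m) U →
    (∀ x, S.opR U x + c • deriv U x + (S.jac (u x)).mulVec (U x) = 0) →
    (∃ C, ∀ x, ‖ω x • U x‖ ≤ C) → ∃ α : ℝ, U = α • deriv u

/-! ### Selection -/

/-- `u` solves `u_t = P(∂_x) u + f(u)`, `u(·,0) = u₀`, for all times (first argument: time). For
`t > 0` the solution is classical and locally bounded in time, and the initial datum
`u₀ ∈ L^∞` is attained in `L^1_loc`. -/
structure IsSol (S : Sys N m) (u₀ : ℝ → RV N) (u : ℝ → ℝ → RV N) : Prop where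
  smooth : ∀ t > 0, ContDiff ℝ (2 * m) (u t)
  pde : ∀ t > 0, ∀ x, HasDerivAt (fun s => u s x) (S.opR (u t) x + S.f (u t x)) t
  cont : ContinuousOn (fun p : ℝ × ℝ => u p.1 p.2) (Ioi 0 ×ˢ univ)
  bdd : ∀ T > 0, ∃ M, ∀ t, 0 < t → t ≤ T → ∀ x, ‖u t x‖ ≤ M
  init : ∀ R > 0, Tendsto (fun t => ∫ x in (-R)..R, ‖u t x - u₀ x‖) (𝓝[>] 0) (𝓝 0)

/-- The speed `c` and the front `u` are selected, with all position corrections `h` in the class
`H`. -/
def Selected (S : Sys N m) (c : ℝ) (u : ℝ → RV N) (H : (ℝ → ℝ) → Prop) : Prop :=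
  ∃ ρ : ℝ → ℝ, Continuous ρ ∧ (∀ x, 0 ≤ ρ x) ∧ ∀ ε > 0, ∃ 𝒰 : Set (ℝ → RV N),
    (∀ u₀ ∈ 𝒰, MemLp u₀ ⊤ volume) ∧
    (∀ u₀ ∈ 𝒰, ∃ v, S.IsSol u₀ v ∧ ∃ h : ℝ → ℝ, (h =o[atTop] fun t => t) ∧ H h ∧
      ∀ᶠ t in atTop, ∃ ε' < ε, ∀ x, ‖v t (x + c * t + h t) - u x‖ ≤ ε') ∧
    (∃ u₀ ∈ 𝒰, ∃ X, ∀ x ≥ X, u₀ x = 0) ∧
    (∀ u₀ ∈ 𝒰, ∃ δ > 0, ∀ g : ℝ → RV N, MemLp g ⊤ volume →
      eLpNorm (fun x => ρ x • (g x - u₀ x)) ⊤ volume < δ → g ∈ 𝒰)

end Sys

/-- Position corrections of the form `h(t) = -1/(2η) log t + O(1)`. -/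
def LogShift (η : ℝ) (h : ℝ → ℝ) : Prop :=
  ∃ C, ∀ᶠ t in atTop, |h t + 1 / (2 * η) * Real.log t| ≤ C

/-! ### The example -/

/-- `v_t = v_xx + 3v(1-v)(6v-1)`, `w_t = w_xx + w(1-w³+4v(1-v))`. -/
noncomputable def exSys : Sys 2 1 where
  P := fun j => if j = 2 then 1 else 0
  f := fun y => ![3 * y 0 * (1 - y 0) * (6 * y 0 - 1),
    y 1 * (1 - y 1 ^ 3 + 4 * y 0 * (1 - y 0))]

/-- `v_*(x) = 1/(1+e^{3x})`. -/
noncomputable def vs (x : ℝ) : ℝ := 1 / (1 + Real.exp (3 * x))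

/-- `w_*(x) = (1+e^{3x})^{-1/3}`. -/
noncomputable def ws (x : ℝ) : ℝ := (vs x) ^ (1 / 3 : ℝ)

/-- The front `(v_*, w_*)`. -/
noncomputable def exFront (x : ℝ) : RV 2 := ![vs x, ws x]

end Pool.Agent.FrontSel98
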