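import Pool.Agent.FrontSel98.Front

/-!
# Dispersion relation, linear spreading speed, standing assumptions for the example
-/

open MeasureTheory Filter Topology Set Matrix

namespace Pool.Agent.FrontSel98

theorem Disp_symb (ν : ℂ) : exSys.symb ν = (ν ^ 2) • (1 : Matrix (Fin 2) (Fin 2) ℂ) := by
  unfold Sys.symb exSys cMat
  rw [Finset.sum_range_succ, Finset.sum_range_succ, Finset.sum_range_succ, Finset.sum_range_zero]
  simp

theorem Disp_jac0 : cMat (exSys.jac 0) = !![(-3 : ℂ), 0; 0, 1] := by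
  rw [exSys_jac]
  unfold cMat
  ext i j
  fin_cases i <;> fin_cases j <;> simp

theorem exSys_disp (c : ℝ) (lam ν : ℂ) :
    exSys.disp c lam ν = (ν ^ 2 + c * ν - 3 - lam) * (ν ^ 2 + c * ν + 1 - lam) := by
  unfold Sys.disp
  rw [Disp_symb, Disp_jac0, Matrix.det_fin_two]
  simp
  left
  ring

theorem exSys_admissible : exSys.Admissible := by
  refine ⟨one_pos, ?_, exSys_f_contDiff, ?_, ?_⟩
  · intro μ h
    have h1 : cMat (exSys.P (2 * 1)) = 1 := by
      unfold cMat exSys
      ext i j
      fin_cases i <;> fin_cases j <;> simp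
    rw [h1, Matrix.det_fin_two] at h
    simp at h
    have h2 : μ = 1 := by
      have : 1 - μ = 0 := h
      linear_combination -this
    rw [h2]
    norm_num
  · unfold exSys
    ext i
    fin_cases i <;> simp
  · refine ⟨0, 1, by norm_num, ?_⟩
    rw [Disp_symb, Disp_jac0, Matrix.det_fin_two]
    simp

theorem exSys_stableEq : exSys.StableEq ![1, 1] := by
  refine ⟨?_, 3, by norm_num, ?_⟩
  · unfold exSys
    ext i
    fin_cases i <;> simp
  · intro k lam h
    have h1 : cMat (exSys.jac ![1, 1]) = !![(-15 : ℂ), 0; -4, -3] := by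
      rw [exSys_jac]
      unfold cMat
      ext i j
      fin_cases i <;> fin_cases j <;> simp <;> norm_num
    rw [Disp_symb, h1, Matrix.det_fin_two] at h
    simp at h
    have hI : ((k : ℂ) * Complex.I) ^ 2 = -((k ^ 2 : ℝ) : ℂ) := by
      rw [mul_pow, Complex.I_sq]
      push_cast
      ring
    rcases h with h | h
    · have h2 : lam = ((-k ^ 2 - 15 : ℝ) : ℂ) := by
        rw [hI] at h
        push_cast at h ⊢
        linear_combination -h
      rw [h2, Complex.ofReal_re]
      nlinarith [sq_nonneg k]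
    · have h2 : lam = ((-k ^ 2 - 3 : ℝ) : ℂ) := by
        rw [hI] at h
        push_cast at h ⊢
        linear_combination -h
      rw [h2, Complex.ofReal_re]
      nlinarith [sq_nonneg k]

theorem Disp_deriv (c : ℝ) (lam ν : ℂ) : HasDerivAt (fun z => exSys.disp c lam z)
    ((2 * ν + c) * (ν ^ 2 + c * ν + 1 - lam) + (ν ^ 2 + c * ν - 3 - lam) * (2 * ν + c)) ν := by
  have h1 : HasDerivAt (fun z : ℂ => z ^ 2 + c * z) (2 * ν + c) ν := by
    have := (hasDerivAt_pow 2 ν).fun_add ((hasDerivAt_id ν).const_mul (c : ℂ))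
    refine this.congr_deriv ?_
    push_cast
    ring
  have h2 := ((h1.sub_const 3).sub_const lam).fun_mul ((h1.add_const 1).sub_const lam)
  refine h2.congr_of_eventuallyEq (Eventually.of_forall fun z => ?_)
  exact exSys_disp c lam z

/-- The pinched double root of `d_c` at `(1 - c²/4, -c/2)`. -/
theorem Disp_pinched (c : ℝ) :
    exSys.PinchedDoubleRoot c ((1 - c ^ 2 / 4 : ℝ) : ℂ) ((-(c / 2) : ℝ) : ℂ) := by
  have hsq : ∀ s : ℝ, 0 ≤ s → ((Real.sqrt s : ℝ) : ℂ) ^ 2 = s := by
    intro s hs
    rw [← Complex.ofReal_pow, Real.sq_sqrt hs]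
  refine ⟨?_, ?_, fun s => ((-(c / 2) + Real.sqrt s : ℝ) : ℂ),
    fun s => ((-(c / 2) - Real.sqrt s : ℝ) : ℂ), ?_, ?_, ?_, ?_, ?_, ?_, ?_⟩
  · rw [exSys_disp]
    push_cast
    ring
  · rw [(Disp_deriv c _ _).deriv]
    push_cast
    ring
  · exact (Complex.continuous_ofReal.comp (continuous_const.add Real.continuous_sqrt)).continuousOn
  · exact (Complex.continuous_ofReal.comp (continuous_const.sub Real.continuous_sqrt)).continuousOn
  · simp
  · simp
  · intro s hs
    have h := hsq s hs
    constructor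
    · rw [exSys_disp]
      push_cast
      have : ((-(c / 2 : ℂ) + (Real.sqrt s : ℂ)) ^ 2 + c * (-(c / 2 : ℂ) + (Real.sqrt s : ℂ)) + 1
          - (1 - c ^ 2 / 4 + s)) = 0 := by
        linear_combination h
      rw [this, mul_zero]
    · rw [exSys_disp]
      push_cast
      have : ((-(c / 2 : ℂ) - (Real.sqrt s : ℂ)) ^ 2 + c * (-(c / 2 : ℂ) - (Real.sqrt s : ℂ)) + 1
          - (1 - c ^ 2 / 4 + s)) = 0 := by
        linear_combination h
      rw [this, mul_zero]
  · simp only [Complex.ofReal_re]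
    exact tendsto_atTop_add_const_left _ _ Real.tendsto_sqrt_atTop
  · simp only [Complex.ofReal_re]
    have := tendsto_neg_atTop_atBot.comp (Real.tendsto_sqrt_atTop)
    exact tendsto_atBot_add_const_left _ _ this

theorem exSys_root : exSys.PinchedDoubleRoot 2 0 (-((1 : ℝ) : ℂ)) := by
  have h := Disp_pinched 2
  have e1 : ((1 - (2 : ℝ) ^ 2 / 4 : ℝ) : ℂ) = 0 := by norm_num
  have e2 : ((-((2 : ℝ) / 2) : ℝ) : ℂ) = -((1 : ℝ) : ℂ) := by norm_num
  rw [e1, e2] at h
  exact h

theorem exSys_simple : ∃ a b : ℝ, 0 < a * b ∧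
    deriv (fun z => exSys.disp 2 z (-((1 : ℝ) : ℂ))) 0 = a ∧
    iteratedDeriv 2 (fun z => exSys.disp 2 0 z) (-((1 : ℝ) : ℂ)) = -(b : ℂ) := by
  refine ⟨4, 8, by norm_num, ?_, ?_⟩
  · have h : (fun z => exSys.disp 2 z (-((1 : ℝ) : ℂ))) = fun z : ℂ => z ^ 2 + 4 * z := by
      funext z
      rw [exSys_disp]
      push_cast
      ring
    rw [h]
    have h1 : HasDerivAt (fun z : ℂ => z ^ 2 + 4 * z) (2 * 0 + 4) 0 := by
      have := (hasDerivAt_pow 2 (0 : ℂ)).fun_add ((hasDerivAt_id (0 : ℂ)).const_mul (4 : ℂ))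
      refine this.congr_deriv ?_
      push_cast
      ring
    rw [h1.deriv]
    push_cast
    ring
  · have h : deriv (fun z => exSys.disp 2 0 z) =
        fun z : ℂ => 4 * (z + 1) ^ 3 - 8 * (z + 1) := by
      funext z
      rw [(Disp_deriv 2 0 z).deriv]
      push_cast
      ring
    rw [iteratedDeriv_succ, iteratedDeriv_one, h]
    have h1 : HasDerivAt (fun z : ℂ => 4 * (z + 1) ^ 3 - 8 * (z + 1))
        (4 * (3 * (-((1 : ℝ) : ℂ) + 1) ^ 2) - 8) (-((1 : ℝ) : ℂ)) := by
      have h2 : HasDerivAt (fun z : ℂ => z + 1) 1 (-((1 : ℝ) : ℂ)) :=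
        (hasDerivAt_id _).add_const _
      have h3 := ((h2.pow 3).const_mul 4).sub (h2.const_mul 8)
      refine h3.congr_deriv ?_
      push_cast
      ring
    rw [h1.deriv]
    push_cast
    ring

theorem exSys_linSpeed : exSys.IsLinSpeed 2 := by
  constructor
  · rintro c ⟨lam, ν, hlam, h1, h2, -⟩
    rw [exSys_disp] at h1
    rw [(Disp_deriv c lam ν).deriv] at h2
    have h3 : (2 * ν + c) * (2 * (ν ^ 2 + c * ν - lam) - 2) = 0 := by
      linear_combination h2
    have h4 : 2 * ν + c = 0 := by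
      rcases mul_eq_zero.1 h3 with h | h
      · exact h
      · exfalso
        have h5 : ν ^ 2 + c * ν - lam = 1 := by linear_combination h / 2
        have h6 : (-2 : ℂ) * 2 = 0 := by
          rw [← h1]
          have e1 : ν ^ 2 + c * ν - 3 - lam = -2 := by linear_combination h5
          have e2 : ν ^ 2 + c * ν + 1 - lam = 2 := by linear_combination h5
          rw [e1, e2]
        norm_num at h6
    have hν : ν = ((-(c / 2) : ℝ) : ℂ) := by
      push_cast
      linear_combination h4 / 2
    have hlam2 : lam = ((-(c ^ 2 / 4) - 3 : ℝ) : ℂ) ∨ lam = ((1 - c ^ 2 / 4 : ℝ) : ℂ) := by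
      rcases mul_eq_zero.1 h1 with h | h
      · left
        rw [hν] at h
        push_cast at h ⊢
        linear_combination -h
      · right
        rw [hν] at h
        push_cast at h ⊢
        linear_combination -h
    by_contra hc
    push Not at hc
    rcases hlam2 with h | h
    · rw [h, Complex.ofReal_re] at hlam
      nlinarith
    · rw [h, Complex.ofReal_re] at hlam
      nlinarith
  · intro b hb
    by_contra hlt
    push Not at hlt
    obtain ⟨c, hc1, hc2⟩ := exists_between (max_lt hlt (show (0 : ℝ) < 2 by norm_num))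
    have hcb : b < c := (le_max_left _ _).trans_lt hc1
    have hc0 : 0 < c := (le_max_right _ _).trans_lt hc1
    have : c ≤ b := by
      apply hb
      refine ⟨_, _, ?_, Disp_pinched c⟩
      rw [Complex.ofReal_re]
      nlinarith
    linarith

end Pool.Agent.FrontSel98
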