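import Pool.Agent.FrontSel98.Defs

/-!
# The explicit front: derivatives, equation, Jacobians, asymptotics
-/

open MeasureTheory Filter Topology Set Matrix

namespace Pool.Agent.FrontSel98

private theorem Front_den_pos (x : ℝ) : 0 < 1 + Real.exp (3 * x) := by
  have := Real.exp_pos (3 * x)
  linarith

theorem vs_pos (x : ℝ) : 0 < vs x := one_div_pos.2 (Front_den_pos x)

theorem vs_lt_one (x : ℝ) : vs x < 1 := by
  unfold vs
  rw [div_lt_one (Front_den_pos x)]
  have := Real.exp_pos (3 * x)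
  linarith

theorem ws_pos (x : ℝ) : 0 < ws x := Real.rpow_pos_of_pos (vs_pos x) _

theorem ws_lt_one (x : ℝ) : ws x < 1 :=
  Real.rpow_lt_one (vs_pos x).le (vs_lt_one x) (by norm_num)

theorem ws_pow (x : ℝ) : ws x ^ 3 = vs x := by
  unfold ws
  rw [← Real.rpow_natCast, ← Real.rpow_mul (vs_pos x).le]
  norm_num

private theorem Front_one_sub (x : ℝ) : 1 - vs x = Real.exp (3 * x) * vs x := by
  have h := (Front_den_pos x).ne'
  unfold vs
  field_simp
  ring

theorem vs_hasDerivAt (x : ℝ) : HasDerivAt vs (-3 * vs x * (1 - vs x)) x := by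
  have h := (Front_den_pos x).ne'
  have h1 : HasDerivAt (fun x : ℝ => 1 + Real.exp (3 * x)) (Real.exp (3 * x) * 3) x := by
    have h2 : HasDerivAt (fun x : ℝ => 3 * x) 3 x := by
      simpa using (hasDerivAt_id x).const_mul (3 : ℝ)
    exact (h2.exp).const_add 1
  have h3 := h1.inv h
  have e : vs = fun x => (1 + Real.exp (3 * x))⁻¹ := by
    funext y
    unfold vs
    rw [one_div]
  rw [Front_one_sub]
  have h4 : -(Real.exp (3 * x) * 3) / (1 + Real.exp (3 * x)) ^ 2 =
      -3 * vs x * (Real.exp (3 * x) * vs x) := by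
    unfold vs
    field_simp
  rw [← h4, e]
  exact h3

theorem ws_hasDerivAt (x : ℝ) : HasDerivAt ws (-(ws x) * (1 - vs x)) x := by
  have h := (vs_hasDerivAt x).rpow_const (p := (1 / 3 : ℝ)) (Or.inl (vs_pos x).ne')
  have e : -3 * vs x * (1 - vs x) * (1 / 3) * vs x ^ ((1 / 3 : ℝ) - 1) = -(ws x) * (1 - vs x) := by
    have h1 : vs x ^ ((1 / 3 : ℝ) - 1) = ws x / vs x := by
      rw [Real.rpow_sub (vs_pos x), Real.rpow_one]
      rfl
    rw [h1]
    have := (vs_pos x).ne'
    field_simp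
  rw [e] at h
  exact h

theorem vs_contDiff : ContDiff ℝ (⊤ : ℕ∞) vs := by
  unfold vs
  refine ContDiff.div contDiff_const ?_ fun x => (Front_den_pos x).ne'
  exact contDiff_const.add (Real.contDiff_exp.comp (contDiff_const.mul contDiff_id))

theorem ws_contDiff : ContDiff ℝ (⊤ : ℕ∞) ws := by
  unfold ws
  exact vs_contDiff.rpow_const_of_ne fun x => (vs_pos x).ne'

theorem exFront_contDiff : ContDiff ℝ (⊤ : ℕ∞) exFront := by
  rw [contDiff_pi]
  intro i
  fin_cases i
  · exact vs_contDiff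
  · exact ws_contDiff

private theorem Front_hasDerivAt (x : ℝ) :
    HasDerivAt exFront (![-3 * vs x * (1 - vs x), -(ws x) * (1 - vs x)]) x := by
  rw [hasDerivAt_pi]
  intro i
  fin_cases i
  · exact vs_hasDerivAt x
  · exact ws_hasDerivAt x

theorem deriv_exFront (x : ℝ) :
    deriv exFront x = ![-3 * vs x * (1 - vs x), -(ws x) * (1 - vs x)] :=
  (Front_hasDerivAt x).deriv

/-- `P(∂) = ∂²` for the example. -/
theorem exSys_opR (u : ℝ → RV 2) (x : ℝ) : exSys.opR u x = iteratedDeriv 2 u x := by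
  ext i
  fin_cases i <;> simp [Sys.opR, exSys, Finset.sum_range_succ]

private theorem Front_hasDerivAt2 (x : ℝ) :
    HasDerivAt (deriv exFront)
      (![9 * vs x * (1 - vs x) * (1 - 2 * vs x), ws x * (1 - vs x) * (1 - 4 * vs x)]) x := by
  have e : deriv exFront = fun x => ![-3 * vs x * (1 - vs x), -(ws x) * (1 - vs x)] := by
    funext y
    exact deriv_exFront y
  rw [e, hasDerivAt_pi]
  intro i
  have hv := vs_hasDerivAt x
  have hw := ws_hasDerivAt x
  fin_cases i
  · have h1 := (hv.const_mul (-3)).mul (hv.const_sub 1)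
    have e1 : -3 * (-3 * vs x * (1 - vs x)) * (1 - vs x) + -3 * vs x * -(-3 * vs x * (1 - vs x)) =
      9 * vs x * (1 - vs x) * (1 - 2 * vs x) := by ring
    rw [e1] at h1
    exact h1
  · have h1 := (hw.neg).mul (hv.const_sub 1)
    have e1 : -(-(ws x) * (1 - vs x)) * (1 - vs x) + (-ws) x * -(-3 * vs x * (1 - vs x)) =
      ws x * (1 - vs x) * (1 - 4 * vs x) := by
      rw [Pi.neg_apply]
      ring
    rw [e1] at h1
    exact h1

theorem exFront_wave (x : ℝ) :
    exSys.opR exFront x + (2 : ℝ) • deriv exFront x + exSys.f (exFront x) = 0 := by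
  have h2 : iteratedDeriv 2 exFront x =
      ![9 * vs x * (1 - vs x) * (1 - 2 * vs x), ws x * (1 - vs x) * (1 - 4 * vs x)] := by
    rw [iteratedDeriv_succ, iteratedDeriv_one]
    exact (Front_hasDerivAt2 x).deriv
  rw [exSys_opR, h2, deriv_exFront]
  have hw := ws_pow x
  ext i
  fin_cases i
  · simp [exSys, exFront]
    ring
  · simp [exSys, exFront]
    rw [hw]
    ring

theorem exSys_f_contDiff : ContDiff ℝ (⊤ : ℕ∞) exSys.f := by
  rw [contDiff_pi]
  intro i
  have h0 : ContDiff ℝ (⊤ : ℕ∞) (fun y : RV 2 => y 0) := contDiff_apply ℝ ℝ 0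
  have h1 : ContDiff ℝ (⊤ : ℕ∞) (fun y : RV 2 => y 1) := contDiff_apply ℝ ℝ 1
  fin_cases i
  · exact ((contDiff_const.mul h0).mul (contDiff_const.sub h0)).mul
      ((contDiff_const.mul h0).sub contDiff_const)
  · exact h1.mul ((contDiff_const.sub (h1.pow 3)).add
      ((contDiff_const.mul h0).mul (contDiff_const.sub h0)))

private theorem Front_hasFDerivAt (y : RV 2) :
    HasFDerivAt exSys.f (ContinuousLinearMap.pi ![
      (-54 * y 0 ^ 2 + 42 * y 0 - 3) • (ContinuousLinearMap.proj (R := ℝ) (φ := fun _ : Fin 2 => ℝ) 0),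
      (4 * y 1 * (1 - 2 * y 0)) • (ContinuousLinearMap.proj (R := ℝ) (φ := fun _ : Fin 2 => ℝ) 0) +
        (1 - 4 * y 1 ^ 3 + 4 * y 0 * (1 - y 0)) •
          (ContinuousLinearMap.proj (R := ℝ) (φ := fun _ : Fin 2 => ℝ) 1)]) y := by
  rw [hasFDerivAt_pi']
  intro i
  have h0 : HasFDerivAt (fun y : RV 2 => y 0)
      (ContinuousLinearMap.proj (R := ℝ) (φ := fun _ : Fin 2 => ℝ) 0) y := hasFDerivAt_apply 0 y
  have h1 : HasFDerivAt (fun y : RV 2 => y 1)
      (ContinuousLinearMap.proj (R := ℝ) (φ := fun _ : Fin 2 => ℝ) 1) y := hasFDerivAt_apply 1 y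
  fin_cases i
  · have h2 := ((h0.const_mul 3).mul (h0.const_sub 1)).mul ((h0.const_mul 6).sub_const 1)
    refine h2.congr_fderiv ?_
    ext z
    simp
    ring
  · have h2 := h1.mul (((h1.pow 3).const_sub 1).add ((h0.const_mul 4).mul (h0.const_sub 1)))
    refine h2.congr_fderiv ?_
    ext z
    simp
    ring

theorem exSys_jac (y : RV 2) : exSys.jac y =
    !![-54 * y 0 ^ 2 + 42 * y 0 - 3, 0;
       4 * y 1 * (1 - 2 * y 0), 1 - 4 * y 1 ^ 3 + 4 * y 0 * (1 - y 0)] := by
  unfold Sys.jac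
  rw [(Front_hasFDerivAt y).fderiv]
  ext i j
  rw [Matrix.of_apply]
  fin_cases i <;> fin_cases j <;> simp

theorem exSys_jac_front (x : ℝ) : exSys.jac (exFront x) =
    !![-54 * vs x ^ 2 + 42 * vs x - 3, 0; 4 * ws x * (1 - 2 * vs x), 1 - 4 * vs x ^ 2] := by
  rw [exSys_jac]
  have e0 : exFront x 0 = vs x := rfl
  have e1 : exFront x 1 = ws x := rfl
  rw [e0, e1, ws_pow]
  have e2 : 1 - 4 * vs x + 4 * vs x * (1 - vs x) = 1 - 4 * vs x ^ 2 := by ring
  rw [e2]

private theorem Front_vs_le (x : ℝ) : vs x ≤ ws x := by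
  have h1 := ws_pos x
  have h2 := (ws_lt_one x).le
  rw [← ws_pow x]
  calc ws x ^ 3 ≤ ws x ^ 1 := pow_le_pow_of_le_one h1.le h2 (by norm_num)
    _ = ws x := pow_one _

/-- Asymptotics of the front. -/
theorem exFront_left (x : ℝ) (hx : x ≤ 0) :
    ‖exFront x - ![1, 1]‖ ≤ 1 * Real.exp (2 * x) := by
  have hv1 := vs_lt_one x
  have hw1 := ws_lt_one x
  have hle := Front_vs_le x
  have h3 : 1 - vs x ≤ Real.exp (2 * x) := by
    rw [Front_one_sub]
    have h4 : Real.exp (3 * x) ≤ Real.exp (2 * x) := Real.exp_le_exp.2 (by linarith)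
    have h5 := Real.exp_pos (3 * x)
    nlinarith
  rw [one_mul, pi_norm_le_iff_of_nonneg (Real.exp_pos _).le]
  intro i
  fin_cases i
  · show ‖vs x - 1‖ ≤ _
    rw [Real.norm_eq_abs, abs_le]
    constructor <;> linarith
  · show ‖ws x - 1‖ ≤ _
    rw [Real.norm_eq_abs, abs_le]
    constructor <;> linarith

theorem exFront_right (x : ℝ) (hx : 0 ≤ x) :
    ‖exFront x - Real.exp (-1 * x) • ((0 : ℝ) • (x • (![0, 1] : RV 2) + 0) +
      (1 : ℝ) • (![0, 1] : RV 2))‖ ≤ 1 * Real.exp (-(1 + 2) * x) := by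
  set a := Real.exp (-1 * x) with ha
  have ha0 : 0 < a := Real.exp_pos _
  have ha1 : a ≤ 1 := by
    rw [ha]
    exact Real.exp_le_one_iff.2 (by linarith)
  have ha3 : Real.exp (-(1 + 2) * x) = a ^ 3 := by
    rw [ha, ← Real.exp_nat_mul]
    congr 1
    push_cast
    ring
  have hv : vs x = a ^ 3 / (1 + a ^ 3) := by
    have e1 : Real.exp (3 * x) = (a ^ 3)⁻¹ := by
      rw [← ha3, ← Real.exp_neg]
      congr 1
      ring
    have h3 : 0 < a ^ 3 := pow_pos ha0 3
    unfold vs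
    rw [e1]
    field_simp
    ring
  have h3 : 0 < a ^ 3 := pow_pos ha0 3
  have hvle : vs x ≤ a ^ 3 := by
    rw [hv]
    exact div_le_self h3.le (by linarith)
  have hv0 := vs_pos x
  have hw0 := ws_pos x
  have hw3 := ws_pow x
  have hwa : ws x ≤ a := by
    have : ws x ^ 3 ≤ a ^ 3 := by rw [hw3]; exact hvle
    exact le_of_pow_le_pow_left₀ (by norm_num) ha0.le this
  have hdiff : a - ws x ≤ a ^ 3 := by
    have e1 : (a - ws x) * (a ^ 2 + a * ws x + ws x ^ 2) = a ^ 3 - ws x ^ 3 := by ring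
    have e2 : a ^ 3 - ws x ^ 3 ≤ a ^ 6 := by
      rw [hw3, hv]
      have h4 : a ^ 3 - a ^ 3 / (1 + a ^ 3) = a ^ 6 / (1 + a ^ 3) := by
        field_simp
        ring
      rw [h4]
      exact div_le_self (by positivity) (by linarith)
    have e3 : (a - ws x) * a ^ 2 ≤ a ^ 6 := by
      have h5 : 0 ≤ a - ws x := by linarith
      have h6 : a ^ 2 ≤ a ^ 2 + a * ws x + ws x ^ 2 := by
        have := mul_pos ha0 hw0
        have := pow_pos hw0 2
        linarith
      calc (a - ws x) * a ^ 2 ≤ (a - ws x) * (a ^ 2 + a * ws x + ws x ^ 2) :=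
            mul_le_mul_of_nonneg_left h6 h5
        _ = a ^ 3 - ws x ^ 3 := e1
        _ ≤ a ^ 6 := e2
    have h7 : 0 < a ^ 2 := pow_pos ha0 2
    have h8 : a - ws x ≤ a ^ 4 := by
      have h9 : (a - ws x) * a ^ 2 ≤ a ^ 4 * a ^ 2 := by
        calc (a - ws x) * a ^ 2 ≤ a ^ 6 := e3
          _ = a ^ 4 * a ^ 2 := by ring
      exact le_of_mul_le_mul_right h9 h7
    calc a - ws x ≤ a ^ 4 := h8
      _ ≤ a ^ 3 := pow_le_pow_of_le_one ha0.le ha1 (by norm_num)
  have e : (a • ((0 : ℝ) • (x • (![0, 1] : RV 2) + 0) + (1 : ℝ) • (![0, 1] : RV 2))) = ![0, a] := by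
    ext i
    fin_cases i <;> simp
  rw [e, one_mul, ha3, pi_norm_le_iff_of_nonneg h3.le]
  intro i
  fin_cases i
  · show ‖vs x - 0‖ ≤ _
    rw [sub_zero, Real.norm_eq_abs, abs_of_pos hv0]
    exact hvle
  · show ‖ws x - a‖ ≤ _
    rw [Real.norm_eq_abs, abs_le]
    constructor <;> linarith

end Pool.Agent.FrontSel98
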