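import Pool.Agent.FrontSel98.Front

/-!
# Item 5: the kernel of the linearization in `L^∞_{exp,0,1}`

Paper proof. Let `U = (a, b)` solve `L_tr U = 0`, `ω U` bounded.

First component: `a'' + 2a' + (-54v²+42v-3) a = 0`, `|a| ≤ C` on `x ≤ 0`, `|a| ≤ C e^{-x}` on
`x ≥ 0`. Put `φ = 3v(1-v) = -v'` (a positive solution of the same equation). Then
`k = e^{2x}(a' φ - a φ')` is constant and `(a/φ)' = k e^{-2x}/φ²`. As `φ ≤ 3e^{-3x}` one gets
`|a(x)/φ(x) - a(0)/φ(0)| ≥ |k|/9 ∫_0^x e^{4y} dy` while `|a/φ| ≤ C' e^{2x}` for `x ≥ 0` (because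
`φ ≥ (3/4)e^{-3x}` there). Hence `k = 0` and `a = α φ`, i.e. `a = -α v'`.

Second component: subtracting the right multiple of `∂ exFront` we may assume `a = 0`, so
`b'' + 2b' + (1-4v²) b = 0`. `W = e^x b` satisfies `W'' = 4v² W`, `|W| ≤ C` on `x ≥ 0` and
`|W| ≤ C e^x` on `x ≤ 0`. `y = W²` has `y'' = 2W'² + 8v²W² ≥ 0`, so `y` is convex, bounded, hence
constant, and tends to `0` at `-∞`. So `b = 0`.
-/

open MeasureTheory Filter Topology Set Matrix

namespace Pool.Agent.FrontSel98

/-! ### Elementary facts -/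

/-- first component of the derivative of the front -/
noncomputable def kerA (x : ℝ) : ℝ := -3 * vs x * (1 - vs x)

/-- its derivative -/
noncomputable def kerA1 (x : ℝ) : ℝ := 9 * vs x * (1 - vs x) * (1 - 2 * vs x)

/-- its second derivative -/
noncomputable def kerA2 (x : ℝ) : ℝ := -27 * vs x * (1 - vs x) * (1 - 6 * vs x + 6 * vs x ^ 2)

/-- second component of the derivative of the front -/
noncomputable def kerB (x : ℝ) : ℝ := -(ws x) * (1 - vs x)

/-- its derivative -/
noncomputable def kerB1 (x : ℝ) : ℝ := ws x * (1 - vs x) * (1 - 4 * vs x)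

/-- its second derivative -/
noncomputable def kerB2 (x : ℝ) : ℝ := ws x * (1 - vs x) * (-1 + 20 * vs x - 28 * vs x ^ 2)

theorem ker_hasDerivAt_A (x : ℝ) : HasDerivAt kerA (kerA1 x) x := by
  have h := vs_hasDerivAt x
  have h1 := (h.const_mul (-3)).mul (h.const_sub 1)
  refine HasDerivAt.congr_deriv (f := kerA) h1 ?_
  unfold kerA1
  ring

theorem ker_hasDerivAt_A1 (x : ℝ) : HasDerivAt kerA1 (kerA2 x) x := by
  have h := vs_hasDerivAt x
  have h1 := ((h.const_mul 9).mul (h.const_sub 1)).mul ((h.const_mul 2).const_sub 1)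
  refine HasDerivAt.congr_deriv (f := kerA1) h1 ?_
  simp only [Pi.mul_apply]
  unfold kerA2
  ring

theorem ker_hasDerivAt_B (x : ℝ) : HasDerivAt kerB (kerB1 x) x := by
  have h := vs_hasDerivAt x
  have h1 := (ws_hasDerivAt x).neg.mul (h.const_sub 1)
  refine HasDerivAt.congr_deriv (f := kerB) h1 ?_
  simp only [Pi.neg_apply]
  unfold kerB1
  ring

theorem ker_hasDerivAt_B1 (x : ℝ) : HasDerivAt kerB1 (kerB2 x) x := by
  have h := vs_hasDerivAt x
  have h1 := ((ws_hasDerivAt x).mul (h.const_sub 1)).mul ((h.const_mul 4).const_sub 1)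
  refine HasDerivAt.congr_deriv (f := kerB1) h1 ?_
  simp only [Pi.mul_apply]
  unfold kerB2
  ring

theorem ker_deriv_front : deriv exFront = fun x => ![kerA x, kerB x] := by
  funext x
  rw [deriv_exFront]
  rfl

theorem ker_hasDerivAt_vec {f g : ℝ → ℝ} {f' g' x : ℝ} (hf : HasDerivAt f f' x)
    (hg : HasDerivAt g g' x) : HasDerivAt (fun x => (![f x, g x] : RV 2)) ![f', g'] x := by
  rw [hasDerivAt_pi]
  intro i
  fin_cases i
  · exact hf
  · exact hg

theorem ker_deriv2_front : deriv (deriv exFront) = fun x => ![kerA1 x, kerB1 x] := by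
  rw [ker_deriv_front]
  funext x
  exact (ker_hasDerivAt_vec (ker_hasDerivAt_A x) (ker_hasDerivAt_B x)).deriv

theorem ker_deriv3_front : deriv (deriv (deriv exFront)) = fun x => ![kerA2 x, kerB2 x] := by
  rw [ker_deriv2_front]
  funext x
  exact (ker_hasDerivAt_vec (ker_hasDerivAt_A1 x) (ker_hasDerivAt_B1 x)).deriv

theorem ker_iter2 (u : ℝ → RV 2) : iteratedDeriv 2 u = deriv (deriv u) := by
  rw [iteratedDeriv_succ, iteratedDeriv_one]

theorem ker_vs_le (x : ℝ) : vs x ≤ Real.exp (-(3 * x)) := by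
  unfold vs
  rw [Real.exp_neg, one_div]
  exact inv_anti₀ (Real.exp_pos _) (by linarith [Real.exp_pos (3 * x)])

theorem ker_ws_le (x : ℝ) : ws x ≤ Real.exp (-x) := by
  have h1 := ws_pow x
  have h2 := ker_vs_le x
  have h3 : Real.exp (-x) ^ 3 = Real.exp (-(3 * x)) := by
    rw [← Real.exp_nat_mul]
    congr 1
    push_cast
    ring
  refine (pow_le_pow_iff_left₀ (ws_pos x).le (Real.exp_pos _).le (by norm_num : (3 : ℕ) ≠ 0)).1 ?_
  rw [h1, h3]
  exact h2

theorem ker_A_neg (x : ℝ) : kerA x < 0 := by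
  have h1 := vs_pos x
  have h2 := vs_lt_one x
  unfold kerA
  nlinarith [mul_pos h1 (sub_pos.2 h2)]

theorem ker_A_abs_le (x : ℝ) : |kerA x| ≤ 3 * vs x := by
  have h1 := vs_pos x
  have h2 := vs_lt_one x
  rw [abs_of_neg (ker_A_neg x)]
  unfold kerA
  nlinarith [mul_pos h1 h1]

theorem ker_B_abs_le (x : ℝ) : |kerB x| ≤ ws x := by
  have h1 := vs_pos x
  have h2 := vs_lt_one x
  have h3 := ws_pos x
  unfold kerB
  rw [abs_mul, abs_neg, abs_of_pos h3, abs_of_pos (sub_pos.2 h2)]
  nlinarith [mul_pos h1 h3]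

/-! ### The weights -/

theorem ker_weight {ω : ℝ → ℝ} (hω : IsWeight 0 1 ω) :
    ∃ c C : ℝ, 0 < c ∧ 0 < C ∧ ∀ x, c ≤ ω x ∧ c * Real.exp x ≤ ω x ∧
      ω x ≤ C * (1 + Real.exp x) := by
  have hcont : ContinuousOn ω (Icc (-1) 1) := hω.smooth.continuous.continuousOn
  obtain ⟨x₀, hx₀, hmin⟩ := isCompact_Icc.exists_isMinOn (nonempty_Icc.2 (by norm_num)) hcont
  obtain ⟨x₁, hx₁, hmax⟩ := isCompact_Icc.exists_isMaxOn (nonempty_Icc.2 (by norm_num)) hcont
  have hm := hω.pos x₀
  have hM := hω.pos x₁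
  have he := Real.exp_pos 1
  have he1 : 1 ≤ Real.exp 1 := Real.one_le_exp (by norm_num)
  refine ⟨min 1 (ω x₀) / Real.exp 1, max 1 (ω x₁), ?_, ?_, ?_⟩
  · exact div_pos (lt_min one_pos hm) he
  · exact lt_of_lt_of_le one_pos (le_max_left _ _)
  intro x
  have hc1 : min 1 (ω x₀) / Real.exp 1 ≤ min 1 (ω x₀) :=
    div_le_self (lt_min one_pos hm).le he1
  have hex := Real.exp_pos x
  rcases le_or_gt x (-1) with h | h
  · have hωx : ω x = 1 := by rw [hω.left x h, zero_mul, Real.exp_zero]
    have hxe : Real.exp x ≤ 1 := by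
      rw [Real.exp_le_one_iff]; linarith
    rw [hωx]
    have hc2 : min 1 (ω x₀) / Real.exp 1 ≤ 1 := hc1.trans (min_le_left _ _)
    refine ⟨hc2, ?_, ?_⟩
    · calc min 1 (ω x₀) / Real.exp 1 * Real.exp x ≤ 1 * 1 :=
          mul_le_mul hc2 hxe hex.le zero_le_one
        _ = 1 := one_mul 1
    · calc (1 : ℝ) ≤ max 1 (ω x₁) * 1 := by rw [mul_one]; exact le_max_left _ _
        _ ≤ max 1 (ω x₁) * (1 + Real.exp x) :=
          mul_le_mul_of_nonneg_left (by linarith) (le_trans zero_le_one (le_max_left _ _))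
  · rcases le_or_gt x 1 with h' | h'
    · have hx : x ∈ Icc (-1 : ℝ) 1 := ⟨h.le, h'⟩
      have h1 : ω x₀ ≤ ω x := hmin hx
      have h2 : ω x ≤ ω x₁ := hmax hx
      have hxe : Real.exp x ≤ Real.exp 1 := Real.exp_le_exp.2 h'
      refine ⟨(hc1.trans (min_le_right _ _)).trans h1, ?_, ?_⟩
      · calc min 1 (ω x₀) / Real.exp 1 * Real.exp x ≤ min 1 (ω x₀) / Real.exp 1 * Real.exp 1 :=
            mul_le_mul_of_nonneg_left hxe (div_pos (lt_min one_pos hm) he).le
          _ = min 1 (ω x₀) := div_mul_cancel₀ _ he.ne'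
          _ ≤ ω x := (min_le_right _ _).trans h1
      · calc ω x ≤ max 1 (ω x₁) * 1 := by rw [mul_one]; exact h2.trans (le_max_right _ _)
          _ ≤ max 1 (ω x₁) * (1 + Real.exp x) :=
            mul_le_mul_of_nonneg_left (by linarith) (le_trans zero_le_one (le_max_left _ _))
    · have hωx : ω x = Real.exp x := by rw [hω.right x h'.le, one_mul]
      have hc2 : min 1 (ω x₀) / Real.exp 1 ≤ 1 := hc1.trans (min_le_left _ _)
      have hxe : 1 ≤ Real.exp x := Real.one_le_exp (by linarith)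
      rw [hωx]
      refine ⟨hc2.trans hxe, ?_, ?_⟩
      · calc min 1 (ω x₀) / Real.exp 1 * Real.exp x ≤ 1 * Real.exp x :=
            mul_le_mul_of_nonneg_right hc2 hex.le
          _ = Real.exp x := one_mul _
      · calc Real.exp x ≤ 1 * (1 + Real.exp x) := by linarith
          _ ≤ max 1 (ω x₁) * (1 + Real.exp x) :=
            mul_le_mul_of_nonneg_right (le_max_left _ _) (by linarith)

theorem exSys_ker_mem : deriv exFront ≠ 0 ∧
    (∀ x, exSys.opR (deriv exFront) x + (2 : ℝ) • deriv (deriv exFront) x +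
      (exSys.jac (exFront x)).mulVec (deriv exFront x) = 0) ∧
    ∀ ω, IsWeight 0 1 ω → ∃ C, ∀ x, ‖ω x • deriv exFront x‖ ≤ C := by
  refine ⟨?_, ?_, ?_⟩
  · intro h
    have h1 := congrFun (congrFun h 0) 0
    rw [ker_deriv_front] at h1
    exact (ker_A_neg 0).ne h1
  · intro x
    rw [exSys_opR, ker_iter2, ker_deriv3_front, exSys_jac_front, ker_deriv2_front,
      ker_deriv_front]
    ext i
    fin_cases i
    · simp
      unfold kerA kerA1 kerA2
      ring
    · simp
      unfold kerA kerB kerB1 kerB2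
      ring
  · intro ω hω
    obtain ⟨c, C, hc, hC, h⟩ := ker_weight hω
    refine ⟨C * 6, fun x => ?_⟩
    obtain ⟨h1, h2, h3⟩ := h x
    have hex := Real.exp_pos x
    have hv := vs_pos x
    have hv1 := vs_lt_one x
    have hw := ws_pos x
    have hw1 := ws_lt_one x
    have hve : vs x * Real.exp x ≤ 1 := by
      rcases le_or_gt x 0 with h0 | h0
      · have : Real.exp x ≤ 1 := by rw [Real.exp_le_one_iff]; exact h0
        calc vs x * Real.exp x ≤ 1 * 1 := mul_le_mul hv1.le this hex.le zero_le_one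
          _ = 1 := one_mul 1
      · calc vs x * Real.exp x ≤ Real.exp (-(3 * x)) * Real.exp x :=
            mul_le_mul_of_nonneg_right (ker_vs_le x) hex.le
          _ = Real.exp (-(2 * x)) := by rw [← Real.exp_add]; congr 1; ring
          _ ≤ 1 := by rw [Real.exp_le_one_iff]; linarith
    have hwe : ws x * Real.exp x ≤ 1 := by
      calc ws x * Real.exp x ≤ Real.exp (-x) * Real.exp x :=
            mul_le_mul_of_nonneg_right (ker_ws_le x) hex.le
        _ = 1 := by rw [← Real.exp_add, neg_add_cancel, Real.exp_zero]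
    have hωx := hω.pos x
    rw [norm_smul, Real.norm_of_nonneg hωx.le, ker_deriv_front]
    have hn : ‖(![kerA x, kerB x] : RV 2)‖ ≤ max (3 * vs x) (ws x) := by
      rw [pi_norm_le_iff_of_nonneg (le_max_of_le_right hw.le)]
      intro i
      fin_cases i
      · exact (ker_A_abs_le x).trans (le_max_left _ _)
      · exact (ker_B_abs_le x).trans (le_max_right _ _)
    calc ω x * ‖(![kerA x, kerB x] : RV 2)‖ ≤ C * (1 + Real.exp x) * max (3 * vs x) (ws x) :=
          mul_le_mul h3 hn (norm_nonneg _) (by positivity)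
      _ = C * ((1 + Real.exp x) * max (3 * vs x) (ws x)) := by ring
      _ ≤ C * 6 := by
          refine mul_le_mul_of_nonneg_left ?_ hC.le
          rcases le_total (3 * vs x) (ws x) with hm | hm
          · rw [max_eq_right hm]
            nlinarith
          · rw [max_eq_left hm]
            nlinarith

/-! ### The first component -/

/-- lower bound of `|kerA|` -/
theorem ker_A_lower {x : ℝ} (hx : 0 ≤ x) : 3 / 4 * Real.exp (-(3 * x)) ≤ -kerA x := by
  have he := Real.exp_pos (3 * x)
  have h1 : 1 ≤ Real.exp (3 * x) := Real.one_le_exp (by linarith)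
  have hv : 1 / 2 * Real.exp (-(3 * x)) ≤ vs x := by
    unfold vs
    rw [Real.exp_neg, ← one_div, ← mul_div_assoc, mul_one, div_le_div_iff₀ he (by linarith)]
    linarith
  have hv2 : vs x ≤ 1 / 2 := by
    unfold vs
    rw [div_le_div_iff₀ (by linarith) (by norm_num)]
    linarith
  have hv0 := vs_pos x
  have he' := Real.exp_pos (-(3 * x))
  unfold kerA
  nlinarith

theorem ker_A_sq_le (x : ℝ) : kerA x ^ 2 ≤ 9 * Real.exp (-(6 * x)) := by
  have h1 := ker_A_abs_le x
  have h2 := ker_vs_le x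
  have h3 := vs_pos x
  have h4 : |kerA x| ≤ 3 * Real.exp (-(3 * x)) := h1.trans (by linarith)
  calc kerA x ^ 2 = |kerA x| ^ 2 := (sq_abs _).symm
    _ ≤ (3 * Real.exp (-(3 * x))) ^ 2 := pow_le_pow_left₀ (abs_nonneg _) h4 2
    _ = 9 * (Real.exp (-(3 * x)) * Real.exp (-(3 * x))) := by ring
    _ = 9 * Real.exp (-(6 * x)) := by rw [← Real.exp_add]; congr 2; ring

theorem ker_first_aux {a a1 : ℝ → ℝ} {C k : ℝ} (ha : ∀ x, HasDerivAt a (a1 x) x)
    (hC : ∀ x, |a x| ≤ C * Real.exp (-x))
    (hk : ∀ x, Real.exp (2 * x) * (a1 x * kerA x - a x * kerA1 x) = k) : k ≤ 0 := by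
  by_contra hcon
  have hk0 : 0 < k := not_le.1 hcon
  have hr : ∀ x, HasDerivAt (fun x => a x / kerA x - k / 36 * Real.exp (4 * x))
      ((a1 x * kerA x - a x * kerA1 x) / kerA x ^ 2 - k / 9 * Real.exp (4 * x)) x := by
    intro x
    have h1 := (ha x).div (ker_hasDerivAt_A x) (ker_A_neg x).ne
    have h2 : HasDerivAt (fun x : ℝ => Real.exp (4 * x)) (Real.exp (4 * x) * 4) x := by
      have := ((hasDerivAt_id x).const_mul (4 : ℝ)).exp
      simpa using this
    have h3 := h1.sub (h2.const_mul (k / 36))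
    refine HasDerivAt.congr_deriv (f := fun x => a x / kerA x - k / 36 * Real.exp (4 * x)) h3 ?_
    ring
  have hmono : Monotone (fun x => a x / kerA x - k / 36 * Real.exp (4 * x)) := by
    refine monotone_of_deriv_nonneg (fun x => (hr x).differentiableAt) fun x => ?_
    rw [(hr x).deriv]
    have hA := ker_A_neg x
    have hA2 : 0 < kerA x ^ 2 := sq_pos_of_neg hA
    have e1 : a1 x * kerA x - a x * kerA1 x = k * Real.exp (-(2 * x)) := by
      rw [← hk x, mul_comm (Real.exp (2 * x)), mul_assoc, ← Real.exp_add, add_neg_cancel,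
        Real.exp_zero, mul_one]
    rw [e1, sub_nonneg, le_div_iff₀ hA2]
    calc k / 9 * Real.exp (4 * x) * kerA x ^ 2 ≤
          k / 9 * Real.exp (4 * x) * (9 * Real.exp (-(6 * x))) :=
          mul_le_mul_of_nonneg_left (ker_A_sq_le x) (by positivity)
      _ = k * (Real.exp (4 * x) * Real.exp (-(6 * x))) := by ring
      _ = k * Real.exp (-(2 * x)) := by rw [← Real.exp_add]; congr 2; ring
  -- growth
  have hgrow : ∀ x : ℝ, 0 ≤ x → a x / kerA x ≤ 4 / 3 * C * Real.exp (2 * x) := by
    intro x hx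
    have h1 := ker_A_lower hx
    have h2 := hC x
    have he := Real.exp_pos (-(3 * x))
    have hA : 0 < -kerA x := lt_of_lt_of_le (mul_pos (by norm_num) he) h1
    have hCe : 0 ≤ C * Real.exp (-x) := (abs_nonneg _).trans h2
    have hC0 : 0 ≤ C := by
      by_contra hc
      have := mul_neg_of_neg_of_pos (not_le.1 hc) (Real.exp_pos (-x))
      linarith
    have h3 : a x / kerA x ≤ C * Real.exp (-x) / (3 / 4 * Real.exp (-(3 * x))) := by
      rw [← neg_div_neg_eq]
      calc -a x / -kerA x ≤ C * Real.exp (-x) / -kerA x :=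
            div_le_div_of_nonneg_right ((neg_le_abs _).trans h2) hA.le
        _ ≤ C * Real.exp (-x) / (3 / 4 * Real.exp (-(3 * x))) :=
            div_le_div_of_nonneg_left hCe (by positivity) h1
    refine h3.trans (le_of_eq ?_)
    rw [div_eq_iff (by positivity)]
    have : Real.exp (2 * x) * Real.exp (-(3 * x)) = Real.exp (-x) := by
      rw [← Real.exp_add]; congr 1; ring
    rw [← this]
    ring
  have hC0 : 0 ≤ C := by
    have h := (abs_nonneg _).trans (hC 0)
    rwa [neg_zero, Real.exp_zero, mul_one] at h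
  set R := a 0 / kerA 0 - k / 36 * Real.exp (4 * 0) with hR
  -- choose x with exp (2x) large
  obtain ⟨x, hx0, hx⟩ : ∃ x : ℝ, 0 ≤ x ∧ (36 / k) * (4 / 3 * C + |R| + 1) < Real.exp (2 * x) := by
    refine ⟨|(36 / k) * (4 / 3 * C + |R| + 1)|, abs_nonneg _, ?_⟩
    set z := (36 / k) * (4 / 3 * C + |R| + 1)
    have h1 := Real.add_one_le_exp (2 * |z|)
    have h2 := le_abs_self z
    have h3 := abs_nonneg z
    linarith
  have h1 := hmono hx0
  have h2 := hgrow x hx0
  have h3 : 1 ≤ Real.exp (2 * x) := Real.one_le_exp (by linarith)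
  have h4 : Real.exp (4 * x) = Real.exp (2 * x) * Real.exp (2 * x) := by
    rw [← Real.exp_add]; congr 1; ring
  change a 0 / kerA 0 - k / 36 * Real.exp (4 * 0) ≤ a x / kerA x - k / 36 * Real.exp (4 * x) at h1
  rw [← hR, h4] at h1
  have h5 : (4 / 3 * C + |R| + 1) < k / 36 * Real.exp (2 * x) := by
    have h6 := mul_lt_mul_of_pos_left hx (show 0 < k / 36 by positivity)
    have e : k / 36 * (36 / k * (4 / 3 * C + |R| + 1)) = 4 / 3 * C + |R| + 1 := by
      field_simp
    rwa [e] at h6
  have h7 := neg_abs_le R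
  have h8 := abs_nonneg R
  have h9 := mul_lt_mul_of_pos_right h5 (lt_of_lt_of_le one_pos h3)
  nlinarith

theorem ker_first {a a1 a2 : ℝ → ℝ} {C : ℝ} (ha : ∀ x, HasDerivAt a (a1 x) x)
    (ha1 : ∀ x, HasDerivAt a1 (a2 x) x)
    (heq : ∀ x, a2 x + 2 * a1 x + (-54 * vs x ^ 2 + 42 * vs x - 3) * a x = 0)
    (hC : ∀ x, |a x| ≤ C * Real.exp (-x)) : ∃ α : ℝ, ∀ x, a x = α * kerA x := by
  have hw : ∀ x, HasDerivAt
      (fun x => Real.exp (2 * x) * (a1 x * kerA x - a x * kerA1 x)) 0 x := by
    intro x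
    have h2 : HasDerivAt (fun x : ℝ => Real.exp (2 * x)) (Real.exp (2 * x) * 2) x := by
      have := ((hasDerivAt_id x).const_mul (2 : ℝ)).exp
      simpa using this
    have h3 := h2.mul (((ha1 x).mul (ker_hasDerivAt_A x)).sub
      ((ha x).mul (ker_hasDerivAt_A1 x)))
    refine HasDerivAt.congr_deriv
      (f := fun x => Real.exp (2 * x) * (a1 x * kerA x - a x * kerA1 x)) h3 ?_
    have e1 : a2 x = -(2 * a1 x) - (-54 * vs x ^ 2 + 42 * vs x - 3) * a x := by
      have := heq x
      linarith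
    simp only [Pi.mul_apply, Pi.sub_apply]
    rw [e1]
    unfold kerA kerA1 kerA2
    ring
  have hconst : ∀ x, Real.exp (2 * x) * (a1 x * kerA x - a x * kerA1 x) =
      Real.exp (2 * 0) * (a1 0 * kerA 0 - a 0 * kerA1 0) := by
    intro x
    exact is_const_of_deriv_eq_zero (fun x => (hw x).differentiableAt)
      (fun x => (hw x).deriv) x 0
  set k := Real.exp (2 * 0) * (a1 0 * kerA 0 - a 0 * kerA1 0) with hk
  have hk1 : k ≤ 0 := ker_first_aux ha hC hconst
  have hk2 : -k ≤ 0 := by
    refine ker_first_aux (a := fun x => -a x) (a1 := fun x => -a1 x) (C := C)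
      (fun x => (ha x).neg) (fun x => by rw [abs_neg]; exact hC x) fun x => ?_
    rw [← hconst x]
    ring
  have hk0 : k = 0 := le_antisymm hk1 (by linarith)
  have hr : ∀ x, HasDerivAt (fun x => a x / kerA x) 0 x := by
    intro x
    have h1 := (ha x).div (ker_hasDerivAt_A x) (ker_A_neg x).ne
    have e1 : a1 x * kerA x - a x * kerA1 x = 0 := by
      have := hconst x
      rw [hk0] at this
      rcases mul_eq_zero.1 this with h | h
      · exact absurd h (Real.exp_pos _).ne'
      · exact h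
    rw [e1, zero_div] at h1
    exact h1
  refine ⟨a 0 / kerA 0, fun x => ?_⟩
  have h1 : a x / kerA x = a 0 / kerA 0 :=
    is_const_of_deriv_eq_zero (fun x => (hr x).differentiableAt) (fun x => (hr x).deriv) x 0
  rw [← h1, div_mul_cancel₀ _ (ker_A_neg x).ne]

/-! ### The second component -/

theorem ker_second {b b1 b2 : ℝ → ℝ} {C : ℝ} (hb : ∀ x, HasDerivAt b (b1 x) x)
    (hb1 : ∀ x, HasDerivAt b1 (b2 x) x)
    (heq : ∀ x, b2 x + 2 * b1 x + (1 - 4 * vs x ^ 2) * b x = 0)
    (hC : ∀ x, |b x| ≤ C) (hC' : ∀ x, |b x| ≤ C * Real.exp (-x)) : ∀ x, b x = 0 := by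
  set W : ℝ → ℝ := fun x => Real.exp x * b x with hW
  set W1 : ℝ → ℝ := fun x => Real.exp x * (b x + b1 x) with hW1
  have hWd : ∀ x, HasDerivAt W (W1 x) x := by
    intro x
    have h := (Real.hasDerivAt_exp x).mul (hb x)
    refine HasDerivAt.congr_deriv (f := W) h ?_
    simp only [hW1]
    ring
  have hW1d : ∀ x, HasDerivAt W1 (4 * vs x ^ 2 * W x) x := by
    intro x
    have h := (Real.hasDerivAt_exp x).mul ((hb x).add (hb1 x))
    refine HasDerivAt.congr_deriv (f := W1) h ?_
    have e1 : b2 x = -(2 * b1 x) - (1 - 4 * vs x ^ 2) * b x := by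
      have := heq x
      linarith
    simp only [hW, Pi.add_apply]
    rw [e1]
    ring
  have hC0 : 0 ≤ C := (abs_nonneg _).trans (hC 0)
  have hWb : ∀ x, |W x| ≤ C := by
    intro x
    have h := mul_le_mul_of_nonneg_left (hC' x) (Real.exp_pos x).le
    have e : Real.exp x * (C * Real.exp (-x)) = C := by
      have : Real.exp x * Real.exp (-x) = 1 := by
        rw [← Real.exp_add, add_neg_cancel, Real.exp_zero]
      calc Real.exp x * (C * Real.exp (-x)) = C * (Real.exp x * Real.exp (-x)) := by ring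
        _ = C := by rw [this, mul_one]
    simp only [hW]
    rw [abs_mul, abs_of_pos (Real.exp_pos x)]
    rw [e] at h
    exact h
  have hWl : ∀ x, |W x| ≤ C * Real.exp x := by
    intro x
    simp only [hW]
    rw [abs_mul, abs_of_pos (Real.exp_pos x), mul_comm]
    exact mul_le_mul_of_nonneg_right (hC x) (Real.exp_pos x).le
  -- y = W²
  have hy : ∀ x, HasDerivAt (fun x => W x ^ 2) (2 * W x * W1 x) x := by
    intro x
    have h := (hWd x).pow 2
    refine HasDerivAt.congr_deriv (f := fun x => W x ^ 2) h ?_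
    push_cast
    ring
  have hy1 : ∀ x, HasDerivAt (fun x => 2 * W x * W1 x)
      (2 * W1 x ^ 2 + 8 * vs x ^ 2 * W x ^ 2) x := by
    intro x
    have h := ((hWd x).const_mul 2).mul (hW1d x)
    refine HasDerivAt.congr_deriv (f := fun x => 2 * W x * W1 x) h ?_
    ring
  have hmono : Monotone (fun x => 2 * W x * W1 x) := by
    refine monotone_of_deriv_nonneg (fun x => (hy1 x).differentiableAt) fun x => ?_
    rw [(hy1 x).deriv]
    positivity
  have hybd : ∀ x, W x ^ 2 ≤ C ^ 2 := by
    intro x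
    rw [← sq_abs]
    exact pow_le_pow_left₀ (abs_nonneg _) (hWb x) 2
  have hzero : ∀ x₀, 2 * W x₀ * W1 x₀ = 0 := by
    intro x₀
    by_contra hne
    set s := 2 * W x₀ * W1 x₀ with hs
    rcases lt_or_gt_of_ne hne with hneg | hpos
    · -- go left
      have hd : ∀ x, HasDerivAt (fun x => W x ^ 2 - s * x) (2 * W x * W1 x - s) x := by
        intro x
        have h := (hy x).sub ((hasDerivAt_id x).const_mul s)
        refine HasDerivAt.congr_deriv (f := fun x => W x ^ 2 - s * x) h ?_
        ring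
      have hanti : AntitoneOn (fun x => W x ^ 2 - s * x) (Iic x₀) := by
        refine antitoneOn_of_deriv_nonpos (convex_Iic _)
          (fun x _ => (hd x).continuousAt.continuousWithinAt)
          (fun x _ => (hd x).differentiableAt.differentiableWithinAt) fun x hx => ?_
        rw [interior_Iic] at hx
        rw [(hd x).deriv]
        have := hmono (le_of_lt hx)
        simp only at this
        linarith
      set t := (C ^ 2 + 1) / (-s) with ht
      have hs' : 0 < -s := by linarith
      have ht0 : 0 ≤ t := by positivity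
      have h1 := hanti (show x₀ - t ∈ Iic x₀ from by simp [ht0]) (Set.mem_Iic.2 le_rfl)
        (by linarith)
      simp only at h1
      have h2 := hybd (x₀ - t)
      have h3 : -s * t = C ^ 2 + 1 := mul_div_cancel₀ _ hs'.ne'
      have h4 := sq_nonneg (W x₀)
      nlinarith
    · have hd : ∀ x, HasDerivAt (fun x => W x ^ 2 - s * x) (2 * W x * W1 x - s) x := by
        intro x
        have h := (hy x).sub ((hasDerivAt_id x).const_mul s)
        refine HasDerivAt.congr_deriv (f := fun x => W x ^ 2 - s * x) h ?_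
        ring
      have hmon : MonotoneOn (fun x => W x ^ 2 - s * x) (Ici x₀) := by
        refine monotoneOn_of_deriv_nonneg (convex_Ici _)
          (fun x _ => (hd x).continuousAt.continuousWithinAt)
          (fun x _ => (hd x).differentiableAt.differentiableWithinAt) fun x hx => ?_
        rw [interior_Ici] at hx
        rw [(hd x).deriv]
        have := hmono (le_of_lt hx)
        simp only at this
        linarith
      set t := (C ^ 2 + 1) / s with ht
      have ht0 : 0 ≤ t := by positivity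
      have h1 := hmon (Set.mem_Ici.2 le_rfl) (show x₀ + t ∈ Ici x₀ from by simp [ht0])
        (by linarith)
      simp only at h1
      have h2 := hybd (x₀ + t)
      have h3 : s * t = C ^ 2 + 1 := mul_div_cancel₀ _ hpos.ne'
      have h4 := sq_nonneg (W x₀)
      nlinarith
  have hyc : ∀ x z, W x ^ 2 = W z ^ 2 := by
    intro x z
    refine is_const_of_deriv_eq_zero (f := fun x => W x ^ 2) (fun x => (hy x).differentiableAt)
      (fun x => ?_) x z
    rw [(hy x).deriv]
    exact hzero x
  have hlim : Tendsto (fun z : ℝ => (C * Real.exp z) ^ 2) atBot (𝓝 0) := by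
    have h := (Real.tendsto_exp_atBot.const_mul C).pow 2
    simpa using h
  have hW0 : ∀ x, W x = 0 := by
    intro x
    have h1 : W x ^ 2 ≤ 0 := by
      refine ge_of_tendsto' hlim fun z => ?_
      rw [hyc x z, ← sq_abs]
      exact pow_le_pow_left₀ (abs_nonneg _) (hWl z) 2
    exact pow_eq_zero_iff (two_ne_zero) |>.1 (le_antisymm h1 (sq_nonneg _))
  intro x
  have := hW0 x
  simp only [hW] at this
  rcases mul_eq_zero.1 this with h | h
  · exact absurd h (Real.exp_pos _).ne'
  · exact h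

theorem exSys_ker (ω : ℝ → ℝ) (hω : IsWeight 0 1 ω) (U : ℝ → RV 2)
    (hU : ContDiff ℝ (2 * (1 : ℕ)) U)
    (hL : ∀ x, exSys.opR U x + (2 : ℝ) • deriv U x + (exSys.jac (exFront x)).mulVec (U x) = 0)
    (hb : ∃ C, ∀ x, ‖ω x • U x‖ ≤ C) : ∃ α : ℝ, U = α • deriv exFront := by
  have hU2 : ContDiff ℝ 2 U := by
    have e : ((2 * (1 : ℕ) : ℕ∞) : WithTop ℕ∞) = 2 := by norm_num
    simpa using hU
  have hU1 : ∀ x, HasDerivAt U (deriv U x) x := fun x =>
    (hU2.differentiable (by norm_num) x).hasDerivAt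
  have hdU : ContDiff ℝ 1 (deriv U) := by
    have h : ContDiff ℝ (1 + 1) U := by
      have e : (1 + 1 : WithTop ℕ∞) = 2 := by norm_num
      rw [e]; exact hU2
    exact (contDiff_succ_iff_deriv.1 h).2.2
  have hU3 : ∀ x, HasDerivAt (deriv U) (deriv (deriv U) x) x := fun x =>
    (hdU.differentiable (by norm_num) x).hasDerivAt
  have hcomp : ∀ i x, HasDerivAt (fun x => U x i) (deriv U x i) x := fun i x =>
    (hasDerivAt_pi.1 (hU1 x)) i
  have hcomp1 : ∀ i x, HasDerivAt (fun x => deriv U x i) (deriv (deriv U) x i) x := fun i x =>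
    (hasDerivAt_pi.1 (hU3 x)) i
  have hL' : ∀ x, deriv (deriv U) x + (2 : ℝ) • deriv U x +
      (!![-54 * vs x ^ 2 + 42 * vs x - 3, 0; 4 * ws x * (1 - 2 * vs x), 1 - 4 * vs x ^ 2] :
        Matrix (Fin 2) (Fin 2) ℝ).mulVec (U x) = 0 := by
    intro x
    have h := hL x
    rw [exSys_opR, ker_iter2, exSys_jac_front] at h
    exact h
  have heq0 : ∀ x, deriv (deriv U) x 0 + 2 * deriv U x 0 +
      (-54 * vs x ^ 2 + 42 * vs x - 3) * U x 0 = 0 := by
    intro x
    have h := congrFun (hL' x) 0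
    simp [dotProduct, Fin.sum_univ_two] at h
    linear_combination h
  have heq1 : ∀ x, deriv (deriv U) x 1 + 2 * deriv U x 1 +
      (4 * ws x * (1 - 2 * vs x) * U x 0 + (1 - 4 * vs x ^ 2) * U x 1) = 0 := by
    intro x
    have h := congrFun (hL' x) 1
    simp [dotProduct, Fin.sum_univ_two] at h
    linear_combination h
  obtain ⟨c, Cω, hc, hCω, hωb⟩ := ker_weight hω
  obtain ⟨C, hC⟩ := hb
  have hC0 : 0 ≤ C := (norm_nonneg _).trans (hC 0)
  have hbd : ∀ i x, |U x i| ≤ C / c ∧ |U x i| ≤ C / c * Real.exp (-x) := by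
    intro i x
    obtain ⟨h1, h2, h3⟩ := hωb x
    have h4 : ω x * |U x i| ≤ C := by
      have h5 := hC x
      rw [norm_smul, Real.norm_of_nonneg (hω.pos x).le] at h5
      refine le_trans (mul_le_mul_of_nonneg_left ?_ (hω.pos x).le) h5
      exact norm_le_pi_norm (U x) i
    constructor
    · rw [le_div_iff₀ hc, mul_comm]
      exact (mul_le_mul_of_nonneg_right h1 (abs_nonneg _)).trans h4
    · have h6 : c * Real.exp x * |U x i| ≤ C :=
        (mul_le_mul_of_nonneg_right h2 (abs_nonneg _)).trans h4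
      rw [Real.exp_neg, ← div_eq_mul_inv, div_div, le_div_iff₀ (by positivity), mul_comm]
      exact h6
  obtain ⟨α, hα⟩ := ker_first (C := C / c) (fun x => hcomp 0 x) (fun x => hcomp1 0 x) heq0
    (fun x => (hbd 0 x).2)
  refine ⟨α, ?_⟩
  -- bound for kerB
  have hBb : ∀ x, |kerB x| ≤ 1 ∧ |kerB x| ≤ 1 * Real.exp (-x) := by
    intro x
    have h1 := ker_B_abs_le x
    refine ⟨h1.trans (ws_lt_one x).le, ?_⟩
    rw [one_mul]
    exact h1.trans (ker_ws_le x)
  have hzero := ker_second (b := fun x => U x 1 - α * kerB x)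
    (b1 := fun x => deriv U x 1 - α * kerB1 x)
    (b2 := fun x => deriv (deriv U) x 1 - α * kerB2 x) (C := C / c + |α|)
    (fun x => (hcomp 1 x).sub ((ker_hasDerivAt_B x).const_mul α))
    (fun x => (hcomp1 1 x).sub ((ker_hasDerivAt_B1 x).const_mul α))
    (fun x => by
      have h1 := heq1 x
      rw [hα x] at h1
      have h2 : kerB2 x + 2 * kerB1 x + (4 * ws x * (1 - 2 * vs x) * kerA x +
          (1 - 4 * vs x ^ 2) * kerB x) = 0 := by
        unfold kerA kerB kerB1 kerB2
        ring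
      linear_combination h1 - α * h2)
    (fun x => by
      have h1 := (hbd 1 x).1
      have h2 := (hBb x).1
      calc |U x 1 - α * kerB x| ≤ |U x 1| + |α * kerB x| := abs_sub _ _
        _ ≤ C / c + |α| := by
          rw [abs_mul]
          have := mul_le_mul_of_nonneg_left h2 (abs_nonneg α)
          linarith)
    (fun x => by
      have h1 := (hbd 1 x).2
      have h2 := (hBb x).2
      calc |U x 1 - α * kerB x| ≤ |U x 1| + |α * kerB x| := abs_sub _ _
        _ ≤ (C / c + |α|) * Real.exp (-x) := by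
          rw [abs_mul]
          have := mul_le_mul_of_nonneg_left h2 (abs_nonneg α)
          linarith)
  funext x
  ext i
  rw [ker_deriv_front]
  fin_cases i
  · exact hα x
  · have h7 : U x 1 - α * kerB x = 0 := hzero x
    change U x 1 = α * kerB x
    linarith

end Pool.Agent.FrontSel98
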