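import Pool.Agent.FrontSel98.Cont
import Pool.Agent.FrontSel98.Front

/-!
# The spectra of `L_0` and `L_tr`
-/

open MeasureTheory Filter Topology Set Matrix

namespace Pool.Agent.FrontSel98

/-! ### Weights -/

theorem spec_weight_comp {ω : ℝ → ℝ} (hω : IsWeight 0 1 ω) :
    ∃ K > 0, ∀ x, 1 + Real.exp x ≤ K * ω x ∧ ω x ≤ K * (1 + Real.exp x) := by
  have hc : Continuous ω := hω.smooth.continuous
  obtain ⟨a, ha, hamin⟩ := isCompact_Icc.exists_isMinOn (nonempty_Icc.2 (by norm_num :
    (-1 : ℝ) ≤ 1)) hc.continuousOn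
  obtain ⟨b, hb, hbmax⟩ := isCompact_Icc.exists_isMaxOn (nonempty_Icc.2 (by norm_num :
    (-1 : ℝ) ≤ 1)) hc.continuousOn
  have hm : 0 < ω a := hω.pos a
  have hM : 0 < ω b := hω.pos b
  refine ⟨2 + (1 + Real.exp 1) / ω a + ω b, by positivity, fun x => ?_⟩
  have hex := Real.exp_pos x
  have h1 : 0 < (1 + Real.exp 1) / ω a := by positivity
  rcases le_total x (-1) with hx | hx
  · have e : ω x = 1 := by rw [hω.left x hx]; simp
    rw [e]
    have h2 : Real.exp x ≤ 1 := Real.exp_le_one_iff.2 (by linarith)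
    constructor
    · linarith
    · nlinarith
  · rcases le_total x 1 with hx' | hx'
    · have hxm : x ∈ Icc (-1 : ℝ) 1 := ⟨hx, hx'⟩
      have h2 : ω a ≤ ω x := hamin hxm
      have h3 : ω x ≤ ω b := hbmax hxm
      have h4 : Real.exp x ≤ Real.exp 1 := Real.exp_le_exp.2 hx'
      constructor
      · have h5 : 1 + Real.exp 1 ≤ (1 + Real.exp 1) / ω a * ω x := by
          rw [div_mul_eq_mul_div, le_div_iff₀ hm]
          exact mul_le_mul_of_nonneg_left h2 (by positivity)
        have h6 : 0 < ω x := hω.pos x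
        nlinarith
      · nlinarith
    · have e : ω x = Real.exp x := by rw [hω.right x hx']; simp
      rw [e]
      have h2 : 1 ≤ Real.exp x := Real.one_le_exp (by linarith)
      constructor
      · nlinarith
      · nlinarith

theorem spec_ww {ω : ℝ → ℝ} (hω : IsWeight 0 1 ω) : WW ω := by
  obtain ⟨K, hK0, hK⟩ := spec_weight_comp hω
  refine ⟨hω.smooth.continuous, hω.pos, K ^ 2, by positivity, fun x y hxy => ⟨?_, ?_⟩⟩
  · have h1 : 1 + Real.exp x ≤ Real.exp (x - y) * (1 + Real.exp y) := by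
      rw [mul_add, ← Real.exp_add, sub_add_cancel, mul_one]
      have : 1 ≤ Real.exp (x - y) := Real.one_le_exp (by linarith)
      linarith
    calc ω x ≤ K * (1 + Real.exp x) := (hK x).2
      _ ≤ K * (Real.exp (x - y) * (1 + Real.exp y)) := mul_le_mul_of_nonneg_left h1 hK0.le
      _ ≤ K * (Real.exp (x - y) * (K * ω y)) := by
          have := (hK y).1
          have h2 := Real.exp_pos (x - y)
          gcongr
      _ = K ^ 2 * Real.exp (x - y) * ω y := by ring
  · have h1 : 1 + Real.exp y ≤ 1 + Real.exp x := by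
      have := Real.exp_le_exp.2 hxy
      linarith
    calc ω y ≤ K * (1 + Real.exp y) := (hK y).2
      _ ≤ K * (1 + Real.exp x) := mul_le_mul_of_nonneg_left h1 hK0.le
      _ ≤ K * (K * ω x) := mul_le_mul_of_nonneg_left (hK x).1 hK0.le
      _ = K ^ 2 * ω x := by ring

/-! ### The scalar operators -/

theorem spec_vs_continuous : Continuous vs := vs_contDiff.continuous

theorem spec_ws_continuous : Continuous ws := ws_contDiff.continuous

theorem spec_one_sub_vs (x : ℝ) : 1 - vs x ≤ Real.exp (2 * x) := by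
  have h : 1 - vs x = Real.exp (3 * x) / (1 + Real.exp (3 * x)) := by
    have : 0 < 1 + Real.exp (3 * x) := by positivity
    rw [vs]; field_simp; ring
  rw [h, div_le_iff₀ (by positivity), mul_add, mul_one, ← Real.exp_add]
  rcases le_total x 0 with hx | hx
  · have h1 : Real.exp (3 * x) ≤ Real.exp (2 * x) := Real.exp_le_exp.2 (by linarith)
    have h2 := Real.exp_pos (2 * x + 3 * x)
    linarith
  · have h1 : Real.exp (3 * x) ≤ Real.exp (2 * x + 3 * x) := Real.exp_le_exp.2 (by linarith)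
    have h2 := Real.exp_pos (2 * x)
    linarith

/-- `F'(v_*)`. -/
noncomputable def qv (x : ℝ) : ℝ := -54 * vs x ^ 2 + 42 * vs x - 3

/-- `G_w(v_*, w_*)`. -/
noncomputable def qw (x : ℝ) : ℝ := 1 - 4 * vs x ^ 2

theorem qv_continuous : Continuous qv := by
  have := spec_vs_continuous
  unfold qv
  fun_prop

theorem qw_continuous : Continuous qw := by
  have := spec_vs_continuous
  unfold qw
  fun_prop

theorem qv_bdd : ∃ B, ∀ x, |qv x| ≤ B := by
  refine ⟨99, fun x => ?_⟩
  have h1 := vs_pos x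
  have h2 := vs_lt_one x
  rw [abs_le]
  unfold qv
  constructor <;> nlinarith

theorem qw_bdd : ∃ B, ∀ x, |qw x| ≤ B := by
  refine ⟨5, fun x => ?_⟩
  have h1 := vs_pos x
  have h2 := vs_lt_one x
  rw [abs_le]
  unfold qw
  constructor <;> nlinarith

theorem qv_fpos : FPos (fun x => 1 - qv x) := by
  have hc := spec_vs_continuous
  refine FPos.of_riccati (s := fun x => 6 * vs x - 2)
    (s' := fun x => 6 * (-3 * vs x * (1 - vs x))) (fun x => ?_) (by fun_prop)
    ⟨18, fun x => ?_⟩ (continuous_const.sub qv_continuous) ⟨100, fun x => ?_⟩ (fun x => ?_)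
  · exact ((vs_hasDerivAt x).const_mul 6).sub_const 2
  · have h1 := vs_pos x
    have h2 := vs_lt_one x
    rw [abs_le, abs_le]
    refine ⟨⟨?_, ?_⟩, ⟨?_, ?_⟩⟩ <;> nlinarith
  · have h1 := vs_pos x
    have h2 := vs_lt_one x
    rw [abs_le]
    unfold qv
    constructor <;> nlinarith
  · unfold qv
    nlinarith

theorem qw_fpos : FPos (fun x => 1 - qw x) := FPos.of_nonneg fun x => by
  unfold qw
  nlinarith [sq_nonneg (vs x)]

theorem qv_neg (x : ℝ) : qv x ≤ -3 + 66 * Real.exp (2 * x) := by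
  have h1 := vs_pos x
  have h2 := vs_lt_one x
  have h3 := spec_one_sub_vs x
  unfold qv
  nlinarith

theorem qw_neg (x : ℝ) : qw x ≤ -3 + 66 * Real.exp (2 * x) := by
  have h1 := vs_pos x
  have h2 := vs_lt_one x
  have h3 := spec_one_sub_vs x
  have h4 := Real.exp_pos (2 * x)
  unfold qw
  nlinarith

/-! ### The triangular system -/

theorem spec_opC (c : ℝ) (A : ℝ → Matrix (Fin 2) (Fin 2) ℝ) (U : ℕ → ℝ → CV 2) (x : ℝ) :
    exSys.opC c A U x = U 2 x + (c : ℂ) • U 1 x + (cMat (A x)).mulVec (U 0 x) := by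
  have h0 : cMat (0 : Matrix (Fin 2) (Fin 2) ℝ) = 0 := by
    ext i j; simp [cMat]
  have h1 : cMat (1 : Matrix (Fin 2) (Fin 2) ℝ) = 1 := by
    ext i j
    simp only [cMat, Matrix.map_apply, Matrix.one_apply]
    split_ifs <;> simp
  simp only [Sys.opC, exSys, Nat.mul_one, Finset.sum_range_succ, Finset.sum_range_zero, zero_add]
  simp [h0, h1]

theorem spec_proj_int {f : ℝ → CV 2} {a b : ℝ} (hf : IntervalIntegrable f volume a b) (i : Fin 2) :
    (∫ t in a..b, f t) i = ∫ t in a..b, f t i := by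
  have := (ContinuousLinearMap.proj (R := ℂ) (φ := fun _ : Fin 2 => ℂ) i).intervalIntegral_comp_comm
    hf
  simpa using this.symm

theorem spec_sob_comp {ω : ℝ → ℝ} {U : ℕ → ℝ → CV 2} (hU : IsSob ω (2 * 1) U) (i : Fin 2) :
    SSob ω (fun x => U 0 x i) (fun x => U 1 x i) (fun x => U 2 x i) := by
  have hint : ∀ j < 2 * 1, ∀ a b : ℝ, IntervalIntegrable (fun x => U (j + 1) x i) volume a b := by
    intro j hj a b
    have h := hU.int j hj a b
    exact ⟨h.1.eval i, h.2.eval i⟩
  have hprim : ∀ j < 2 * 1, Prim (fun x => U j x i) (fun x => U (j + 1) x i) := by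
    intro j hj
    refine ⟨hint j hj, fun a b => ?_⟩
    rw [← spec_proj_int (hU.int j hj a b) i, ← hU.ftc j hj a b]
    rfl
  have hmem : ∀ j ≤ 2 * 1, MemLp (fun x => (ω x : ℂ) * U j x i) 2 volume := by
    intro j hj
    have := (hU.mem j hj).eval i
    refine this.ae_eq (ae_of_all _ fun x => ?_)
    simp
  exact ⟨hprim 0 (by norm_num), hprim 1 (by norm_num), hmem 0 (by norm_num), hmem 1 (by norm_num),
    hmem 2 (by norm_num)⟩

theorem spec_sob_mk {ω : ℝ → ℝ} {u0 u1 u2 w0 w1 w2 : ℝ → ℂ} (hu : SSob ω u0 u1 u2)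
    (hw : SSob ω w0 w1 w2) :
    IsSob ω (2 * 1) (fun j x => if j = 0 then ![u0 x, w0 x] else if j = 1 then ![u1 x, w1 x]
      else ![u2 x, w2 x] : ℕ → ℝ → CV 2) := by
  have hmk : ∀ {f g : ℝ → ℂ} {a b : ℝ}, IntervalIntegrable f volume a b →
      IntervalIntegrable g volume a b →
      IntervalIntegrable (fun x => (![f x, g x] : CV 2)) volume a b := by
    intro f g a b hf hg
    constructor
    · exact Integrable.of_eval fun i => by
        fin_cases i
        · exact hf.1
        · exact hg.1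
    · exact Integrable.of_eval fun i => by
        fin_cases i
        · exact hf.2
        · exact hg.2
  have hmem : ∀ {f g : ℝ → ℂ}, MemLp (fun x => (ω x : ℂ) * f x) 2 volume →
      MemLp (fun x => (ω x : ℂ) * g x) 2 volume →
      MemLp (fun x => ω x • (![f x, g x] : CV 2)) 2 volume := by
    intro f g hf hg
    refine MemLp.of_eval fun i => ?_
    fin_cases i
    · refine hf.ae_eq (ae_of_all _ fun x => ?_)
      simp
    · refine hg.ae_eq (ae_of_all _ fun x => ?_)
      simp
  have hftc : ∀ {f f' g g' : ℝ → ℂ}, Prim f f' → Prim g g' → ∀ a b : ℝ,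
      (![f b, g b] : CV 2) - ![f a, g a] = ∫ t in a..b, (![f' t, g' t] : CV 2) := by
    intro f f' g g' hf hg a b
    ext i
    rw [spec_proj_int (hmk (hf.1 a b) (hg.1 a b)) i]
    fin_cases i
    · simpa using hf.2 a b
    · simpa using hg.2 a b
  refine ⟨?_, ?_, ?_⟩
  · intro j hj a b
    interval_cases j
    · simpa using hmk (hu.p0.1 a b) (hw.p0.1 a b)
    · simpa using hmk (hu.p1.1 a b) (hw.p1.1 a b)
  · intro j hj a b
    interval_cases j
    · simpa using hftc hu.p0 hw.p0 a b
    · simpa using hftc hu.p1 hw.p1 a b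
  · intro j hj
    interval_cases j
    · simpa using hmem hu.m0 hw.m0
    · simpa using hmem hu.m1 hw.m1
    · simpa using hmem hu.m2 hw.m2

theorem spec_tri {ω : ℝ → ℝ} {q1 q2 r : ℝ → ℝ} (hq2 : Continuous q2)
    (hq2b : ∃ B, ∀ x, |q2 x| ≤ B) (hr : Continuous r) {R : ℝ} (hR : ∀ x, |r x| ≤ R) {A : ℝ → Matrix (Fin 2) (Fin 2) ℝ}
    (hA : ∀ x, A x = !![q1 x, 0; r x, q2 x]) {lam : ℂ} (h1 : SRes ω q1 lam) (h2 : SRes ω q2 lam) :
    exSys.InResolvent 2 A ω lam := by
  obtain ⟨C1, hs1, hb1⟩ := h1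
  obtain ⟨C2, hs2, hb2⟩ := h2
  have hop : ∀ (U : ℕ → ℝ → CV 2) (x : ℝ), exSys.opC 2 A U x - lam • U 0 x =
      ![ell q1 lam (fun x => U 0 x 0) (fun x => U 1 x 0) (fun x => U 2 x 0) x,
        ell q2 lam (fun x => U 0 x 1) (fun x => U 1 x 1) (fun x => U 2 x 1) x +
          (r x : ℂ) * U 0 x 0] := by
    intro U x
    have hm0 : (cMat (A x)).mulVec (U 0 x) 0 = (q1 x : ℂ) * U 0 x 0 := by
      simp [hA x, cMat, Matrix.mulVec, dotProduct, Fin.sum_univ_two]
    have hm1 : (cMat (A x)).mulVec (U 0 x) 1 = (r x : ℂ) * U 0 x 0 + (q2 x : ℂ) * U 0 x 1 := by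
      simp [hA x, cMat, Matrix.mulVec, dotProduct, Fin.sum_univ_two]
    rw [spec_opC]
    funext i
    fin_cases i
    · change U 2 x 0 + ((2 : ℝ) : ℂ) * U 1 x 0 + (cMat (A x)).mulVec (U 0 x) 0 - lam * U 0 x 0 = _
      rw [hm0]
      simp only [Matrix.cons_val_zero, ell, Fin.zero_eta]
      push_cast
      ring
    · change U 2 x 1 + ((2 : ℝ) : ℂ) * U 1 x 1 + (cMat (A x)).mulVec (U 0 x) 1 - lam * U 0 x 1 = _
      rw [hm1]
      simp only [Matrix.cons_val_one, ell, Fin.mk_one]
      push_cast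
      ring
  have hR0 : 0 ≤ R := (abs_nonneg _).trans (hR 0)
  refine ⟨C1 + C2 * (1 + Real.toNNReal R * C1), ?_, ?_⟩
  · intro g hg
    have hg0 : MemLp (fun x => (ω x : ℂ) * g x 0) 2 volume :=
      (hg.eval 0).ae_eq (ae_of_all _ fun x => by simp)
    have hg1 : MemLp (fun x => (ω x : ℂ) * g x 1) 2 volume :=
      (hg.eval 1).ae_eq (ae_of_all _ fun x => by simp)
    obtain ⟨u0, u1, u2, hu, hue⟩ := hs1 (fun x => g x 0) hg0
    have hg1' : MemLp (fun x => (ω x : ℂ) * (g x 1 - (r x : ℂ) * u0 x)) 2 volume := by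
      refine (hg1.sub (apriori_bdd_mul hu.m0 hr hR)).ae_eq (ae_of_all _ fun x => ?_)
      simp only [Pi.sub_apply]
      ring
    obtain ⟨w0, w1, w2, hw, hwe⟩ := hs2 (fun x => g x 1 - (r x : ℂ) * u0 x) hg1'
    refine ⟨_, spec_sob_mk hu hw, ?_⟩
    filter_upwards [hue, hwe] with x hx hx'
    rw [hop]
    ext i
    fin_cases i
    · simpa using hx
    · simp only [if_true, one_ne_zero, if_false, OfNat.ofNat_ne_zero, OfNat.ofNat_ne_one]
      simp only [ell] at hx' ⊢
      simp
      linear_combination hx'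
  · intro U hU
    have c0 := spec_sob_comp hU 0
    have c1 := spec_sob_comp hU 1
    have e0 := hb1 _ _ _ c0
    have e1 := hb2 _ _ _ c1
    set G : ℝ → CV 2 := fun x => ω x • (exSys.opC 2 A U x - lam • U 0 x) with hG
    have hG0 : ∀ x, G x 0 = (ω x : ℂ) * ell q1 lam (fun x => U 0 x 0) (fun x => U 1 x 0)
        (fun x => U 2 x 0) x := by
      intro x
      simp only [hG]
      rw [hop]
      simp
    have hG1 : ∀ x, G x 1 = (ω x : ℂ) * ell q2 lam (fun x => U 0 x 1) (fun x => U 1 x 1)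
        (fun x => U 2 x 1) x + (r x : ℂ) * ((ω x : ℂ) * U 0 x 0) := by
      intro x
      simp only [hG]
      rw [hop]
      simp
      ring
    have n0 : eLpNorm (fun x => (ω x : ℂ) * ell q1 lam (fun x => U 0 x 0) (fun x => U 1 x 0)
        (fun x => U 2 x 0) x) 2 volume ≤ eLpNorm G 2 volume := by
      refine eLpNorm_mono fun x => ?_
      rw [← hG0 x]
      exact norm_le_pi_norm (G x) 0
    have n1 : eLpNorm (fun x => G x 1) 2 volume ≤ eLpNorm G 2 volume :=
      eLpNorm_mono fun x => norm_le_pi_norm (G x) 1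
    have mell := apriori_ell_mem hq2 hq2b (lam := lam) c1
    have mr := apriori_bdd_mul c0.m0 hr hR
    have n2 : eLpNorm (fun x => (r x : ℂ) * ((ω x : ℂ) * U 0 x 0)) 2 volume ≤
        ENNReal.ofReal R * eLpNorm (fun x => (ω x : ℂ) * U 0 x 0) 2 volume :=
      eLpNorm_le_mul_eLpNorm_of_ae_le_mul (ae_of_all _ fun x => by
        rw [norm_mul, Complex.norm_real, Real.norm_eq_abs]
        exact mul_le_mul_of_nonneg_right (hR x) (norm_nonneg _)) 2
    have n3 : eLpNorm (fun x => (ω x : ℂ) * ell q2 lam (fun x => U 0 x 1) (fun x => U 1 x 1)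
        (fun x => U 2 x 1) x) 2 volume ≤
        eLpNorm G 2 volume + ENNReal.ofReal R * (C1 * eLpNorm G 2 volume) := by
      have e : (fun x => (ω x : ℂ) * ell q2 lam (fun x => U 0 x 1) (fun x => U 1 x 1)
          (fun x => U 2 x 1) x) = (fun x => G x 1) -
          (fun x => (r x : ℂ) * ((ω x : ℂ) * U 0 x 0)) := by
        funext x
        simp only [Pi.sub_apply, hG1 x]
        ring
      have hm1 : AEStronglyMeasurable (fun x => G x 1) volume := by
        have := mell.1.add mr.1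
        exact this.congr (ae_of_all _ fun x => by simp only [Pi.add_apply, hG1 x])
      rw [e]
      refine (eLpNorm_sub_le hm1 mr.1 (by norm_num)).trans ?_
      refine add_le_add n1 (n2.trans ?_)
      gcongr
      exact e0.trans (by gcongr)
    have n4 : eLpNorm (fun x => ω x • U 0 x) 2 volume ≤
        eLpNorm (fun x => (ω x : ℂ) * U 0 x 0) 2 volume +
        eLpNorm (fun x => (ω x : ℂ) * U 0 x 1) 2 volume := by
      have h1 : eLpNorm (fun x => ω x • U 0 x) 2 volume ≤
          eLpNorm ((fun x => ‖(ω x : ℂ) * U 0 x 0‖) + fun x => ‖(ω x : ℂ) * U 0 x 1‖) 2 volume := by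
        refine eLpNorm_mono_real fun x => ?_
        rw [pi_norm_le_iff_of_nonneg (by simp only [Pi.add_apply]; positivity)]
        intro i
        simp only [Pi.add_apply, Pi.smul_apply, Complex.real_smul]
        fin_cases i
        · exact le_add_of_nonneg_right (norm_nonneg _)
        · exact le_add_of_nonneg_left (norm_nonneg _)
      refine h1.trans ?_
      refine (eLpNorm_add_le c0.m0.1.norm c1.m0.1.norm (by norm_num)).trans ?_
      rw [eLpNorm_norm, eLpNorm_norm]
    calc eLpNorm (fun x => ω x • U 0 x) 2 volume ≤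
        eLpNorm (fun x => (ω x : ℂ) * U 0 x 0) 2 volume +
        eLpNorm (fun x => (ω x : ℂ) * U 0 x 1) 2 volume := n4
      _ ≤ C1 * eLpNorm G 2 volume +
          C2 * (eLpNorm G 2 volume + ENNReal.ofReal R * (C1 * eLpNorm G 2 volume)) := by
          gcongr
          · exact e0.trans (by gcongr)
          · exact e1.trans (by gcongr)
      _ = ((C1 + C2 * (1 + Real.toNNReal R * C1) : NNReal) : ENNReal) * eLpNorm G 2 volume := by
          push_cast
          rw [ENNReal.ofReal]
          ring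

/-- The linearization at `0`. -/
theorem exSys_spec0 (lam : ℂ) (hlam : 0 ≤ lam.re) (hlam0 : lam ≠ 0) :
    exSys.InResolvent 2 (fun _ => exSys.jac 0) (fun x => Real.exp (1 * x)) lam := by
  have hω : (fun x => Real.exp (1 * x)) = Real.exp := by
    funext x; rw [one_mul]
  rw [hω]
  refine spec_tri (q1 := fun _ => -3) (q2 := fun _ => 1) (r := fun _ => 0) continuous_const
    ⟨1, fun x => by norm_num⟩ continuous_const (R := 0) (fun x => by norm_num) (fun x => ?_) ?_ ?_
  · rw [exSys_jac]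
    ext i j
    fin_cases i <;> fin_cases j <;> simp
  · exact sres_exp continuous_const ⟨3, fun x => by norm_num⟩
      (FPos.of_nonneg fun x => by norm_num) hlam hlam0
  · exact sres_exp continuous_const ⟨1, fun x => by norm_num⟩
      (FPos.of_nonneg fun x => by norm_num) hlam hlam0

/-- The linearization at the front. -/
theorem exSys_spec (ω : ℝ → ℝ) (hω : IsWeight 0 1 ω) (lam : ℂ) (hlam : 0 ≤ lam.re)
    (hlam0 : lam ≠ 0) :
    exSys.InResolvent 2 (fun x => exSys.jac (exFront x)) ω lam := by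
  obtain ⟨K, hK0, hK⟩ := spec_weight_comp hω
  have hw := spec_ww hω
  have hv := spec_vs_continuous
  have hwc := spec_ws_continuous
  refine spec_tri (q1 := qv) (q2 := qw) (r := fun x => 4 * ws x * (1 - 2 * vs x)) qw_continuous
    qw_bdd (by fun_prop) (R := 4) (fun x => ?_) (fun x => ?_) ?_ ?_
  · have h1 := vs_pos x
    have h2 := vs_lt_one x
    have h3 := ws_pos x
    have h4 := ws_lt_one x
    rw [abs_mul, abs_mul, abs_of_pos h3, abs_of_pos (by norm_num : (0 : ℝ) < 4)]
    have h5 : |1 - 2 * vs x| ≤ 1 := by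
      rw [abs_le]; constructor <;> linarith
    calc 4 * ws x * |1 - 2 * vs x| ≤ 4 * 1 * 1 := by gcongr
      _ = 4 := by norm_num
  · rw [exSys_jac_front]
    rfl
  · exact sres_w hw hK0 hK qv_continuous qv_bdd qv_fpos (by norm_num : (0 : ℝ) < 3) le_rfl
      (by norm_num : (0 : ℝ) ≤ 66) qv_neg hlam hlam0
  · exact sres_w hw hK0 hK qw_continuous qw_bdd qw_fpos (by norm_num : (0 : ℝ) < 3) le_rfl
      (by norm_num : (0 : ℝ) ≤ 66) qw_neg hlam hlam0

end Pool.Agent.FrontSel98
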