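import Pool.Agent.FrontSel98.Disp
import Pool.Agent.FrontSel98.Ker
import Pool.Agent.FrontSel98.Barrier
import Pool.Agent.FrontSel98.Spec

/-!
# The counterexample
-/

open MeasureTheory Filter Topology Set Matrix

namespace Pool.Agent.FrontSel98

theorem exFront_transition : exSys.IsTransitionFront 2 1 exFront where
  adm := exSys_admissible
  smooth := exFront_contDiff
  wave := exFront_wave
  eta_pos := one_pos
  speed := exSys_linSpeed
  root := exSys_root
  simple := exSys_simple
  spec0 := exSys_spec0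
  ends := by
    refine ⟨![1, 1], ![0, 1], 0, 2, 1, 1, 0, exSys_stableEq, by norm_num, rfl, one_ne_zero, ?_,
      exFront_left, exFront_right⟩
    intro h
    have := congrFun h 1
    simp at this
  spec := exSys_spec
  ker_mem := exSys_ker_mem
  ker := exSys_ker

theorem exFront_not_selected : ¬ exSys.Selected 2 exFront (LogShift 1) := by
  rintro ⟨ρ, -, -, hsel⟩
  obtain ⟨𝒰, -, ha, ⟨u₀, hu₀, -⟩, -⟩ := hsel (1 / 50) (by norm_num)
  obtain ⟨v, hv, h, -, ⟨C, hC⟩, hclose⟩ := ha u₀ hu₀
  obtain ⟨C', hC'⟩ := no_drift hv (h := h) (by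
    filter_upwards [hclose] with t ht x
    obtain ⟨ε', hε', hx⟩ := ht
    exact (hx x).trans hε'.le)
  have hlog : ∀ᶠ t in atTop, 2 * (C + C' + 1) < Real.log t :=
    Real.tendsto_log_atTop.eventually_gt_atTop _
  obtain ⟨t, h1, h2, h3⟩ := (hC.and (hC'.and hlog)).exists
  rw [abs_le] at h1 h2
  norm_num at h1 h2
  linarith [h1.1, h1.2, h2.1, h2.2]

end Pool.Agent.FrontSel98
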