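import Pool.Agent.FrontSel98.Scal

/-!
# Calculus of primitives
-/

open MeasureTheory Filter Topology Set

namespace Pool.Agent.FrontSel98

theorem Prim.continuous {f f' : ℝ → ℂ} (h : Prim f f') : Continuous f := by
  have h1 : f = fun x => f 0 + ∫ t in (0 : ℝ)..x, f' t := by
    funext x
    rw [← h.2 0 x]
    ring
  rw [h1]
  exact continuous_const.add (intervalIntegral.continuous_primitive h.1 0)

theorem Prim.congr_ae {f f' g' : ℝ → ℂ} (h : Prim f f') (he : ∀ᵐ x, f' x = g' x) : Prim f g' := by
  refine ⟨fun a b => (h.1 a b).congr_ae (ae_restrict_of_ae he), fun a b => ?_⟩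
  rw [h.2 a b]
  refine intervalIntegral.integral_congr_ae ?_
  filter_upwards [he] with x hx _ using hx

theorem Prim.add {f f' g g' : ℝ → ℂ} (hf : Prim f f') (hg : Prim g g') :
    Prim (fun x => f x + g x) (fun x => f' x + g' x) := by
  refine ⟨fun a b => (hf.1 a b).add (hg.1 a b), fun a b => ?_⟩
  rw [intervalIntegral.integral_add (hf.1 a b) (hg.1 a b), ← hf.2 a b, ← hg.2 a b]
  ring

theorem Prim.sub {f f' g g' : ℝ → ℂ} (hf : Prim f f') (hg : Prim g g') :
    Prim (fun x => f x - g x) (fun x => f' x - g' x) := by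
  refine ⟨fun a b => (hf.1 a b).sub (hg.1 a b), fun a b => ?_⟩
  rw [intervalIntegral.integral_sub (hf.1 a b) (hg.1 a b), ← hf.2 a b, ← hg.2 a b]
  ring

theorem Prim.const_mul {f f' : ℝ → ℂ} (c : ℂ) (hf : Prim f f') :
    Prim (fun x => c * f x) (fun x => c * f' x) := by
  refine ⟨fun a b => (hf.1 a b).const_mul c, fun a b => ?_⟩
  rw [intervalIntegral.integral_const_mul, ← hf.2 a b]
  ring

/-- Composition with a continuous real-linear map. -/
private theorem PrimCalc_clm {F : Type*} [NormedAddCommGroup F] [NormedSpace ℝ F] [CompleteSpace F]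
    (L : ℂ →L[ℝ] F) {f f' : ℝ → ℂ} (hf : Prim f f') :
    (∀ a b : ℝ, IntervalIntegrable (fun x => L (f' x)) volume a b) ∧
      ∀ a b : ℝ, L (f b) - L (f a) = ∫ t in a..b, L (f' t) := by
  refine ⟨fun a b => ?_, fun a b => ?_⟩
  · have h := hf.1 a b
    rw [intervalIntegrable_iff] at h ⊢
    exact L.integrable_comp h
  · rw [L.intervalIntegral_comp_comm (hf.1 a b), ← hf.2 a b, map_sub]

theorem Prim.conj {f f' : ℝ → ℂ} (hf : Prim f f') :
    Prim (fun x => (starRingEnd ℂ) (f x)) (fun x => (starRingEnd ℂ) (f' x)) := by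
  have h := PrimCalc_clm (Complex.conjCLE : ℂ →L[ℝ] ℂ) hf
  exact h

/-- The product rule for real functions. -/
private theorem PrimCalc_real_mul {f f' g g' : ℝ → ℝ}
    (hf1 : ∀ a b : ℝ, IntervalIntegrable f' volume a b)
    (hf2 : ∀ a b : ℝ, f b - f a = ∫ t in a..b, f' t)
    (hg1 : ∀ a b : ℝ, IntervalIntegrable g' volume a b)
    (hg2 : ∀ a b : ℝ, g b - g a = ∫ t in a..b, g' t) (a b : ℝ) :
    f b * g b - f a * g a = ∫ t in a..b, (f' t * g t + f t * g' t) := by
  have key : ∀ {f f' : ℝ → ℝ}, (∀ a b : ℝ, IntervalIntegrable f' volume a b) →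
      (∀ a b : ℝ, f b - f a = ∫ t in a..b, f' t) →
      AbsolutelyContinuousOnInterval f a b ∧ ∀ᵐ x, deriv f x = f' x := by
    intro f f' h1 h2
    have e : f = fun x => f a + ∫ t in a..x, f' t := by
      funext x
      rw [← h2 a x]
      ring
    constructor
    · rw [e]
      have c1 : AbsolutelyContinuousOnInterval (fun _ : ℝ => f a) a b :=
        ((LipschitzWith.const (f a)).lipschitzOnWith (s := uIcc a b)).absolutelyContinuousOnInterval
      have c2 := (h1 a b).absolutelyContinuousOnInterval_intervalIntegral (c := a) (by simp)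
      exact c1.add c2
    · have hl : LocallyIntegrable f' volume := by
        rw [locallyIntegrable_iff]
        intro K hK
        obtain ⟨R, hR⟩ := hK.isBounded.subset_closedBall (0 : ℝ)
        have hs : K ⊆ uIoc (-(|R| + 1)) (|R| + 1) := by
          intro x hx
          have hx' := hR hx
          rw [mem_closedBall_zero_iff, Real.norm_eq_abs] at hx'
          have h3 := abs_le.1 (hx'.trans (le_abs_self R))
          rw [uIoc_of_le (by have := abs_nonneg R; linarith)]
          constructor <;> linarith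
        have h4 := h1 (-(|R| + 1)) (|R| + 1)
        rw [intervalIntegrable_iff] at h4
        exact h4.mono_set hs
      filter_upwards [_root_.LocallyIntegrable.ae_hasDerivAt_integral hl] with x hx
      have h5 := (hx a).const_add (f a)
      rw [← e] at h5
      exact h5.deriv
  obtain ⟨f1, f2⟩ := key hf1 hf2
  obtain ⟨g1, g2⟩ := key hg1 hg2
  rw [← f1.integral_deriv_mul_eq_sub g1]
  refine intervalIntegral.integral_congr_ae ?_
  filter_upwards [f2, g2] with x h3 h4 _
  rw [h3, h4]

theorem Prim.mul {f f' g g' : ℝ → ℂ} (hf : Prim f f') (hg : Prim g g') :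
    Prim (fun x => f x * g x) (fun x => f' x * g x + f x * g' x) := by
  have hfc := hf.continuous
  have hgc := hg.continuous
  have hint : ∀ a b : ℝ, IntervalIntegrable (fun x => f' x * g x + f x * g' x) volume a b :=
    fun a b => ((hf.1 a b).mul_continuousOn hgc.continuousOn).add
      ((hg.1 a b).continuousOn_mul hfc.continuousOn)
  refine ⟨hint, fun a b => ?_⟩
  obtain ⟨fr1, fr2⟩ := PrimCalc_clm Complex.reCLM hf
  obtain ⟨fi1, fi2⟩ := PrimCalc_clm Complex.imCLM hf
  obtain ⟨gr1, gr2⟩ := PrimCalc_clm Complex.reCLM hg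
  obtain ⟨gi1, gi2⟩ := PrimCalc_clm Complex.imCLM hg
  simp only [Complex.reCLM_apply] at fr1 fr2 gr1 gr2
  simp only [Complex.imCLM_apply] at fi1 fi2 gi1 gi2
  have hcr : Continuous fun x => (f x).re := Complex.continuous_re.comp hfc
  have hci : Continuous fun x => (f x).im := Complex.continuous_im.comp hfc
  have hdr : Continuous fun x => (g x).re := Complex.continuous_re.comp hgc
  have hdi : Continuous fun x => (g x).im := Complex.continuous_im.comp hgc
  have prod_int : ∀ {p p' q q' : ℝ → ℝ}, Continuous p → Continuous q →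
      (∀ a b : ℝ, IntervalIntegrable p' volume a b) → (∀ a b : ℝ, IntervalIntegrable q' volume a b) →
      IntervalIntegrable (fun t => p' t * q t + p t * q' t) volume a b := by
    intro p p' q q' hp hq hp' hq'
    exact ((hp' a b).mul_continuousOn hq.continuousOn).add
      ((hq' a b).continuousOn_mul hp.continuousOn)
  have rr := PrimCalc_real_mul fr1 fr2 gr1 gr2 a b
  have ii := PrimCalc_real_mul fi1 fi2 gi1 gi2 a b
  have ri := PrimCalc_real_mul fr1 fr2 gi1 gi2 a b
  have ir := PrimCalc_real_mul fi1 fi2 gr1 gr2 a b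
  apply Complex.ext
  · have h1 : (∫ t in a..b, (f' t * g t + f t * g' t)).re =
        ∫ t in a..b, (f' t * g t + f t * g' t).re := by
      have := Complex.reCLM.intervalIntegral_comp_comm (hint a b)
      simp only [Complex.reCLM_apply] at this
      exact this.symm
    rw [h1]
    have h2 : ∀ t, (f' t * g t + f t * g' t).re =
        ((f' t).re * (g t).re + (f t).re * (g' t).re) - ((f' t).im * (g t).im + (f t).im * (g' t).im) := by
      intro t
      simp only [Complex.add_re, Complex.mul_re]
      ring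
    simp_rw [h2]
    rw [intervalIntegral.integral_sub (prod_int hcr hdr fr1 gr1) (prod_int hci hdi fi1 gi1),
      ← rr, ← ii]
    simp only [Complex.sub_re, Complex.mul_re]
    ring
  · have h1 : (∫ t in a..b, (f' t * g t + f t * g' t)).im =
        ∫ t in a..b, (f' t * g t + f t * g' t).im := by
      have := Complex.imCLM.intervalIntegral_comp_comm (hint a b)
      simp only [Complex.imCLM_apply] at this
      exact this.symm
    rw [h1]
    have h2 : ∀ t, (f' t * g t + f t * g' t).im =
        ((f' t).re * (g t).im + (f t).re * (g' t).im) + ((f' t).im * (g t).re + (f t).im * (g' t).re) := by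
      intro t
      simp only [Complex.add_im, Complex.mul_im]
      ring
    simp_rw [h2]
    rw [intervalIntegral.integral_add (prod_int hcr hdi fr1 gi1) (prod_int hci hdr fi1 gr1),
      ← ri, ← ir]
    simp only [Complex.sub_im, Complex.mul_im]
    ring

/-- A `C¹` function. -/
theorem Prim.of_hasDerivAt {f f' : ℝ → ℂ} (h : ∀ x, HasDerivAt f (f' x) x) (hc : Continuous f') :
    Prim f f' := by
  refine ⟨fun a b => hc.intervalIntegrable a b, fun a b => ?_⟩
  exact (intervalIntegral.integral_eq_sub_of_hasDerivAt (fun x _ => h x)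
    (hc.intervalIntegrable a b)).symm

/-- If `F` and `F' = G` are integrable on the line then `∫ G = 0`. -/
theorem Prim.integral_eq_zero {F G : ℝ → ℂ} (h : Prim F G) (hF : Integrable F) (hG : Integrable G) :
    ∫ x, G x = 0 := by
  have e : ∀ x, F x = F 0 + ∫ t in (0 : ℝ)..x, G t := by
    intro x
    rw [← h.2 0 x]
    ring
  -- limits at both ends
  have t1 : Tendsto F atTop (𝓝 (F 0 + ∫ t in Ioi (0 : ℝ), G t)) := by
    have h1 := intervalIntegral_tendsto_integral_Ioi (0 : ℝ) hG.integrableOn tendsto_id
    have h2 := h1.const_add (F 0)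
    refine h2.congr fun x => ?_
    rw [e x]
    rfl
  have t2 : Tendsto F atBot (𝓝 (F 0 - ∫ t in Iic (0 : ℝ), G t)) := by
    have h1 := intervalIntegral_tendsto_integral_Iic (0 : ℝ) hG.integrableOn tendsto_id
    have h2 := h1.const_sub (F 0)
    refine h2.congr fun x => ?_
    rw [e x, intervalIntegral.integral_symm]
    simp only [id]
    ring
  have z1 : F 0 + ∫ t in Ioi (0 : ℝ), G t = 0 := by
    have hi : IntegrableAtFilter F atTop := ⟨Ioi 0, Ioi_mem_atTop _, hF.integrableOn⟩
    refine IntegrableAtFilter.eq_zero_of_tendsto hi ?_ t1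
    intro s hs
    rcases mem_atTop_sets.1 hs with ⟨b, hb⟩
    rw [← top_le_iff, ← Real.volume_Ici (a := b)]
    exact measure_mono hb
  have z2 : F 0 - ∫ t in Iic (0 : ℝ), G t = 0 := by
    have hi : IntegrableAtFilter F atBot := ⟨Iic 0, Iic_mem_atBot _, hF.integrableOn⟩
    refine IntegrableAtFilter.eq_zero_of_tendsto hi ?_ t2
    intro s hs
    rcases mem_atBot_sets.1 hs with ⟨b, hb⟩
    rw [← top_le_iff, ← Real.volume_Iic (a := b)]
    exact measure_mono hb
  have h3 := intervalIntegral.integral_Iic_add_Ioi (b := (0 : ℝ)) (f := G) (μ := volume)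
    hG.integrableOn hG.integrableOn
  rw [← h3]
  have z3 : ∫ t in Iic (0 : ℝ), G t = F 0 := (sub_eq_zero.1 z2).symm
  rw [z3]
  exact z1

end Pool.Agent.FrontSel98
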