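import Pool.Agent.FrontSel98.Defs

/-!
# Scalar interface definitions

`ω` is a weight, `u0, u1, u2` are a function and its first two (weak) derivatives.
-/

open MeasureTheory Filter Topology Set

namespace Pool.Agent.FrontSel98

/-- `f` is locally absolutely continuous with almost everywhere derivative `f'`. -/
def Prim (f f' : ℝ → ℂ) : Prop :=
  (∀ a b : ℝ, IntervalIntegrable f' volume a b) ∧ ∀ a b : ℝ, f b - f a = ∫ t in a..b, f' t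

/-- `u0 ∈ H²_ω` with derivatives `u1`, `u2`. -/
structure SSob (ω : ℝ → ℝ) (u0 u1 u2 : ℝ → ℂ) : Prop where
  p0 : Prim u0 u1
  p1 : Prim u1 u2
  m0 : MemLp (fun x => (ω x : ℂ) * u0 x) 2 volume
  m1 : MemLp (fun x => (ω x : ℂ) * u1 x) 2 volume
  m2 : MemLp (fun x => (ω x : ℂ) * u2 x) 2 volume

/-- Weights whose logarithmic growth rate lies in `[0,1]` up to constants. -/
structure WW (ω : ℝ → ℝ) : Prop where
  cont : Continuous ω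
  pos : ∀ x, 0 < ω x
  grow : ∃ K > 0, ∀ x y, y ≤ x → ω x ≤ K * Real.exp (x - y) * ω y ∧ ω y ≤ K * ω x

/-- `u'' + 2u' + (q - λ) u`. -/
noncomputable def ell (q : ℝ → ℝ) (lam : ℂ) (u0 u1 u2 : ℝ → ℂ) (x : ℝ) : ℂ :=
  u2 x + 2 * u1 x + ((q x : ℂ) - lam) * u0 x

/-- `λ` is in the resolvent set of `∂² + 2∂ + q` on `L²_ω`. -/
def SRes (ω : ℝ → ℝ) (q : ℝ → ℝ) (lam : ℂ) : Prop := ∃ C : NNReal,
  (∀ g : ℝ → ℂ, MemLp (fun x => (ω x : ℂ) * g x) 2 volume →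
    ∃ u0 u1 u2, SSob ω u0 u1 u2 ∧ ∀ᵐ x, ell q lam u0 u1 u2 x = g x) ∧
  (∀ u0 u1 u2, SSob ω u0 u1 u2 →
    eLpNorm (fun x => (ω x : ℂ) * u0 x) 2 volume ≤
      C * eLpNorm (fun x => (ω x : ℂ) * ell q lam u0 u1 u2 x) 2 volume)

/-- Nonnegativity of the form `∫ |W'|² + p|W|²`. -/
def FPos (p : ℝ → ℝ) : Prop := ∀ W W1 W2, SSob (fun _ => 1) W W1 W2 →
  0 ≤ ∫ x, (‖W1 x‖ ^ 2 + p x * ‖W x‖ ^ 2)

end Pool.Agent.FrontSel98
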